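import Pool.Agent.Lib.TG1.DF
import Mathlib.RingTheory.Nullstellensatz

/-!
# TANK G, row DF': one polynomial for all centres
-/

set_option autoImplicit false

namespace Pool.Agent.TG91

open MvPolynomial
open Pool.Agent.TG (Ov ZDim IsMin)
open Pool.Agent.TGh33 (Wr DB)
open Pool.Agent.TG1
open Pool.Agent.TG1h47 (dgr FinPl IsPlA InfPl)

universe u

variable {k K : Type u} [Field k] [Field K] [Algebra k K]

/-- An irreducible polynomial over an algebraically closed field has a zero. -/
theorem exists_zero_of_irreducible [IsAlgClosed k] {m : ℕ}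
    {h : MvPolynomial (Fin m) k} (hirr : Irreducible h) : ∃ p : Fin m → k, eval p h = 0 := by
  have h1 : Ideal.span {h} ≠ ⊤ := fun h2 => hirr.not_isUnit (Ideal.span_singleton_eq_top.1 h2)
  obtain ⟨M, hM, hle⟩ := Ideal.exists_le_maximal _ h1
  obtain ⟨p, hp⟩ := MvPolynomial.isMaximal_iff_eq_vanishingIdeal_singleton.1 hM
  refine ⟨p, ?_⟩
  have h3 : h ∈ M := hle (Ideal.subset_span rfl)
  rw [hp, MvPolynomial.mem_vanishingIdeal_singleton_iff] at h3
  rw [← MvPolynomial.aeval_eq_eval]
  exact h3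

section

variable {n : ℕ} {D : Fin (n + 1) → Derivation k K K} {z : Fin (n + 1) → K} {A : Subalgebra k K}

/-- Divisors at infinity at one centre are at infinity at all centres, and, for generic `a`, are
neither bad nor in the support. -/
theorem exists_G_all [IsAlgClosed k] (dat : Dat D z A) {x : K} {t : Fin (n + 1) → K}
    (hW : Wr D (Fin.cons x t) ≠ 0) (hx : x ∈ A) (ht : ∀ j, t j ∈ A) :
    ∃ G : MvPolynomial (Fin (n + 1)) k, G ≠ 0 ∧ ∀ a : Fin (n + 1) → k, eval a G ≠ 0 →
      ∀ η : Fin (n + 1) → k, ∀ R ∈ Sup D A (tl x t a) (tr (tl x t a) t η),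
        R.v (tl x t a) = R.v (tr (tl x t a) t η 0) := by
  classical
  have : Infinite k := IsAlgClosed.instInfinite
  have htr : ∀ (c : Fin (n + 1) → k) (j : Fin (n + 1)), tr x t c j ∈ A := fun c j =>
    A.sub_mem (ht j) (A.smul_mem hx _)
  have hfin : ∀ c : Fin (n + 1) → k, ((gd D A (tr x t c))ᶜ).Finite := fun c =>
    finite_gd_compl dat (x := x) (by rw [Wr_tr]; exact hW) (htr c)
  have hl := algInd_crd dat hW
  have hx0 : x ≠ 0 := ffi_x hW
  have ht0 := tne_of_Wr hW
  have hne : ∀ a : Fin (n + 1) → k, tl x t a ≠ 0 := fun a =>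
    xne_of_Wr (D := D) (t := t) (by rw [Wr_tl]; exact hW)
  have htl : ∀ a : Fin (n + 1) → k, tl x t a ∈ A := fun a =>
    A.add_mem hx (A.sum_mem fun i _ => A.smul_mem (ht i) _)
  have hB := Bd_finite dat hW hfin
  have hz : ∀ R : PF.Pl k K, ∃ p : Fin (n + 1) → k, R ∈ Bd D A x t → eval p (hof x t R) = 0 := by
    intro R
    by_cases h : R ∈ Bd D A x t
    · obtain ⟨p, hp⟩ := exists_zero_of_irreducible (hof_spec h.1).1
      exact ⟨p, fun _ => hp⟩
    · exact ⟨0, fun h' => absurd h' h⟩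
  choose p hp using hz
  have halg : Algebra.IsAlgebraic (IntermediateField.adjoin k (Set.range (crd x t))) K := by
    have : FiniteDimensional (IntermediateField.adjoin k (Set.range (crd x t))) K :=
      kq_fin dat hW
    exact Algebra.IsAlgebraic.of_finite _ _
  refine ⟨X 0 * ∏ R ∈ hB.toFinset, (1 + ∑ i, C (p R i) * X i), ?_, ?_⟩
  · refine mul_ne_zero (X_ne_zero _) (Finset.prod_ne_zero_iff.2 fun R _ h1 => ?_)
    have h2 := congrArg (eval (0 : Fin (n + 1) → k)) h1
    rw [map_add, map_one, map_sum, map_zero, Finset.sum_eq_zero, add_zero] at h2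
    · exact one_ne_zero h2
    · intro i _
      rw [map_mul, eval_X, Pi.zero_apply, mul_zero]
  · intro a ha η R hR
    rw [map_mul, eval_X, mul_ne_zero_iff, map_prod, Finset.prod_ne_zero_iff] at ha
    obtain ⟨ha0, haR⟩ := ha
    have hWy : Wr D (Fin.cons (tl x t a) t) ≠ 0 := by rw [Wr_tl]; exact hW
    have hly := algInd_crd dat hWy
    have hs0 := (TG1h47.rat_indep hly η).2
    have hP := isPlA_of_mem_Sup (hne a) (htl a) hs0 hR
    have hv1 : R.v (tr (tl x t a) t η 0) =
        R.v (tl x t a) + R.v (TG1h47.sh (crd (tl x t a) t) η 0) := by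
      rw [tr_eq (hne a), R.mul _ _ (hne a) hs0]
    have hge : R.v (TG1h47.sh (crd (tl x t a) t) η 0) ≤ 0 := by
      have h1 := hP.2.2
      rw [PF.Pl.mem_vs', R.map_inv] at h1
      omega
    by_contra hc
    have hlt : R.v (TG1h47.sh (crd (tl x t a) t) η 0) < 0 := by omega
    have hI : InfPl (crd (tl x t a) t) η R.vs := ⟨hP.1, by
      rw [PF.Pl.mem_vs']
      omega⟩
    obtain ⟨hI0, -⟩ := hI.trans hly (0 : Fin (n + 1) → k)
    have hsh : TG1h47.sh (crd (tl x t a) t) (0 : Fin (n + 1) → k) 0 = t 0 / tl x t a := by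
      rw [TG1h47.sh, Pi.zero_apply, map_zero, sub_zero, crd]
    have hlt0 : R.v (t 0) < R.v (tl x t a) := by
      have h1 := hI0.2
      rw [hsh, PF.Pl.mem_vs', R.map_div (ht0 0) (hne a)] at h1
      omega
    have hrange : R ∈ Set.range (TG1h47.res (kap k t)) := by
      rw [TG1h47.mem_range_res']
      have h1 := hI0.1
      rw [← kap_tr (hne a), tr_zero'] at h1
      exact h1
    obtain ⟨Q, rfl⟩ := hrange
    rw [TG1h47.res_v] at hlt0 hv1 hc
    -- the value of `x`
    have hvx1 : Q.v (t 0) ≤ Q.v x := by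
      have h1 := v_le_tl (x := tl x t a) ht0 (-a) (by rw [tl_tl]; exact hx0) Q hlt0.le
      rwa [tl_tl] at h1
    have hvx2 : ¬ Q.v (t 0) < Q.v x := by
      intro h1
      have h2 := bad_unique dat hW Q (a := a) (a' := 0) hlt0 (by
        rw [tl]
        simpa using h1)
      exact ha0 h2
    have hvx : Q.v x = Q.v (t 0) := by omega
    -- the place is finite for the chart of `x`
    have hPx : IsPlA (crd x t) (0 : Fin (n + 1) → k) (TG1h47.res (kap k t) Q).vs := by
      have hsh' : TG1h47.sh (crd x t) (0 : Fin (n + 1) → k) 0 = t 0 / x := by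
        rw [TG1h47.sh, Pi.zero_apply, map_zero, sub_zero, crd]
      refine ⟨?_, (TG1h47.res (kap k t) Q).vs_ne_top, ?_⟩
      · have h1 := hI0.1
        rw [← kap_tr (hne a), tr_zero'] at h1
        rw [← kap_tr hx0, tr_zero']
        exact h1
      · rw [hsh', PF.Pl.mem_vs', PF.Pl.map_inv, PF.Pl.map_div _ (ht0 0) hx0]
        rw [TG1h47.res_v, hvx]
        omega
    rcases TG1h47.IsPlA.cases hl halg hPx with h4 | ⟨h, hirr, hF⟩
    · apply h4.2
      rw [TG1h47.sh, Pi.zero_apply, map_zero, sub_zero, crd, PF.Pl.mem_vs',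
        PF.Pl.map_div _ (ht0 0) hx0, TG1h47.res_v, hvx, sub_self]
    · -- it is not a bad place
      have hnB : TG1h47.res (kap k t) Q ∉ Bd D A x t := by
        intro hRB
        obtain ⟨hirr', hF'⟩ := hof_spec hRB.1
        have h5 : hof x t (TG1h47.res (kap k t) Q) ∣ (1 + ∑ i, C (a i) * X i) := by
          rw [← hF'.2]
          have h6 : MvPolynomial.aeval (crd x t) (1 + ∑ i, C (a i) * X i) = tl x t a / x := by
            rw [map_add, map_one, map_sum, tl, add_div, div_self hx0, Finset.sum_div]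
            congr 1
            refine Finset.sum_congr rfl fun i _ => ?_
            rw [map_mul, MvPolynomial.algHom_C, MvPolynomial.aeval_X, crd, Algebra.smul_def,
              mul_div_assoc]
          rw [h6, ValuationSubring.mem_nonunits_iff,
            PF.Pl.val_lt_one_iff (div_ne_zero (hne a) hx0), PF.Pl.map_div _ (hne a) hx0,
            TG1h47.res_v, hvx]
          omega
        obtain ⟨q, hq⟩ := h5
        have h7 := congrArg (eval (p (TG1h47.res (kap k t) Q))) hq
        rw [map_mul, hp _ hRB, zero_mul, map_add, map_one, map_sum] at h7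
        apply haR _ (hB.mem_toFinset.2 hRB)
        rw [map_add, map_one, map_sum, ← h7]
        congr 1
        refine Finset.sum_congr rfl fun i _ => ?_
        rw [map_mul, map_mul, eval_C, eval_X, eval_C, eval_X, mul_comm]
      have hw : wI D A x (Wr D (Fin.cons x t)) (TG1h47.res (kap k t) Q) = 0 := by
        by_contra hw
        exact hnB ⟨⟨h, hirr, hF⟩, hw⟩
      obtain ⟨h1, h2, h3⟩ := wI_eq_zero hw
      rw [TG1h47.res_v] at h2 h3
      -- the value of `t - η y`
      have h8 : Q.v (tr (tl x t a) t η 0) = 0 := by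
        have hge1 : Q.Ge 1 (η 0 • tl x t a) := by
          by_cases h9 : η 0 = 0
          · rw [h9, zero_smul]
            exact PF.Pl.Ge.zero
          · intro _
            rw [Algebra.smul_def, Q.mul _ _ ((map_ne_zero _).2 h9) (hne a)]
            have h10 : (algebraMap k K (η 0)) ∈ kap k t := IntermediateField.algebraMap_mem _ _
            have h11 := Q.triv ⟨_, h10⟩ (fun h => (map_ne_zero (algebraMap k K)).2 h9
              (congrArg Subtype.val h))
            have h12 : algebraMap (kap k t) K ⟨_, h10⟩ = algebraMap k K (η 0) := rfl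
            rw [h12] at h11
            omega
        have hge0 : Q.Ge 0 (tr (tl x t a) t η 0) :=
          PF.Pl.Ge.sub (fun _ => by omega) (PF.Pl.Ge.mono zero_le_one hge1)
        have htr0 : tr (tl x t a) t η 0 ≠ 0 :=
          tne_of_Wr (D := D) (x := tl x t a) (t := tr (tl x t a) t η)
            (by rw [Wr_tr]; exact hWy) 0
        have h13 := hge0 htr0
        by_contra h14
        have hge2 : Q.Ge 1 (t 0) := by
          have h15 : t 0 = tr (tl x t a) t η 0 + η 0 • tl x t a := by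
            rw [tr, sub_add_cancel]
          rw [h15]
          exact PF.Pl.Ge.add (fun _ => by omega) hge1
        have h16 := hge2 (ht0 0)
        omega
      apply hR.2
      rw [wtR, if_pos ⟨h1, h8⟩, Wr_tr, Wr_tl]
      exact h3

/-- The polynomial, when no support is at infinity. -/
theorem F_core [IsAlgClosed k] (dat : Dat D z A) {y : K} {t : Fin (n + 1) → K}
    (hW' : Wr D (Fin.cons y t) ≠ 0) (hyA : y ∈ A) (ht : ∀ j, t j ∈ A)
    (hgen : ∀ η : Fin (n + 1) → k, ∀ R ∈ Sup D A y (tr y t η), R.v y = R.v (tr y t η 0)) :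
    ∃ F : MvPolynomial (Fin (n + 1)) k, F ≠ 0 ∧
      (∀ η c : Fin (n + 1) → k, eval c F ≠ 0 →
        Th D A y (tr y t η) + TG1.ordAt η F ≤ Th D A y (tr y t c)) ∧
      (∀ P : ValuationSubring K, Ov k P → ∀ h : MvPolynomial (Fin (n + 1)) k,
        OverP (crd y t) P h →
        UnitAt P (aeval (crd y t) F) → Good D A P ∧ UnitAt P y ∧
          UnitAt P (Wr D (Fin.cons y t) / y ^ (n + 2))) ∧
      (∀ P : PF.Pl k K, Good D A P.vs → P.v y = 0 →
        ∀ h : MvPolynomial (Fin (n + 1)) k, OverP (crd y t) P.vs h →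
        P.v (Wr D (Fin.cons y t)) ≤ P.v (aeval (crd y t) F)) := by
  classical
  have : Infinite k := IsAlgClosed.instInfinite
  have hy0 : y ≠ 0 := xne_of_Wr hW'
  have hl := algInd_crd dat hW'
  have htr : ∀ (c : Fin (n + 1) → k) (j : Fin (n + 1)), tr y t c j ∈ A := fun c j =>
    A.sub_mem (ht j) (A.smul_mem hyA _)
  have hfin' : ∀ c : Fin (n + 1) → k, ((gd D A (tr y t c))ᶜ).Finite := fun c =>
    finite_gd_compl dat (x := y) (by rw [Wr_tr]; exact hW') (htr c)
  obtain ⟨T, hTdef⟩ : ∃ T, T = (Bd_finite dat hW' hfin').toFinset := ⟨_, rfl⟩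
  have hT : ∀ R, R ∈ T ↔ R ∈ Bd D A y t := fun R => by
    rw [hTdef, Set.Finite.mem_toFinset]
  have ht0 := tne_of_Wr hW'
  have hsub : ∀ η : Fin (n + 1) → k, Sup D A y (tr y t η) ⊆ Bd D A y t := by
    intro η R hR
    have hs0 := (TG1h47.rat_indep hl η).2
    have h1 := isPlA_of_mem_Sup hy0 hyA hs0 hR
    have h2 : R.v y = R.v (tr y t η 0) := hgen η R hR
    have halg : Algebra.IsAlgebraic (IntermediateField.adjoin k (Set.range (crd y t))) K := by
      have : FiniteDimensional (IntermediateField.adjoin k (Set.range (crd y t))) K :=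
        kq_fin dat hW'
      exact Algebra.IsAlgebraic.of_finite _ _
    have h3 : R.v (TG1h47.sh (crd y t) η 0) = 0 := by
      rw [tr_eq hy0, R.mul _ _ hy0 hs0] at h2
      omega
    rcases TG1h47.IsPlA.cases hl halg h1 with h4 | ⟨h, hirr, hF⟩
    · exfalso
      apply h4.2
      rw [PF.Pl.mem_vs', h3]
    · refine ⟨⟨h, hirr, hF⟩, ?_⟩
      rw [← (of_mem_Sup hy0 hyA hl hirr hF hR).2]
      exact hR.2
  refine ⟨Fpol D A y t T, Fpol_ne_zero y t T, ?_, ?_, ?_⟩
  · intro η c hc
    have h1 := bet_add_ord_le dat hW' hyA ht hfin' T hT (b := η) (hsub η) hc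
    rw [TG1h47.ordAt_eq η (Fpol D A y t T), Th, Th, dg_tr, dg_tr]
    linarith
  · intro P hPk h hP hu
    have hF := hP.finPl
    obtain ⟨R, rfl⟩ := exists_pl_of_finPl dat hW' hP.irr hF
    have hw : wI D A y (Wr D (Fin.cons y t)) R = 0 := by
      by_contra hw
      have h1 := pow_dvd_Fpol dat hW' T hT hP.irr hF
      have h2 := wI_nonneg (D := D) hyA ht R
      have h3 : (wI D A y (Wr D (Fin.cons y t)) R).toNat ≠ 0 := by omega
      have h4 : h ∣ Fpol D A y t T := (dvd_pow_self h h3).trans h1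
      have h5 := (hP.iff _).2 h4
      rw [UnitAt] at hu
      rw [hu] at h5
      exact lt_irrefl _ h5
    obtain ⟨h1, h2, h3⟩ := wI_eq_zero hw
    refine ⟨h1, (PF.Pl.val_eq_one_iff hy0).2 h2, ?_⟩
    rw [UnitAt, PF.Pl.val_eq_one_iff (div_ne_zero hW' (pow_ne_zero _ hy0)),
      R.map_div hW' (pow_ne_zero _ hy0), R.map_pow, h2, h3, mul_zero, sub_zero]
  · intro R hRg hRv h hP
    have hF := hP.finPl
    have h1 := pow_dvd_Fpol dat hW' T hT hP.irr hF
    have hwI : wI D A y (Wr D (Fin.cons y t)) R = R.v (Wr D (Fin.cons y t)) := by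
      rw [wI, if_pos ⟨hRg, hRv⟩]
    obtain ⟨q, hq⟩ := h1
    have hF0 := Fpol_ne_zero (D := D) (A := A) y t T
    have hh0 : MvPolynomial.aeval (crd y t) h ≠ (0 : K) := fun h2 =>
      hP.irr.ne_zero (hl (h2.trans (map_zero _).symm))
    have hq0 : MvPolynomial.aeval (crd y t) q ≠ (0 : K) := fun h2 => by
      have h3 : q = 0 := hl (h2.trans (map_zero _).symm)
      rw [h3, mul_zero] at hq
      exact hF0 hq
    rw [hq, map_mul, map_pow, R.mul _ _ (pow_ne_zero _ hh0) hq0, R.map_pow, hwI]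
    have h3 : 0 ≤ R.v (MvPolynomial.aeval (crd y t) q) := by
      rw [← PF.Pl.mem_vs']
      exact hF.1 q
    have h4 : 1 ≤ R.v (MvPolynomial.aeval (crd y t) h) := by
      have h5 : R.vs.valuation (MvPolynomial.aeval (crd y t) h) < 1 := (hP.iff h).2 dvd_rfl
      have h6 := (PF.Pl.val_lt_one_iff hh0).1 h5
      omega
    have h5 : R.v (Wr D (Fin.cons y t)) ≤ (((R.v (Wr D (Fin.cons y t))).toNat : ℕ) : ℤ) :=
      Int.self_le_toNat _
    have h6 : (0 : ℤ) ≤ (((R.v (Wr D (Fin.cons y t))).toNat : ℕ) : ℤ) := Int.natCast_nonneg _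
    nlinarith

/-- **Row DF'**. -/
theorem exists_F' [IsAlgClosed k] (dat : Dat D z A) {x : K} {t : Fin (n + 1) → K}
    (hW : Wr D (Fin.cons x t) ≠ 0) (hx : x ∈ A) (ht : ∀ j, t j ∈ A) :
    ∃ G : MvPolynomial (Fin (n + 1)) k, G ≠ 0 ∧ ∀ a : Fin (n + 1) → k, eval a G ≠ 0 →
      ∃ F : MvPolynomial (Fin (n + 1)) k, F ≠ 0 ∧
        (∀ η c : Fin (n + 1) → k, eval c F ≠ 0 →
          Th D A (tl x t a) (tr (tl x t a) t η) + TG1.ordAt η F ≤
            Th D A (tl x t a) (tr (tl x t a) t c)) ∧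
        (∀ P : ValuationSubring K, Ov k P → ∀ h : MvPolynomial (Fin (n + 1)) k,
          OverP (crd (tl x t a) t) P h →
          UnitAt P (aeval (crd (tl x t a) t) F) → Good D A P ∧ UnitAt P (tl x t a) ∧
            UnitAt P (Wr D (Fin.cons x t) / tl x t a ^ (n + 2))) ∧
        (∀ P : PF.Pl k K, Good D A P.vs → P.v (tl x t a) = 0 →
          ∀ h : MvPolynomial (Fin (n + 1)) k,
          OverP (crd (tl x t a) t) P.vs h →
          P.v (Wr D (Fin.cons x t)) ≤ P.v (aeval (crd (tl x t a) t) F)) := by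
  classical
  have : Infinite k := IsAlgClosed.instInfinite
  obtain ⟨G, hG0, hG⟩ := exists_G_all dat hW hx ht
  refine ⟨G, hG0, fun a ha => ?_⟩
  have htl : ∀ a : Fin (n + 1) → k, tl x t a ∈ A := fun a =>
    A.add_mem hx (A.sum_mem fun i _ => A.smul_mem (ht i) _)
  obtain ⟨y, hy⟩ : ∃ y, y = tl x t a := ⟨_, rfl⟩
  have hWy : Wr D (Fin.cons y t) = Wr D (Fin.cons x t) := by rw [hy, Wr_tl]
  have hW' : Wr D (Fin.cons y t) ≠ 0 := by rw [hWy]; exact hW
  have hyA : y ∈ A := by rw [hy]; exact htl a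
  have hgen : ∀ η : Fin (n + 1) → k, ∀ R ∈ Sup D A y (tr y t η), R.v y = R.v (tr y t η 0) := by
    rw [hy]
    exact hG a ha
  rw [← hy, ← hWy]
  exact F_core dat hW' hyA ht hgen

end

end Pool.Agent.TG91
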