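import Pool.Agent.Lib.TG_h45.Bpf5

/-!
# TANK G, row C42-2 (C2), row RED: base point free tuples are reductions (helper45)
-/

set_option autoImplicit false

namespace Pool.Agent.TG91

open Pool.Agent.TG (Ov ZDim IsMin ch)

universe u

variable {k K : Type u} [Field k] [Field K] [Algebra k K]

theorem mul_sup_pow_le {x y z : Submodule k K} (n : ℕ) : ∀ w : Submodule k K,
    (∀ i j, i + j = n → w * (x ^ i * y ^ j) ≤ z) → w * (x ⊔ y) ^ n ≤ z := by
  induction n with
  | zero =>
    intro w h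
    have := h 0 0 rfl
    simpa using this
  | succ n ih =>
    intro w h
    have h1 : w * (x ⊔ y) ^ (n + 1) = (w * x) * (x ⊔ y) ^ n ⊔ (w * y) * (x ⊔ y) ^ n := by
      rw [pow_succ', ← mul_assoc, Submodule.mul_sup, Submodule.sup_mul]
    rw [h1]
    refine sup_le (ih _ fun i j hij => ?_) (ih _ fun i j hij => ?_)
    · refine le_trans (le_of_eq ?_) (h (i + 1) j (by omega))
      rw [pow_succ']; ring
    · refine le_trans (le_of_eq ?_) (h i (j + 1) (by omega))
      rw [pow_succ']; ring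

/-- combination of two reductions -/
theorem sup_pow_le_mul {x y T S : Submodule k K} (hx : x ≤ S) (hy : y ≤ S) {a b : ℕ}
    (ha : x ^ (a + 1) ≤ T * S ^ a) (hb : y ^ (b + 1) ≤ T * S ^ b) :
    (x ⊔ y) ^ (a + b + 1) ≤ T * S ^ (a + b) := by
  have h := mul_sup_pow_le (x := x) (y := y) (z := T * S ^ (a + b)) (a + b + 1) 1
    fun i j hij => ?_
  · rwa [one_mul] at h
  rw [one_mul]
  rcases Nat.lt_or_ge a i with hi | hi
  · obtain ⟨c, rfl⟩ : ∃ c, i = a + 1 + c := ⟨i - (a + 1), by omega⟩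
    have h2 : c + j = b := by omega
    calc x ^ (a + 1 + c) * y ^ j = x ^ (a + 1) * (x ^ c * y ^ j) := by rw [pow_add]; ring
      _ ≤ (T * S ^ a) * (S ^ c * S ^ j) :=
          mul_le_mul' ha (mul_le_mul' (pow_le_pow_left' hx _) (pow_le_pow_left' hy _))
      _ = T * S ^ (a + b) := by rw [← pow_add, h2, mul_assoc, ← pow_add]
  · obtain ⟨c, rfl⟩ : ∃ c, j = b + 1 + c := ⟨j - (b + 1), by omega⟩
    have h2 : c + i = a := by omega
    calc x ^ i * y ^ (b + 1 + c) = y ^ (b + 1) * (y ^ c * x ^ i) := by rw [pow_add]; ring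
      _ ≤ (T * S ^ b) * (S ^ c * S ^ i) :=
          mul_le_mul' hb (mul_le_mul' (pow_le_pow_left' hy _) (pow_le_pow_left' hx _))
      _ = T * S ^ (a + b) := by rw [← pow_add, h2, mul_assoc, ← pow_add, add_comm b a]

theorem exists_pow_mem_ch {T S : Submodule k K} (hT : T ≤ S) {s : K} (hs : s ∈ S) (hs0 : s ≠ 0)
    {a : K} (ha : a ∈ ch T s) : ∃ d : ℕ, a * s ^ d ∈ S ^ d := by
  induction ha using Algebra.adjoin_induction with
  | mem x hx =>
    obtain ⟨t, ht, rfl⟩ := hx
    refine ⟨1, ?_⟩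
    dsimp only
    rw [pow_one, pow_one, div_mul_cancel₀ _ hs0]
    exact hT ht
  | algebraMap r =>
    refine ⟨0, ?_⟩
    rw [pow_zero, pow_zero, mul_one, Submodule.one_eq_range]
    exact ⟨r, rfl⟩
  | add x y _ _ hx hy =>
    obtain ⟨c, hc⟩ := hx
    obtain ⟨d, hd⟩ := hy
    refine ⟨c + d, ?_⟩
    have h1 : (x + y) * s ^ (c + d) = (x * s ^ c) * s ^ d + (y * s ^ d) * s ^ c := by
      rw [pow_add]; ring
    rw [h1]
    refine Submodule.add_mem _ ?_ ?_
    · rw [pow_add]
      exact Submodule.mul_mem_mul hc (Submodule.pow_mem_pow _ hs _)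
    · rw [add_comm, pow_add]
      exact Submodule.mul_mem_mul hd (Submodule.pow_mem_pow _ hs _)
  | mul x y _ _ hx hy =>
    obtain ⟨c, hc⟩ := hx
    obtain ⟨d, hd⟩ := hy
    refine ⟨c + d, ?_⟩
    have h1 : (x * y) * s ^ (c + d) = (x * s ^ c) * (y * s ^ d) := by
      rw [pow_add]; ring
    rw [h1, pow_add]
    exact Submodule.mul_mem_mul hc hd

/-- An element of `S` is integral over the base point free subspace. -/
theorem exists_pow_mem {T S : Submodule k K} (hT : T ≤ S)
    (hb : ∀ V : ValuationSubring K, Ov k V → ∃ t ∈ T, IsMin V S t) {s : K} (hs : s ∈ S) :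
    ∃ d : ℕ, s ^ (d + 1) ∈ T * S ^ d := by
  rcases eq_or_ne s 0 with rfl | hs0
  · refine ⟨0, ?_⟩
    rw [zero_pow (Nat.succ_ne_zero 0)]
    exact Submodule.zero_mem _
  let A : Subring K := (ch T s).toSubring
  let I : Ideal A := Ideal.span {a | ∃ t ∈ T, (a : K) = t / s}
  have key : ∀ a ∈ I, ∃ d : ℕ, (a : K) * s ^ (d + 1) ∈ T * S ^ d := by
    intro a ha
    induction ha using Submodule.span_induction with
    | mem a ha =>
      obtain ⟨t, ht, hat⟩ := ha
      refine ⟨0, ?_⟩
      rw [hat, zero_add, pow_one, div_mul_cancel₀ _ hs0, pow_zero, mul_one]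
      exact ht
    | zero => exact ⟨0, by rw [ZeroMemClass.coe_zero, zero_mul]; exact Submodule.zero_mem _⟩
    | add a b _ _ ha hb =>
      obtain ⟨c, hc⟩ := ha
      obtain ⟨d, hd⟩ := hb
      refine ⟨c + d, ?_⟩
      have h1 : ((a + b : A) : K) * s ^ (c + d + 1) =
          ((a : K) * s ^ (c + 1)) * s ^ d + ((b : K) * s ^ (d + 1)) * s ^ c := by
        rw [Subring.coe_add]
        ring
      rw [h1]
      refine Submodule.add_mem _ ?_ ?_
      · rw [pow_add, ← mul_assoc]
        exact Submodule.mul_mem_mul hc (Submodule.pow_mem_pow _ hs _)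
      · rw [add_comm c d, pow_add, ← mul_assoc]
        exact Submodule.mul_mem_mul hd (Submodule.pow_mem_pow _ hs _)
    | smul a b _ hb =>
      obtain ⟨d, hd⟩ := hb
      obtain ⟨c, hc⟩ := exists_pow_mem_ch (k := k) hT hs hs0 a.2
      refine ⟨c + d, ?_⟩
      have h1 : ((a • b : A) : K) * s ^ (c + d + 1) =
          ((b : K) * s ^ (d + 1)) * ((a : K) * s ^ c) := by
        rw [smul_eq_mul, Subring.coe_mul]
        ring
      rw [h1, add_comm c d, pow_add, ← mul_assoc]
      exact Submodule.mul_mem_mul hd hc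
  have hI : I = ⊤ := by
    by_contra hI
    obtain ⟨V, hAV, hIV⟩ := Ideal.image_subset_nonunits_valuationSubring I hI
    have hV : Ov k V := fun c => hAV ((ch T s).algebraMap_mem c)
    obtain ⟨t, ht, hmin⟩ := hb V hV
    have h1 : t / s ∈ V.nonunits := by
      refine hIV ⟨⟨t / s, TG.div_mem_ch ht⟩, Ideal.subset_span ⟨t, ht, rfl⟩, rfl⟩
    rw [ValuationSubring.mem_nonunits_iff] at h1
    have h2 := (V.valuation_le_one_iff _).2 (hmin.div s hs)
    have h3 : V.valuation (t / s) * V.valuation (s / t) = 1 := by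
      rw [← map_mul, div_mul_div_cancel₀ hs0, div_self hmin.ne, map_one]
    have h4 : V.valuation (t / s) * V.valuation (s / t) < 1 :=
      mul_lt_one_of_lt_of_le h1 h2
    rw [h3] at h4
    exact lt_irrefl _ h4
  obtain ⟨d, hd⟩ := key 1 (by rw [hI]; exact Submodule.mem_top)
  refine ⟨d, ?_⟩
  rw [Subring.coe_one, one_mul] at hd
  exact hd

/-- A base point free subspace is a reduction. -/
theorem red_of_bpf' {T S : Submodule k K} (hS : S.FG) (hT : T ≤ S)
    (hb : ∀ V : ValuationSubring K, Ov k V → ∃ t ∈ T, IsMin V S t) :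
    ∃ e : ℕ, S ^ (e + 1) ≤ T * S ^ e := by
  classical
  obtain ⟨B, hB⟩ := hS
  have hBS : ∀ b ∈ B, b ∈ S := fun b hb => by rw [← hB]; exact Submodule.subset_span hb
  have key : ∀ C : Finset K, C ⊆ B → ∃ e : ℕ,
      Submodule.span k (C : Set K) ^ (e + 1) ≤ T * S ^ e := by
    intro C
    induction C using Finset.induction_on with
    | empty =>
      intro _
      refine ⟨0, ?_⟩
      rw [Finset.coe_empty, Submodule.span_empty, zero_add, pow_one]
      exact bot_le
    | insert b C _ ih =>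
      intro hC
      have hbB : b ∈ B := hC (Finset.mem_insert_self _ _)
      obtain ⟨e, he⟩ := ih fun c hc => hC (Finset.mem_insert_of_mem hc)
      obtain ⟨d, hd⟩ := exists_pow_mem hT hb (hBS b hbB)
      refine ⟨d + e, ?_⟩
      rw [Finset.coe_insert, Submodule.span_insert]
      refine sup_pow_le_mul ?_ ?_ ?_ he
      · rw [Submodule.span_le, Set.singleton_subset_iff]
        exact hBS b hbB
      · rw [Submodule.span_le]
        intro c hc
        exact hBS c (hC (Finset.mem_insert_of_mem hc))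
      · rw [Submodule.span_pow, Set.singleton_pow, Submodule.span_le, Set.singleton_subset_iff]
        exact hd
  obtain ⟨e, he⟩ := key B subset_rfl
  rw [hB] at he
  exact ⟨e, he⟩

/-- **Row RED.** -/
theorem red_of_bpf {S : Submodule k K} (hS : S.FG) {r : ℕ} {f : Fin (r + 1) → K}
    (hf : ∀ i, f i ∈ S) (hb : ∀ V : ValuationSubring K, Ov k V → ∃ i, IsMin V S (f i)) :
    ∃ e : ℕ, S ^ (e + 1) ≤ Submodule.span k (Set.range f) * S ^ e := by
  refine red_of_bpf' hS ?_ fun V hV => ?_
  · rw [Submodule.span_le]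
    rintro _ ⟨i, rfl⟩
    exact hf i
  · obtain ⟨i, hi⟩ := hb V hV
    exact ⟨f i, Submodule.subset_span ⟨i, rfl⟩, hi⟩

end Pool.Agent.TG91
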