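import Pool.Agent.Lib.TG91.Nice
import Pool.Agent.Lib.TG91.Red
import Pool.Agent.Lib.TG_h45.RedX
import Pool.Agent.Lib.TG1.Good

/-!
# TANK G, row C42-2 (C2), row GEN: generic tuples have minimal Wronskian at all marked places
-/

set_option autoImplicit false

namespace Pool.Agent.TG91

open MvPolynomial
open Pool.Agent.TG (Ov ZDim IsMin)
open Pool.Agent.TGh33 (Wr WrM DB)
open Pool.Agent.TG1

universe u

variable {k K : Type u} [Field k] [Field K] [Algebra k K]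

section

variable {n : ℕ} {D : Fin (n + 1) → Derivation k K K} {z : Fin (n + 1) → K} {A : Subalgebra k K}

/-- The tuple with coefficients `c`. -/
def cf {m h : ℕ} (e : Fin h → K) (c : Fin m × Fin h → k) : Fin m → K :=
  fun i => ∑ j, c (i, j) • e j

theorem cons_cx_ct {h : ℕ} (e : Fin h → K) (c : Fin (n + 2) × Fin h → k) :
    (Fin.cons (cx e c) (ct e c) : Fin (n + 2) → K) = cf e c := by
  funext i
  refine Fin.cases ?_ (fun i => ?_) i
  · rfl
  · rfl

theorem Wr_cf {m h : ℕ} {D : Fin m → Derivation k K K} (e : Fin h → K)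
    (c : Fin (m + 1) × Fin h → k) :
    Wr D (cf e c) = ∑ r : Fin (m + 1) → Fin h, (∏ i, c (i, r i)) • Wr D fun i => e (r i) := by
  classical
  rw [← TGh33.WrM_apply]
  have h1 : cf e c = fun i => ∑ j, c (i, j) • e j := rfl
  rw [h1, (WrM D).map_sum]
  refine Finset.sum_congr rfl fun r _ => ?_
  rw [(WrM D).map_smul_univ (fun i => c (i, r i)) (fun i => e (r i)), TGh33.WrM_apply]

theorem exists_coeff {h : ℕ} {e : Fin h → K} {S : Submodule k K}
    (he : Submodule.span k (Set.range e) = S) {m : ℕ} {f : Fin m → K} (hf : ∀ i, f i ∈ S) :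
    ∃ c : Fin m × Fin h → k, cf e c = f := by
  have h1 : ∀ i, ∃ c : Fin h → k, ∑ j, c j • e j = f i := by
    intro i
    have := hf i
    rw [← he] at this
    exact (Submodule.mem_span_range_iff_exists_fun k).1 this
  choose c hc using h1
  exact ⟨fun x => c x.1 x.2, funext hc⟩

/-- The Wronskian of a generic tuple is not in a given subspace. -/
theorem exists_poly_notMem {m h : ℕ} {D : Fin m → Derivation k K K} (e : Fin h → K)
    (B : Submodule k K) (c₀ : Fin (m + 1) × Fin h → k) (h0 : Wr D (cf e c₀) ∉ B) :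
    ∃ Φ : MvPolynomial (Fin (m + 1) × Fin h) k, eval c₀ Φ ≠ 0 ∧
      ∀ c, eval c Φ ≠ 0 → Wr D (cf e c) ∉ B := by
  classical
  obtain ⟨φ, hφ⟩ : ∃ φ : Module.Dual k (K ⧸ B), φ (B.mkQ (Wr D (cf e c₀))) ≠ 0 :=
    Module.Projective.exists_dual_ne_zero k (by
      rw [Submodule.mkQ_apply, Ne, Submodule.Quotient.mk_eq_zero]
      exact h0)
  obtain ⟨Φ, hΦ⟩ : ∃ Φ : MvPolynomial (Fin (m + 1) × Fin h) k, Φ =
      ∑ r : Fin (m + 1) → Fin h, C (φ (B.mkQ (Wr D fun i => e (r i)))) * ∏ i, X (i, r i) :=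
    ⟨_, rfl⟩
  have heval : ∀ c, eval c Φ = φ (B.mkQ (Wr D (cf e c))) := by
    intro c
    rw [hΦ, Wr_cf, map_sum, map_sum, map_sum]
    refine Finset.sum_congr rfl fun r _ => ?_
    rw [map_mul, eval_C, map_prod, map_smul, map_smul, smul_eq_mul, mul_comm]
    congr 1
    exact Finset.prod_congr rfl fun i _ => eval_X _
  refine ⟨Φ, by rw [heval]; exact hφ, fun c hc hmem => hc ?_⟩
  rw [heval]
  have h1 : B.mkQ (Wr D (cf e c)) = 0 := by
    rw [Submodule.mkQ_apply, Submodule.Quotient.mk_eq_zero]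
    exact hmem
  rw [h1, map_zero]

/-- At one place, generic tuples have minimal Wronskian. -/
theorem exists_poly_min {κ : IntermediateField k K} (Q : PF.Pl κ K) {m h : ℕ}
    {D : Fin m → Derivation k K K} {e : Fin h → K} {S : Submodule k K}
    (he : Submodule.span k (Set.range e) = S) {f₀ : Fin (m + 1) → K} (hf₀ : ∀ i, f₀ i ∈ S)
    (hW₀ : Wr D f₀ ≠ 0) :
    ∃ Φ : MvPolynomial (Fin (m + 1) × Fin h) k, Φ ≠ 0 ∧ ∀ c, eval c Φ ≠ 0 →
      ∀ f : Fin (m + 1) → K, (∀ i, f i ∈ S) → Wr D f ≠ 0 → Q.v (Wr D (cf e c)) ≤ Q.v (Wr D f) := by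
  classical
  -- the monomial tuples with non-zero Wronskian
  set R : Finset (Fin (m + 1) → Fin h) :=
    Finset.univ.filter fun r => Wr D (fun i => e (r i)) ≠ 0 with hR
  have hRne : R.Nonempty := by
    obtain ⟨c, hc⟩ := exists_coeff he hf₀
    rw [← hc, Wr_cf] at hW₀
    obtain ⟨r, -, hr⟩ := Finset.exists_ne_zero_of_sum_ne_zero hW₀
    exact ⟨r, Finset.mem_filter.2 ⟨Finset.mem_univ _, right_ne_zero_of_smul hr⟩⟩
  obtain ⟨r₀, hr₀, hmin⟩ := R.exists_min_image (fun r => Q.v (Wr D fun i => e (r i))) hRne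
  set μ := Q.v (Wr D fun i => e (r₀ i)) with hμ
  have hge : ∀ c : Fin (m + 1) × Fin h → k, Q.Ge μ (Wr D (cf e c)) := by
    intro c
    rw [Wr_cf]
    refine PF.Pl.Ge.sum _ _ fun r _ => ?_
    by_cases hr : Wr D (fun i => e (r i)) = 0
    · rw [hr, smul_zero]; exact PF.Pl.Ge.zero
    have h1 : Q.Ge μ (Wr D fun i => e (r i)) := fun _ =>
      hmin r (Finset.mem_filter.2 ⟨Finset.mem_univ _, hr⟩)
    rw [Algebra.smul_def, IsScalarTower.algebraMap_apply k κ K]
    have h2 := PF.Pl.Ge.mul (PF.Pl.ge_algebraMap (P := Q)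
      (algebraMap k κ (∏ i, c (i, r i)))) h1
    rwa [zero_add] at h2
  -- the indicator
  let c₀ : Fin (m + 1) × Fin h → k := fun x => if x.2 = r₀ x.1 then 1 else 0
  have hc₀ : cf e c₀ = fun i => e (r₀ i) := by
    funext i
    change ∑ j, c₀ (i, j) • e j = e (r₀ i)
    rw [Finset.sum_eq_single (r₀ i)]
    · simp [c₀]
    · intro j _ hj
      simp [c₀, hj]
    · intro h; exact absurd (Finset.mem_univ _) h
  have hr₀' : Wr D (fun i => e (r₀ i)) ≠ 0 := (Finset.mem_filter.1 hr₀).2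
  obtain ⟨Φ, hΦ0, hΦ⟩ := exists_poly_notMem (D := D) e ((Q.L (μ + 1)).restrictScalars k) c₀ (by
    rw [hc₀]
    intro h1
    have h2 : Q.Ge (μ + 1) (Wr D fun i => e (r₀ i)) := h1
    have h3 := h2 hr₀'
    omega)
  refine ⟨Φ, by rintro rfl; exact hΦ0 (map_zero _), fun c hc f hf hWf => ?_⟩
  obtain ⟨c', hc'⟩ := exists_coeff he hf
  have h1 : μ ≤ Q.v (Wr D f) := by
    have := hge c'
    rw [hc'] at this
    exact this hWf
  have h2 : ¬ Q.Ge (μ + 1) (Wr D (cf e c)) := hΦ c hc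
  have h3 : Q.v (Wr D (cf e c)) < μ + 1 := by
    by_contra h4
    exact h2 fun _ => not_lt.1 h4
  omega

/-- Generic tuples are base point free. -/
theorem exists_poly_bpf {S : Submodule k K} {h : ℕ} {e : Fin h → K}
    (he : Submodule.span k (Set.range e) = S) (hS0 : S ≠ ⊥) {m : ℕ} {f₀ : Fin (m + 1) → K}
    (hf₀ : ∀ i, f₀ i ∈ S) (hb : ∀ V : ValuationSubring K, Ov k V → ∃ i, IsMin V S (f₀ i)) :
    ∃ Φ : MvPolynomial (Fin (m + 1) × Fin h) k, Φ ≠ 0 ∧ ∀ c, eval c Φ ≠ 0 →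
      ∀ V : ValuationSubring K, Ov k V → ∃ i, IsMin V S (cf e c i) := by
  classical
  have hS : S.FG := by
    rw [← he]
    exact Submodule.fg_span (Set.finite_range e)
  obtain ⟨N, hN⟩ := red_of_bpf hS hf₀ hb
  have hSN : (S ^ N).FG := hS.pow N
  have hSN1 : (S ^ (N + 1)).FG := hS.pow (N + 1)
  have i1 : Module.Finite k (S ^ (N + 1) : Submodule k K) := Module.Finite.iff_fg.2 hSN1
  obtain ⟨M, g, hg⟩ : ∃ (M : ℕ) (g : Fin M → K), Submodule.span k (Set.range g) = S ^ N :=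
    Submodule.fg_iff_exists_fin_generating_family.1 hSN
  obtain ⟨c₀, hc₀⟩ := exists_coeff he hf₀
  have hmem : ∀ (j : Fin h) (b : Fin M), e j * g b ∈ S ^ (N + 1) := by
    intro j b
    rw [pow_succ']
    refine Submodule.mul_mem_mul ?_ ?_
    · rw [← he]; exact Submodule.subset_span ⟨j, rfl⟩
    · rw [← hg]; exact Submodule.subset_span ⟨b, rfl⟩
  let u : Fin h → Fin M → (S ^ (N + 1) : Submodule k K) := fun j b => ⟨e j * g b, hmem j b⟩
  have hu : ∀ (c : Fin (m + 1) × Fin h → k) (x : Fin (m + 1) × Fin M),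
      ((∑ j, c (x.1, j) • u j x.2 : (S ^ (N + 1) : Submodule k K)) : K) =
        cf e c x.1 * g x.2 := by
    intro c x
    rw [Submodule.coe_sum]
    change ∑ j, c (x.1, j) • (e j * g x.2) = (∑ j, c (x.1, j) • e j) * g x.2
    rw [Finset.sum_mul]
    exact Finset.sum_congr rfl fun j _ => (smul_mul_assoc _ _ _).symm
  have hspan : ∀ c : Fin (m + 1) × Fin h → k,
      Submodule.map (S ^ (N + 1) : Submodule k K).subtype (Submodule.span k
        (Set.range fun x : Fin (m + 1) × Fin M => ∑ j, c (x.1, j) • u j x.2)) =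
      Submodule.span k (Set.range (cf e c)) * S ^ N := by
    intro c
    rw [Submodule.map_span, ← hg, Submodule.span_mul_span]
    congr 1
    ext y
    constructor
    · rintro ⟨_, ⟨x, rfl⟩, rfl⟩
      rw [Submodule.subtype_apply, hu]
      exact Set.mul_mem_mul ⟨x.1, rfl⟩ ⟨x.2, rfl⟩
    · rintro ⟨_, ⟨i, rfl⟩, _, ⟨b, rfl⟩, rfl⟩
      refine ⟨_, ⟨(i, b), rfl⟩, ?_⟩
      rw [Submodule.subtype_apply, hu]
  have htop : ∀ c : Fin (m + 1) × Fin h → k, Submodule.span k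
      (Set.range fun x : Fin (m + 1) × Fin M => ∑ j, c (x.1, j) • u j x.2) = ⊤ ↔
      S ^ (N + 1) ≤ Submodule.span k (Set.range (cf e c)) * S ^ N := by
    intro c
    rw [← hspan c]
    constructor
    · intro h1
      rw [h1, Submodule.map_top, Submodule.range_subtype]
    · intro h1
      rw [eq_top_iff]
      rintro ⟨y, hy⟩ -
      obtain ⟨y', hy', hyy⟩ := h1 hy
      have : y' = ⟨y, hy⟩ := Subtype.ext hyy
      rwa [← this]
  obtain ⟨Φ, hΦ0, hΦ⟩ := Pool.Agent.TGX45.exists_poly_span u c₀ ((htop c₀).2 (by rw [hc₀]; exact hN))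
  refine ⟨Φ, by rintro rfl; exact hΦ0 (map_zero _), fun c hc => ?_⟩
  have hred := (htop c).1 (hΦ c hc)
  have hcfS : ∀ i, cf e c i ∈ S := fun i => Submodule.sum_mem _ fun j _ =>
    S.smul_mem _ (by rw [← he]; exact Submodule.subset_span ⟨j, rfl⟩)
  have hle : Submodule.span k (Set.range (cf e c)) ≤ S := by
    rw [Submodule.span_le]
    rintro _ ⟨i, rfl⟩
    exact hcfS i
  have hSm : TG.IsModel S := ⟨hS, hS0⟩
  have hTm : TG.IsModel (Submodule.span k (Set.range (cf e c))) := by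
    refine ⟨Submodule.fg_span (Set.finite_range _), fun h1 => ?_⟩
    rw [h1, Submodule.bot_mul, le_bot_iff] at hred
    exact (hSm.pow (N + 1)).ne hred
  have hB : TG.Bpf S (Submodule.span k (Set.range (cf e c))) :=
    TG.Red.bpf (r := N) ⟨hle, hred⟩ hSm hTm
  exact (TG.bpfT_iff.2 hB).2

/-- The tuple `(x, t - η x)` is base point free if `(x, t)` is. -/
theorem bpf_tr {S : Submodule k K} {x : K} {t : Fin (n + 1) → K} (hx : x ∈ S)
    (ht : ∀ j, t j ∈ S) (hb : Bpf S x t) (η : Fin (n + 1) → k) : Bpf S x (tr x t η) := by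
  intro V hV
  by_cases hx1 : IsMin V S x
  · exact Or.inl hx1
  rcases hb V hV with h1 | ⟨j, h1⟩
  · exact absurd h1 hx1
  right
  refine ⟨j, h1.of_unit (S.sub_mem (ht j) (S.smul_mem _ hx)) ?_⟩
  have h2 := h1.val_lt hx hx1
  have h3 : tr x t η j / t j = 1 + -(algebraMap k K (η j) * (x / t j)) := by
    unfold tr
    rw [sub_div, div_self h1.ne, Algebra.smul_def, mul_div_assoc]
    ring
  have h4 : V.valuation (-(algebraMap k K (η j) * (x / t j))) < 1 := by
    rw [Valuation.map_neg, map_mul]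
    exact (mul_le_of_le_one_left zero_le ((V.valuation_le_one_iff _).2 (hV _))).trans_lt h2
  rw [h3, V.valuation.map_add_eq_of_lt_left (by rw [map_one]; exact h4), map_one]

theorem adm_tr {S : Submodule k K} {x : K} {t : Fin (n + 1) → K} (h : Adm D S x t)
    (η : Fin (n + 1) → k) : Adm D S x (tr x t η) :=
  ⟨h.x_mem, fun j => S.sub_mem (h.t_mem j) (S.smul_mem _ h.x_mem), by rw [Wr_tr]; exact h.ne⟩

/-- Row GEN, from row TRF. -/
theorem exists_gen_of [IsAlgClosed k] (dat : Dat D z A) {S : Submodule k K}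
    (hSA : ∀ a ∈ S, a ∈ A) {h : ℕ} (e : Fin h → K) (he : Submodule.span k (Set.range e) = S)
    {x₀ : K} {t₀ : Fin (n + 1) → K} (h₀ : Adm D S x₀ t₀) (hb₀ : Bpf S x₀ t₀)
    (htrf : ∀ {x y : K} {t s : Fin (n + 1) → K}, Adm D S x t → Adm D S y s → Bpf S x t →
      Bpf S y s → Nc D A S y s → ∀ P : PL k t, P ∈ mk D A x t →
        ∃ Q : PL k s, Q ∈ mk D A y s ∧ Q.v = P.v) :
    ∃ Φ : MvPolynomial (Fin (n + 2) × Fin h) k, Φ ≠ 0 ∧ ∀ c, eval c Φ ≠ 0 →
      Adm D S (cx e c) (ct e c) ∧ Bpf S (cx e c) (ct e c) ∧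
      ∀ η : Fin (n + 1) → k, ∀ P ∈ mk D A (cx e c) (tr (cx e c) (ct e c) η),
        ∀ (a : K) (b : Fin (n + 1) → K), Adm D S a b →
          P.v (Wr D (Fin.cons (cx e c) (ct e c))) ≤ P.v (Wr D (Fin.cons a b)) := by
  classical
  have hS : S.FG := by
    rw [← he]
    exact Submodule.fg_span (Set.finite_range e)
  have hS0 : S ≠ ⊥ := by
    rintro rfl
    exact ffi_x h₀.ne ((Submodule.mem_bot k).1 h₀.x_mem)
  -- a nice tuple
  obtain ⟨G, hG, hGc⟩ := exists_nice dat hS hSA h₀ hb₀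
  obtain ⟨c₀, hc₀⟩ : ∃ c, eval c G ≠ 0 := by
    by_contra hcon
    push Not at hcon
    exact hG (MvPolynomial.funext fun c => (hcon c).trans (map_zero (MvPolynomial.eval c)).symm)
  have hnc := hGc c₀ hc₀
  have hs := adm_tr h₀ c₀
  have hbs := bpf_tr h₀.x_mem h₀.t_mem hb₀ c₀
  -- its marked places
  have hfin : (mk D A x₀ (tr x₀ t₀ c₀)).Finite :=
    (finite_gd_compl dat hs.ne fun j => hSA _ (hs.t_mem j)).subset fun P hP => hP.1
  have hf₀ : ∀ i, (Fin.cons x₀ t₀ : Fin (n + 2) → K) i ∈ S := fun i =>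
    Fin.cases h₀.x_mem h₀.t_mem i
  choose Ψ hΨ0 hΨ using fun Q : PL k (tr x₀ t₀ c₀) => exists_poly_min Q he hf₀ h₀.ne
  -- base point free
  obtain ⟨Φb, hΦb0, hΦb⟩ := exists_poly_bpf he hS0 hf₀ (fun V hV => by
    rcases hb₀ V hV with h1 | ⟨j, h1⟩
    · exact ⟨0, h1⟩
    · exact ⟨j.succ, h1⟩)
  -- non-zero Wronskian
  obtain ⟨c₁, hc₁⟩ := exists_coeff he hf₀
  obtain ⟨Φw, hΦw0, hΦw⟩ := exists_poly_notMem (D := D) e (⊥ : Submodule k K) c₁ (by
    rw [hc₁, Submodule.mem_bot]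
    exact h₀.ne)
  refine ⟨Φb * Φw * ∏ Q ∈ hfin.toFinset, Ψ Q, mul_ne_zero (mul_ne_zero hΦb0 (by
    rintro rfl
    exact hΦw0 (map_zero _))) (Finset.prod_ne_zero_iff.2 fun Q _ => hΨ0 Q), fun c hc => ?_⟩
  rw [map_mul, map_mul, map_prod] at hc
  have hcb := left_ne_zero_of_mul (left_ne_zero_of_mul hc)
  have hcw := right_ne_zero_of_mul (left_ne_zero_of_mul hc)
  have hcQ := Finset.prod_ne_zero_iff.1 (right_ne_zero_of_mul hc)
  have hmem : ∀ i, cf e c i ∈ S := fun i => Submodule.sum_mem _ fun j _ =>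
    S.smul_mem _ (by rw [← he]; exact Submodule.subset_span ⟨j, rfl⟩)
  have hcons := cons_cx_ct e c
  have hWc : Wr D (Fin.cons (cx e c) (ct e c)) ≠ 0 := by
    rw [hcons]
    intro h1
    exact hΦw c hcw (by rw [h1]; exact zero_mem _)
  have hadm : Adm D S (cx e c) (ct e c) := ⟨hmem 0, fun j => hmem j.succ, hWc⟩
  have hbpf : Bpf S (cx e c) (ct e c) := by
    intro V hV
    obtain ⟨i, hi⟩ := hΦb c hcb V hV
    revert hi
    refine Fin.cases (fun hi => Or.inl hi) (fun i hi => Or.inr ⟨i, hi⟩) i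
  refine ⟨hadm, hbpf, fun η P hP a b hab => ?_⟩
  obtain ⟨Q, hQ, hQv⟩ := htrf (adm_tr hadm η) hs
    (bpf_tr hadm.x_mem hadm.t_mem hbpf η) hbs hnc P hP
  rw [← hQv, hcons]
  exact hΨ Q c (hcQ Q (hfin.mem_toFinset.2 hQ)) _ (fun i => Fin.cases hab.x_mem hab.t_mem i) hab.ne

end

end Pool.Agent.TG91
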