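import Pool.Agent.Lib.TG91.Inv
import Pool.Agent.Lib.TG1.Fin

/-!
# TANK G, row C42-2 (C2), row INVK (helper45)
-/

set_option autoImplicit false

namespace Pool.Agent.TG91

open Pool.Agent.TG (Ov ZDim IsMin)
open Pool.Agent.TGh33 (Wr DB)
open Pool.Agent.TG1
open Pool.Agent.TGh62 (rf)
open Module

universe u

variable {k K : Type u} [Field k] [Field K] [Algebra k K]

variable {n : ℕ} {D : Fin (n + 1) → Derivation k K K} {z : Fin (n + 1) → K} {A : Subalgebra k K}

theorem rf_cons (x : K) (t : Fin (n + 1) → K) :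
    rf k (Fin.cons x t : Fin (n + 2) → K) = kq k x t := rfl

theorem alg_kq (dat : Dat D z A) {x : K} {t : Fin (n + 1) → K}
    (hW : Wr D (Fin.cons x t) ≠ 0) : Algebra.IsAlgebraic (rf k (Fin.cons x t : Fin (n + 2) → K)) K :=
  fin_alg dat hW

theorem indep_cons (dat : Dat D z A) {x : K} {t : Fin (n + 1) → K}
    (hW : Wr D (Fin.cons x t) ≠ 0) : AlgebraicIndependent k fun i : Fin (n + 1) =>
      (Fin.cons x t : Fin (n + 2) → K) i.succ / (Fin.cons x t : Fin (n + 2) → K) 0 :=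
  TGh62.algebraicIndependent_of (g := (Fin.cons x t : Fin (n + 2) → K)) (alg_kq dat hW)
    (by rw [dat.trd]; norm_cast)

theorem finite_cons (dat : Dat D z A) {x : K} {t : Fin (n + 1) → K}
    (hW : Wr D (Fin.cons x t) ≠ 0) :
    FiniteDimensional (rf k (Fin.cons x t : Fin (n + 2) → K)) K :=
  finite_of_fg_alg dat.fgK _ (alg_kq dat hW)

theorem cons_mem {S : Submodule k K} {x : K} {t : Fin (n + 1) → K} (h : Adm D S x t)
    (i : Fin (n + 2)) : (Fin.cons x t : Fin (n + 2) → K) i ∈ S := by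
  refine Fin.cases ?_ (fun i => ?_) i
  · exact h.x_mem
  · exact h.t_mem i

theorem cons_bpf {S : Submodule k K} {x : K} {t : Fin (n + 1) → K} (hb : Bpf S x t)
    (V : ValuationSubring K) (hV : Ov k V) :
    ∃ i, IsMin V S ((Fin.cons x t : Fin (n + 2) → K) i) := by
  rcases hb V hV with h | ⟨j, h⟩
  · exact ⟨0, h⟩
  · exact ⟨j.succ, h⟩

theorem cons_zero_ne {x : K} {t : Fin (n + 1) → K} (hW : Wr D (Fin.cons x t) ≠ 0) :
    (Fin.cons x t : Fin (n + 2) → K) 0 ≠ 0 := fin_ne_zero hW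

theorem dg_eq_rf (x : K) (t : Fin (n + 1) → K) :
    dg k x t = finrank (rf k (Fin.cons x t : Fin (n + 2) → K)) K := rfl

theorem inv_deg_cons [Infinite k] {S : Submodule k K} (hS : S.FG) {f g : Fin (n + 2) → K}
    (hf : ∀ i, f i ∈ S) (hfb : ∀ V : ValuationSubring K, Ov k V → ∃ i, IsMin V S (f i))
    (hg : ∀ i, g i ∈ S) (hgb : ∀ V : ValuationSubring K, Ov k V → ∃ i, IsMin V S (g i))
    (hf0 : f 0 ≠ 0) (hg0 : g 0 ≠ 0)
    (hfi : AlgebraicIndependent k fun i : Fin (n + 1) => f i.succ / f 0)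
    (hgi : AlgebraicIndependent k fun i : Fin (n + 1) => g i.succ / g 0)
    (h1 : FiniteDimensional (rf k f) K) (h2 : FiniteDimensional (rf k g) K) :
    Module.finrank (rf k f) K = Module.finrank (rf k g) K :=
  inv_deg hS hf hfb hg hgb hf0 hg0 hfi hgi

/-- **Row INVK.** -/
theorem dg_eq_of_bpf [IsAlgClosed k] (dat : Dat D z A) {S : Submodule k K} (hS : S.FG)
    {x y : K} {t s : Fin (n + 1) → K} (h : Adm D S x t) (h' : Adm D S y s) (hb : Bpf S x t)
    (hb' : Bpf S y s) : dg k x t = dg k y s := by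
  have : Infinite k := IsAlgClosed.instInfinite
  rw [dg_eq_rf, dg_eq_rf]
  have hx0 := cons_zero_ne h.ne
  have hy0 := cons_zero_ne h'.ne
  have h1 := finite_cons dat h.ne
  have h2 := finite_cons dat h'.ne
  have h3 := indep_cons dat h.ne
  have h4 := indep_cons dat h'.ne
  have h5 := cons_mem h
  have h6 := cons_mem h'
  have h7 := cons_bpf hb
  have h8 := cons_bpf hb'
  generalize (Fin.cons x t : Fin (n + 2) → K) = f at *
  generalize (Fin.cons y s : Fin (n + 2) → K) = g at *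
  exact inv_deg_cons hS h5 h7 h6 h8 hx0 hy0 h3 h4 h1 h2

end Pool.Agent.TG91
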