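import Pool.Agent.Lib.TG91.Defs
import Pool.Agent.Lib.TG1.Fin
import Pool.Agent.Lib.TG1.Step
import Pool.Agent.Lib.TG1.TL
import Pool.Agent.Lib.TG_h71.Gen

/-!
# TANK G, row C42-2, MU: the drop of the degree (helper4)
-/

set_option autoImplicit false

namespace Pool.Agent.TG91

open MvPolynomial
open Pool.Agent.TG (Ov ZDim IsMin)
open Pool.Agent.TGh33 (Wr DB)
open Pool.Agent.TGh71 (exists_avoid)
open Pool.Agent.TG1

universe u

variable {k K : Type u} [Field k] [Field K] [Algebra k K]

/-- Over a point, the elements of `S` have finitely many reductions modulo `x₀`. -/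
theorem exists_hyps [IsAlgClosed k] {m : ℕ} {S : Submodule k K} [Module.Finite k S] {x₀ : K}
    (h0 : x₀ ≠ 0) (w : Fin m → K) (G : MvPolynomial (Fin m) k)
    (hG : ∀ j, ∃ Q : Polynomial (MvPolynomial (Fin m) k), Q.Monic ∧
      Q.eval₂ (aeval w : MvPolynomial (Fin m) k →ₐ[k] K).toRingHom
        (aeval w G * ((Module.finBasis k S j : K) / x₀)) = 0)
    (c : Fin m → k) (hc : eval c G ≠ 0) :
    ∃ HH : Set (Submodule k K), HH.Finite ∧ (∀ H ∈ HH, ¬ S ≤ H) ∧
      ∀ V : ValuationSubring K, Ov k V → IsMin V S x₀ →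
        (∀ i, V.valuation (w i - algebraMap k K (c i)) < 1) →
        ∃ H ∈ HH, ∀ f ∈ S, f ∉ H → IsMin V S f := by
  classical
  obtain ⟨b, hb⟩ : ∃ b, b = Module.finBasis k S := ⟨_, rfl⟩
  rw [← hb] at hG
  choose Q hQm hQ using hG
  let R : Fin (Module.finrank k S) → Finset k := fun j =>
    ((Q j).map (eval c)).roots.toFinset.image fun r => r / eval c G
  let z : (Fin (Module.finrank k S) → k) → (S →ₗ[k] k) := fun r => b.constr k r
  let H : (Fin (Module.finrank k S) → k) → Submodule k K := fun r =>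
    (LinearMap.ker (z r)).map S.subtype
  let HH : Finset (Submodule k K) := ((Fintype.piFinset R).filter fun r => z r ≠ 0).image H
  refine ⟨HH, Finset.finite_toSet _, ?_, ?_⟩
  · intro A hA hSA
    rw [Finset.mem_coe, Finset.mem_image] at hA
    obtain ⟨r, hr, rfl⟩ := hA
    rw [Finset.mem_filter] at hr
    refine hr.2 (LinearMap.ext fun x => ?_)
    obtain ⟨y, hy, hyx⟩ := hSA x.2
    have : y = x := Subtype.ext hyx
    rw [← this]
    exact hy
  · intro V hV hf0 hx
    have hxV : ∀ i : Fin m, w i ∈ V := by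
      intro i
      have h1 : w i = (w i - algebraMap k K (c i)) + algebraMap k K (c i) := by ring
      rw [h1]
      exact V.add_mem _ _ ((V.valuation_le_one_iff _).1 (hx i).le) (hV _)
    have hGV : aeval w G ∈ V := by
      have h1 : Algebra.adjoin k (Set.range w) ≤
          ({ V.toSubring with algebraMap_mem' := hV } : Subalgebra k K) := by
        refine Algebra.adjoin_le ?_
        rintro _ ⟨i, rfl⟩
        exact hxV i
      refine h1 ?_
      rw [Algebra.adjoin_range_eq_range_aeval]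
      exact ⟨G, rfl⟩
    have hGc : V.valuation (aeval w G - algebraMap k K (eval c G)) < 1 := by
      obtain ⟨r, hr, hr'⟩ := TG.exists_root (Q := Polynomial.X - Polynomial.C G) hV hx
        (Polynomial.monic_X_sub_C G) hGV (by simp)
      simp only [Polynomial.map_sub, Polynomial.map_X, Polynomial.map_C,
        Polynomial.roots_X_sub_C, Multiset.mem_singleton] at hr
      rwa [hr] at hr'
    have hres : ∀ j, ∃ r ∈ R j, V.valuation ((b j : K) / x₀ - algebraMap k K r) < 1 := by
      intro j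
      have hbV : (b j : K) / x₀ ∈ V := hf0.div _ (b j).2
      obtain ⟨r, hr, hr'⟩ := TG.exists_root hV hx (hQm j) (V.mul_mem _ _ hGV hbV) (hQ j)
      refine ⟨r / eval c G, Finset.mem_image.2 ⟨r, Multiset.mem_toFinset.2 hr, rfl⟩, ?_⟩
      have hcu := TG.val_const (V := V) hV hc
      have h1 : V.valuation (algebraMap k K (eval c G) * ((b j : K) / x₀) -
          algebraMap k K r) < 1 := by
        have h2 : algebraMap k K (eval c G) * ((b j : K) / x₀) - algebraMap k K r =
            (aeval w G * ((b j : K) / x₀) - algebraMap k K r) -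
            (aeval w G - algebraMap k K (eval c G)) * ((b j : K) / x₀) := by ring
        rw [h2]
        refine (Valuation.map_sub _ _ _).trans_lt (max_lt hr' ?_)
        rw [map_mul]
        exact mul_lt_one_of_lt_of_le hGc ((V.valuation_le_one_iff _).2 hbV)
      have h3 : (b j : K) / x₀ - algebraMap k K (r / eval c G) =
          (algebraMap k K (eval c G) * ((b j : K) / x₀) - algebraMap k K r) /
            algebraMap k K (eval c G) := by
        have hne : algebraMap k K (eval c G) ≠ 0 :=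
          (map_ne_zero_iff _ (algebraMap k K).injective).2 hc
        rw [map_div₀]
        field_simp
      rw [h3, map_div₀, hcu, div_one]
      exact h1
    choose r hrR hr using hres
    have hz : ∀ f : S, V.valuation ((f : K) / x₀ - algebraMap k K (z r f)) < 1 := by
      intro f
      have h1 : (f : K) = ∑ j, b.repr f j • (b j : K) := by
        have h := congrArg Subtype.val (b.sum_repr f)
        rw [Submodule.coe_sum] at h
        exact h.symm
      have h2 : z r f = ∑ j, b.repr f j * r j := by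
        simp only [z, Module.Basis.constr_apply_fintype, Module.Basis.equivFun_apply, smul_eq_mul]
      have h3 : (f : K) / x₀ - algebraMap k K (z r f) =
          ∑ j, algebraMap k K (b.repr f j) * ((b j : K) / x₀ - algebraMap k K (r j)) := by
        rw [h2, h1, Finset.sum_div, map_sum, ← Finset.sum_sub_distrib]
        refine Finset.sum_congr rfl fun j _ => ?_
        rw [Algebra.smul_def, map_mul]
        ring
      rw [h3]
      refine TG.val_sum_lt _ _ fun j _ => ?_
      rw [map_mul]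
      exact mul_lt_one_of_nonneg_of_lt_one_right ((V.valuation_le_one_iff _).2 (hV _))
        zero_le (hr j)
    have hzne : z r ≠ 0 := by
      intro hz0
      have h1 := hz ⟨x₀, hf0.mem⟩
      rw [hz0, LinearMap.zero_apply, map_zero, sub_zero, div_self h0, map_one] at h1
      exact lt_irrefl _ h1
    refine ⟨H r, Finset.mem_coe.2 (Finset.mem_image_of_mem _
      (Finset.mem_filter.2 ⟨Fintype.mem_piFinset.2 hrR, hzne⟩)), fun f hf hfH => ?_⟩
    have hzf : z r ⟨f, hf⟩ ≠ 0 := fun h1 => hfH ⟨⟨f, hf⟩, h1, rfl⟩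
    refine hf0.of_unit hf ?_
    have h1 := hz ⟨f, hf⟩
    have h2 := TG.val_const (V := V) hV hzf
    have h3 : f / x₀ = (f / x₀ - algebraMap k K (z r ⟨f, hf⟩)) +
      algebraMap k K (z r ⟨f, hf⟩) := by ring
    rw [h3, Valuation.map_add_eq_of_lt_right, h2]
    rwa [h2]

/-- Elements of `S` are integral over `k[t_i / x]` modulo `x` if `(x, t)` is base point free. -/
theorem exists_int {m : ℕ} {S : Submodule k K} {x : K} {t : Fin m → K} (hx0 : x ≠ 0)
    (hBT : TG.BpfT S (Fin.cons x t : Fin (m + 1) → K)) {s : K} (hs : s ∈ S) :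
    ∃ Q : Polynomial (MvPolynomial (Fin m) k), Q.Monic ∧
      Q.eval₂ (aeval (fun i => t i / x) : MvPolynomial (Fin m) k →ₐ[k] K).toRingHom
        (s / x) = 0 := by
  have h1 := (TG.bpfT_iff.1 hBT).div_mem_ncl (f := x)
    (Submodule.subset_span ⟨0, by rw [Fin.cons_zero]⟩) hx0 hs
  have hle : TG.ch (Submodule.span k (Set.range (Fin.cons x t : Fin (m + 1) → K))) x ≤
      (aeval (fun i => t i / x) : MvPolynomial (Fin m) k →ₐ[k] K).range := by
    rw [TG.ch_le_iff]
    intro g hg
    obtain ⟨c, rfl⟩ := (Submodule.mem_span_range_iff_exists_fun k).1 hg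
    rw [Finset.sum_div]
    refine sum_mem fun i _ => ?_
    rw [smul_div_assoc]
    refine Subalgebra.smul_mem _ ?_ _
    refine Fin.cases ?_ (fun i => ?_) i
    · rw [Fin.cons_zero, div_self hx0]
      exact one_mem _
    · rw [Fin.cons_succ]
      exact ⟨X i, by simp⟩
  obtain ⟨p, hp, hpc, hp0⟩ := TG.exists_poly_of_mem_ncl h1
  have hlift : p ∈ Polynomial.lifts
      (aeval (fun i => t i / x) : MvPolynomial (Fin m) k →ₐ[k] K).toRingHom := by
    rw [Polynomial.lifts_iff_coeff_lifts]
    intro i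
    obtain ⟨q, hq⟩ := hle (hpc i)
    exact ⟨q, hq⟩
  obtain ⟨Q, hQ, -, hQm⟩ := Polynomial.lifts_and_natDegree_eq_and_monic hlift hp
  refine ⟨Q, hQm, ?_⟩
  rw [← Polynomial.eval_map, hQ]
  exact hp0

variable {n : ℕ} {D : Fin (n + 1) → Derivation k K K} {z : Fin (n + 1) → K} {A : Subalgebra k K}

/-- **Row MU.** `S'` has finitely many base points (because `(x, t)` is base point free in `S` and
`t` is in `S'`), `(x₁, t₁)` is base point free in `S'`: the step for `S' ≤ S`. -/
theorem exists_step [IsAlgClosed k] (dat : Dat D z A) {S S' : Submodule k K} (hS : S.FG)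
    (hSA : ∀ a ∈ S, a ∈ A) (hS' : S' ≤ S) {x x₁ : K} {t t₁ : Fin (n + 1) → K}
    (h : Adm D S x t) (ht : ∀ j, t j ∈ S') (hb : Bpf S x t) (h₁ : Adm D S' x₁ t₁)
    (hb₁ : Bpf S' x₁ t₁) :
    ∃ G : MvPolynomial (Fin (n + 1)) k, G ≠ 0 ∧ ∀ c : Fin (n + 1) → k, eval c G ≠ 0 →
      ∃ y ∈ S, Adm D S y (tr x₁ t₁ c) ∧ Bpf S y (tr x₁ t₁ c) ∧
        Th D A x₁ (tr x₁ t₁ c) + ((dg k y (tr x₁ t₁ c) : ℤ) - dg k x₁ (tr x₁ t₁ c)) ≤
          Th D A y (tr x₁ t₁ c) := by
  classical
  have : Module.Finite k S := Module.Finite.iff_fg.2 hS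
  have hx0 := fin_ne_zero h.ne
  have hx10 := fin_ne_zero h₁.ne
  have hBT : TG.BpfT S (Fin.cons x t : Fin (n + 2) → K) := by
    refine ⟨fun i => ?_, fun V' hV' => ?_⟩
    · refine Fin.cases ?_ (fun i => ?_) i
      · exact h.x_mem
      · exact h.t_mem i
    · rcases hb V' hV' with h | ⟨j, h⟩
      · exact ⟨0, h⟩
      · exact ⟨j.succ, h⟩
  obtain ⟨FA, hFA, hFAS, hA⟩ := exists_hyps (S := S) hx0 (fun i => t i / x) 1 (fun j => by
    obtain ⟨Q, hQm, hQ⟩ := exists_int hx0 hBT (Module.finBasis k S j).2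
    refine ⟨Q, hQm, ?_⟩
    rw [map_one, one_mul]
    exact hQ) 0 (by rw [map_one]; exact one_ne_zero)
  obtain ⟨G, hG0, hG⟩ := TG.exists_int_mult (fun i : Fin (n + 1) => t₁ i / x₁)
    (fin_alg dat h₁.ne) (Finset.univ.image fun j => (Module.finBasis k S j : K) / x₁)
  refine ⟨G, fun h => hG0 (by rw [h, map_zero]), fun c hc => ?_⟩
  obtain ⟨FB, hFB, hFBS, hB⟩ := exists_hyps (S := S) hx10 (fun i => t₁ i / x₁) G (fun j =>
    hG _ (Finset.mem_image_of_mem _ (Finset.mem_univ j))) c hc
  have hW : Wr D (Fin.cons x₁ (tr x₁ t₁ c)) ≠ 0 := by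
    rw [Wr_tr]
    exact h₁.ne
  have htS : ∀ j, tr x₁ t₁ c j ∈ S := fun j =>
    S.sub_mem (hS' (h₁.t_mem j)) (S.smul_mem _ (hS' h₁.x_mem))
  obtain ⟨FC, hFC, hFCS, hC⟩ := step dat hW (fun j => hSA _ (htS j)) S hS hSA (hS' h₁.x_mem)
  obtain ⟨y, hy, hyF⟩ := exists_avoid S (FA ∪ FB ∪ FC) ((hFA.union hFB).union hFC) (by
    rintro H ((hH | hH) | hH)
    · exact hFAS H hH
    · exact hFBS H hH
    · exact hFCS H hH)
  obtain ⟨hWy, hTh, -⟩ := hC y hy fun H hH => hyF H (Or.inr hH)
  refine ⟨y, hy, ⟨hy, htS, hWy⟩, fun V hV => ?_, hTh⟩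
  by_contra hcon
  push Not at hcon
  obtain ⟨hy', hno⟩ := hcon
  apply hy'
  by_cases hcase : ∃ a ∈ S', IsMin V S a
  · obtain ⟨a, haS', ha⟩ := hcase
    have hmin : ∀ g, IsMin V S' g → IsMin V S g := by
      intro g hg
      refine ha.of_unit (hS' hg.mem) ?_
      refine le_antisymm ((V.valuation_le_one_iff _).2 (ha.div g (hS' hg.mem))) ?_
      have h1 := (V.valuation_le_one_iff _).2 (hg.div a haS')
      rw [map_div₀] at h1 ⊢
      have hg0 : V.valuation g ≠ 0 := (Valuation.ne_zero_iff _).2 hg.ne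
      have ha0 : V.valuation a ≠ 0 := (Valuation.ne_zero_iff _).2 ha.ne
      rw [div_le_one₀ (zero_lt_iff.2 hg0)] at h1
      rwa [one_le_div₀ (zero_lt_iff.2 ha0)]
    have hf0 : IsMin V S x₁ := by
      by_contra hcon
      rcases hb₁ V hV with hj | ⟨j, hj⟩
      · exact hcon (hmin _ hj)
      · have hji := hmin _ hj
        refine hno j (hji.of_unit (htS j) ?_)
        have h1 := hji.val_lt (hS' h₁.x_mem) hcon
        change V.valuation ((t₁ j - c j • x₁) / t₁ j) = 1
        rw [sub_div, div_self hji.ne]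
        have h2 : V.valuation (c j • x₁ / t₁ j) < 1 := by
          rw [Algebra.smul_def, mul_div_assoc, map_mul]
          exact mul_lt_one_of_nonneg_of_lt_one_right ((V.valuation_le_one_iff _).2 (hV _))
            zero_le h1
        rw [Valuation.map_sub_eq_of_lt_left]
        · exact map_one _
        · rwa [map_one]
    obtain ⟨H, hH, hHf⟩ := hB V hV hf0 fun i => by
      have h1 := hf0.val_lt (htS i) (hno i)
      change V.valuation ((t₁ i - c i • x₁) / x₁) < 1 at h1
      rwa [sub_div, Algebra.smul_def, mul_div_assoc, div_self hx10, mul_one] at h1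
    exact hHf y hy (hyF H (Or.inl (Or.inr hH)))
  · push Not at hcase
    have hf0 : IsMin V S x := by
      rcases hb V hV with hx | ⟨j, hj⟩
      · exact hx
      · exact absurd hj (hcase _ (ht j))
    obtain ⟨H, hH, hHf⟩ := hA V hV hf0 fun i => by
      have h1 := hf0.val_lt (h.t_mem i) (hcase _ (ht i))
      rwa [Pi.zero_apply, map_zero, sub_zero]
    exact hHf y hy (hyF H (Or.inl (Or.inl hH)))

end Pool.Agent.TG91
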