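import Pool.Agent.Lib.TG91.Defs
import Pool.Agent.Lib.TG1.FFI
import Pool.Agent.Lib.TG1.TL
import Pool.Agent.Lib.TG_h45.Bpf4

/-!
# TANK G, row C42-2 (C2), row NICE: generic translates are nice
-/

set_option autoImplicit false

namespace Pool.Agent.TG91

open MvPolynomial
open Pool.Agent.TG (Ov ZDim IsMin)
open Pool.Agent.TGh33 (Wr DB)
open Pool.Agent.TG1

universe u

variable {k K : Type u} [Field k] [Field K] [Algebra k K]

section

variable {V : ValuationSubring K}

theorem mem_of_center (hV : Ov k V) {m : ℕ} {l : Fin m → K} {c : Fin m → k}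
    (hl : ∀ i, V.valuation (l i - algebraMap k K (c i)) < 1) (i : Fin m) : l i ∈ V := by
  have h1 : l i = (l i - algebraMap k K (c i)) + algebraMap k K (c i) := by ring
  rw [h1]
  exact V.add_mem _ _ ((V.valuation_le_one_iff _).1 (hl i).le) (hV _)

/-- The value of a polynomial at a centre. -/
theorem val_aeval_sub_lt (hV : Ov k V) {m : ℕ} {l : Fin m → K} {c : Fin m → k}
    (hl : ∀ i, V.valuation (l i - algebraMap k K (c i)) < 1) (G : MvPolynomial (Fin m) k) :
    V.valuation (aeval l G - algebraMap k K (eval c G)) < 1 := by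
  have hlV := mem_of_center hV hl
  induction G using MvPolynomial.induction_on with
  | C a => rw [aeval_C, eval_C, sub_self, map_zero]; exact zero_lt_one
  | add p q hp hq =>
    rw [map_add, map_add, map_add, add_sub_add_comm]
    exact V.valuation.map_add_lt hp hq
  | mul_X p i hp =>
    have h1 : aeval l (p * X i) - algebraMap k K (eval c (p * X i)) =
        (aeval l p - algebraMap k K (eval c p)) * l i +
          algebraMap k K (eval c p) * (l i - algebraMap k K (c i)) := by
      rw [map_mul, map_mul, map_mul, aeval_X, eval_X]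
      ring
    rw [h1]
    refine V.valuation.map_add_lt ?_ ?_
    · rw [map_mul]
      exact (mul_le_of_le_one_right zero_le ((V.valuation_le_one_iff _).2 (hlV i))).trans_lt hp
    · rw [map_mul]
      exact (mul_le_of_le_one_left zero_le ((V.valuation_le_one_iff _).2 (hV _))).trans_lt (hl i)

theorem val_aeval_eq_one (hV : Ov k V) {m : ℕ} {l : Fin m → K} {c : Fin m → k}
    (hl : ∀ i, V.valuation (l i - algebraMap k K (c i)) < 1) {G : MvPolynomial (Fin m) k}
    (hG : eval c G ≠ 0) : V.valuation (aeval l G) = 1 := by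
  have h1 := val_aeval_sub_lt hV hl G
  have h2 := TG.val_const hV hG
  have h3 : aeval l G = (aeval l G - algebraMap k K (eval c G)) + algebraMap k K (eval c G) := by
    ring
  rw [h3, V.valuation.map_add_eq_of_lt_right (by rw [h2]; exact h1), h2]

end

section

variable {n : ℕ} {D : Fin (n + 1) → Derivation k K K} {z : Fin (n + 1) → K} {A : Subalgebra k K}

theorem exists_nice [IsAlgClosed k] (dat : Dat D z A) {S : Submodule k K} (_hS : S.FG)
    (_hSA : ∀ a ∈ S, a ∈ A) {x : K} {t : Fin (n + 1) → K} (h : Adm D S x t) (hb : Bpf S x t) :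
    ∃ G : MvPolynomial (Fin (n + 1)) k, G ≠ 0 ∧ ∀ c : Fin (n + 1) → k, eval c G ≠ 0 →
      Nc D A S x (tr x t c) := by
  classical
  have hx0 := ffi_x h.ne
  have hfin := kq_fin dat h.ne
  have halg : Algebra.IsAlgebraic
      (IntermediateField.adjoin k (Set.range fun j : Fin (n + 1) => t j / x)) K :=
    Algebra.IsAlgebraic.of_finite (kq k x t) K
  obtain ⟨gA, hgA⟩ := dat.fg
  set W := Wr D (Fin.cons x t) with hWd
  obtain ⟨G, hG, hs⟩ := TG.exists_int_mult (fun j : Fin (n + 1) => t j / x) halg
    (gA ∪ {x, x⁻¹, W, W⁻¹})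
  refine ⟨G, ?_, fun c hc V hV hno => ?_⟩
  · rintro rfl
    exact hG (map_zero _)
  have hmemc : ∀ j, tr x t c j ∈ S := fun j => S.sub_mem (h.t_mem j) (S.smul_mem _ h.x_mem)
  have hx : IsMin V S x := by
    rcases hb V hV with h1 | ⟨j, h1⟩
    · exact h1
    by_contra hcon
    apply hno j
    have h2 := h1.val_lt h.x_mem hcon
    refine h1.of_unit (hmemc j) ?_
    have h3 : tr x t c j / t j = 1 + -(algebraMap k K (c j) * (x / t j)) := by
      unfold tr
      rw [sub_div, div_self h1.ne, Algebra.smul_def, mul_div_assoc]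
      ring
    have h4 : V.valuation (-(algebraMap k K (c j) * (x / t j))) < 1 := by
      rw [Valuation.map_neg, map_mul]
      exact (mul_le_of_le_one_left zero_le ((V.valuation_le_one_iff _).2 (hV _))).trans_lt h2
    rw [h3, V.valuation.map_add_eq_of_lt_left (by rw [map_one]; exact h4), map_one]
  have hl : ∀ j, V.valuation (t j / x - algebraMap k K (c j)) < 1 := by
    intro j
    have h1 := hx.val_lt (hmemc j) (hno j)
    have h2 : tr x t c j / x = t j / x - algebraMap k K (c j) := by
      unfold tr
      rw [sub_div, Algebra.smul_def, mul_div_cancel_right₀ _ hx0]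
    rwa [h2] at h1
  have hlV := mem_of_center hV hl
  have hG1 := val_aeval_eq_one hV hl hc
  have hall : ∀ y ∈ gA ∪ {x, x⁻¹, W, W⁻¹}, y ∈ V := by
    intro y hy
    obtain ⟨Q, hQ, hQy⟩ := hs y hy
    have h1 := TG.mem_of_root hV hlV hQ hQy
    have h2 := (V.valuation_le_one_iff _).2 h1
    rw [map_mul, hG1, one_mul] at h2
    exact (V.valuation_le_one_iff _).1 h2
  have hunit : ∀ y : K, y ≠ 0 → y ∈ V → y⁻¹ ∈ V → V.valuation y = 1 := by
    intro y hy0 hy hy'
    refine le_antisymm ((V.valuation_le_one_iff _).2 hy) ?_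
    have h1 := (V.valuation_le_one_iff _).2 hy'
    rw [map_inv₀] at h1
    have h2 : V.valuation y ≠ 0 := by rwa [Ne, Valuation.zero_iff]
    exact (inv_le_one₀ (zero_lt_iff.2 h2)).1 h1
  refine ⟨?_, hunit x hx0 (hall _ (by simp)) (hall _ (by simp)), ?_⟩
  · intro a ha
    rw [← hgA] at ha
    induction ha using Algebra.adjoin_induction with
    | mem a ha => exact hall a (Finset.mem_union_left _ ha)
    | algebraMap c => exact hV c
    | add a b _ _ ha hb => exact V.add_mem _ _ ha hb
    | mul a b _ _ ha hb => exact V.mul_mem _ _ ha hb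
  · rw [Wr_tr]
    exact hunit W h.ne (hall _ (by simp)) (hall _ (by simp))

end

end Pool.Agent.TG91
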