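import Pool.Agent.Lib.TG91.TameA
import Pool.Agent.Lib.TG1_h47.Res
import Pool.Agent.Lib.TG_h4.Nag

/-!
# Tame places: residue fields, boundedness (helper4)
-/

set_option autoImplicit false

namespace Pool.Agent.TG91

open Polynomial Pool.Agent.PF IsLocalRing
open Pool.Agent.TG1h47 (algRes kres)

universe u

section Res

variable {κ K : Type*} [Field κ] [Field K] [Algebra κ K]

/-- The degree of a place is the degree of the residue field. -/
theorem res_equiv (Q : Pl κ K) :
    letI := algRes Q.vs Q.algebraMap_mem_vs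
    Nonempty (Qt (Q.L 0) (Q.L 1) ≃ₗ[κ] ResidueField Q.vs) := by
  have hk : ∀ c : κ, algebraMap κ K c ∈ Q.vs := Q.algebraMap_mem_vs
  let _ := algRes Q.vs hk
  have hmem : ∀ x : Q.L 0, (x : K) ∈ Q.vs := fun x => x.2
  let φ : Q.L 0 →ₗ[κ] ResidueField Q.vs :=
    { toFun := fun x => residue Q.vs ⟨x, hmem x⟩
      map_add' := fun x y => by
        rw [← map_add]
        rfl
      map_smul' := fun c x => by
        rw [RingHom.id_apply, Algebra.smul_def]
        change _ = TG1h47.kres Q.vs hk c * _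
        rw [TG1h47.kres_apply, ← map_mul]
        exact congrArg _ (Subtype.ext (Algebra.smul_def c (x : K))) }
  let ψ : Q.L 0 →ₗ[κ] PF.Qt (Q.L 0) (Q.L 1) :=
    ((Q.L 1).mkQ.comp (Q.L 0).subtype).codRestrict _ fun x => ⟨x, x.2, rfl⟩
  have hφ : Function.Surjective φ := by
    intro y
    obtain ⟨x, rfl⟩ := residue_surjective y
    exact ⟨⟨x, x.2⟩, rfl⟩
  have hψ : Function.Surjective ψ := by
    rintro ⟨_, x, hx, rfl⟩
    exact ⟨⟨x, hx⟩, rfl⟩
  have hker : LinearMap.ker φ = LinearMap.ker ψ := by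
    ext x
    rw [LinearMap.mem_ker, LinearMap.mem_ker]
    have h1 : φ x = 0 ↔ Q.Ge 1 (x : K) := by
      change residue Q.vs ⟨x, hmem x⟩ = 0 ↔ _
      rw [residue_eq_zero_iff, Q.vs.valuation_lt_one_iff]
      by_cases hx : (x : K) = 0
      · rw [hx]
        simp [PF.Pl.Ge]
      · rw [PF.Pl.val_lt_one_iff hx]
        constructor
        · intro h _
          omega
        · intro h
          have := h hx
          omega
    have h2 : ψ x = 0 ↔ Q.Ge 1 (x : K) := by
      rw [← Subtype.coe_inj]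
      change (Q.L 1).mkQ (x : K) = 0 ↔ _
      rw [Submodule.mkQ_apply, Submodule.Quotient.mk_eq_zero]
      rfl
    rw [h1, h2]
  exact ⟨((LinearMap.quotKerEquivOfSurjective ψ hψ).symm.trans
      (Submodule.quotEquivOfEq _ _ hker.symm)).trans (LinearMap.quotKerEquivOfSurjective φ hφ)⟩

theorem residue_aeval (Q : Pl κ K) (y : Q.vs) (q : κ[X]) (x : Q.vs) (hx : (x : K) = aeval (y : K) q) :
    letI := algRes Q.vs Q.algebraMap_mem_vs
    residue Q.vs x = aeval (residue Q.vs y) q := by
  let _ := algRes Q.vs Q.algebraMap_mem_vs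
  have h1 : ∀ q : κ[X], ∃ x : Q.vs, (x : K) = aeval (y : K) q ∧
      residue Q.vs x = aeval (residue Q.vs y) q := by
    intro q
    induction q using Polynomial.induction_on' with
    | add p q hp hq =>
      obtain ⟨a, ha, ha'⟩ := hp
      obtain ⟨b, hb, hb'⟩ := hq
      refine ⟨a + b, ?_, ?_⟩
      · rw [map_add, ← ha, ← hb]
        rfl
      · rw [map_add, map_add, ha', hb']
    | monomial n a =>
      refine ⟨⟨algebraMap κ K a, Q.algebraMap_mem_vs a⟩ * y ^ n, ?_, ?_⟩
      · rw [aeval_monomial]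
        rfl
      · rw [aeval_monomial, map_mul, map_pow]
        rfl
  obtain ⟨x', hx', hr⟩ := h1 q
  have : x = x' := Subtype.ext (hx.trans hx'.symm)
  rw [this, hr]

/-- Residue fields of small degree are separable. -/
theorem res_sep (hF : FF κ K) (P : Pl κ K) (hp : ringChar κ = 0 ∨ P.deg < ringChar κ)
    (y : K) (_ : y ≠ 0) (hy : P.v y = 0) : ∃ q : κ[X], P.Ge 1 (aeval y q) ∧
      aeval y (derivative q) ≠ 0 ∧ P.v (aeval y (derivative q)) = 0 := by
  let _ := algRes P.vs P.algebraMap_mem_vs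
  obtain ⟨e⟩ := res_equiv P
  have hrf : FiniteDimensional κ (Qt (P.L 0) (P.L 1)) := Pl.rf_zero_one hF P
  have hfd : FiniteDimensional κ (ResidueField P.vs) := Module.Finite.equiv e
  have hdeg : Module.finrank κ (ResidueField P.vs) = P.deg := e.finrank_eq.symm
  have hym : y ∈ P.vs := Pl.mem_vs'.2 hy.ge
  obtain ⟨yb, hyb⟩ : ∃ yb, yb = residue P.vs ⟨y, hym⟩ := ⟨_, rfl⟩
  have hint : IsIntegral κ yb := IsIntegral.of_finite κ yb
  have hirr := minpoly.irreducible hint
  have hle : (minpoly κ yb).natDegree ≤ P.deg := hdeg ▸ minpoly.natDegree_le yb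
  have hpos : 0 < (minpoly κ yb).natDegree := minpoly.natDegree_pos hint
  have hsep : (minpoly κ yb).Separable := by
    rw [separable_iff_derivative_ne_zero hirr]
    intro h0
    have h1 := congrArg (fun q => coeff q ((minpoly κ yb).natDegree - 1)) h0
    simp only [coeff_derivative, coeff_zero] at h1
    have h2 : (minpoly κ yb).natDegree - 1 + 1 = (minpoly κ yb).natDegree := by omega
    rw [h2, coeff_natDegree, (minpoly.monic hint).leadingCoeff, one_mul] at h1
    have h3 : (((minpoly κ yb).natDegree : ℕ) : κ) = 0 := by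
      rw [← h1]
      conv_lhs => rw [← h2]
      push_cast
      ring
    have h4 := ringChar.dvd h3
    rcases hp with hp | hp
    · rw [hp, zero_dvd_iff] at h4
      omega
    · exact absurd (Nat.le_of_dvd hpos h4) (by omega)
  have hqm : ∀ q : κ[X], aeval y q ∈ P.vs := fun q => Pl.ge_aeval (fun _ => hy.ge) q
  refine ⟨minpoly κ yb, ?_, ?_⟩
  · have h1 : residue P.vs ⟨aeval y (minpoly κ yb), hqm _⟩ = 0 := by
      rw [residue_aeval P ⟨y, hym⟩ (minpoly κ yb) _ rfl, ← hyb, minpoly.aeval]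
    rw [residue_eq_zero_iff, P.vs.valuation_lt_one_iff] at h1
    intro hne
    have := (Pl.val_lt_one_iff hne).1 h1
    omega
  · have h1 : residue P.vs ⟨aeval y (derivative (minpoly κ yb)), hqm _⟩ ≠ 0 := by
      rw [residue_aeval P ⟨y, hym⟩ (derivative (minpoly κ yb)) _ rfl, ← hyb]
      exact hsep.aeval_derivative_ne_zero (minpoly.aeval κ yb)
    have h2 : aeval y (derivative (minpoly κ yb)) ≠ 0 := by
      intro h0
      apply h1
      have : (⟨aeval y (derivative (minpoly κ yb)), hqm _⟩ : P.vs) = 0 := Subtype.ext h0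
      rw [this, map_zero]
    refine ⟨h2, ?_⟩
    rw [ne_eq, residue_eq_zero_iff, P.vs.valuation_lt_one_iff, Pl.val_lt_one_iff h2] at h1
    have h3 := Pl.mem_vs'.1 (hqm (derivative (minpoly κ yb)))
    have h4 : ¬ 0 < P.v (aeval y (derivative (minpoly κ yb))) := h1
    omega

end Res

section Bound

open Pool.Agent.TGh4

variable {k κ K : Type*} [Field k] [Field κ] [Field K] [Algebra k K] [Algebra κ K]

theorem exists_loc {u : K} (h : Coord κ u) (P : Place κ K) (hP : u ∈ P.V) {y : K}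
    (hy : y ∈ P.V) : ∃ b s : K, IntU κ u b ∧ IntU κ u s ∧ P.V.valuation s = 1 ∧ y * s = b := by
  let _ := algX κ u
  obtain ⟨_, hfr, htow, hfs, htow', halg, hfin⟩ := setup u h _ rfl
  have hn : Module.Finite κ[X] (integralClosure κ[X] K) := h.nag
  have h1 := ifr κ K
  have h2 := idd κ K
  have hX : algebraMap κ[X] K X = u := by
    change aeval u X = u
    rw [aeval_X]
  obtain ⟨v, hv⟩ := (plB_bij (κ := κ) (K := K)).2 ⟨P, by rw [hX]; exact hP⟩
  have hv' : plB v = P := congrArg Subtype.val hv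
  subst hv'
  obtain ⟨n, d, hnd⟩ := v.exists_primeCompl_mul_eq_of_integer y hy
  refine ⟨n, (d : integralClosure κ[X] K), n.2, (d : integralClosure κ[X] K).2, ?_, hnd⟩
  have h3 : v.valuation K (algebraMap (integralClosure κ[X] K) K (d : integralClosure κ[X] K)) =
      v.valuation K 1 := by
    rw [map_one]
    exact v.valuation_eq_one_iff_notMem.2 d.2
  have h4 := (vs_val_eq (v := v)).2 h3
  rw [map_one] at h4
  exact h4

theorem intU_aeval (u : K) (q : κ[X]) : IntU κ u (aeval u q) := by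
  let _ := algX κ u
  change IsIntegral κ[X] (algebraMap κ[X] K q)
  exact isIntegral_algebraMap

theorem IntU.add' {u f g : K} (hf : IntU κ u f) (hg : IntU κ u g) : IntU κ u (f + g) := by
  let _ := algX κ u
  exact IsIntegral.add hf hg

theorem IntU.neg' {u f : K} (hf : IntU κ u f) : IntU κ u (-f) := by
  let _ := algX κ u
  exact IsIntegral.neg hf

theorem IntU.sum' {ι : Type*} {u : K} (s : Finset ι) (f : ι → K)
    (h : ∀ i ∈ s, IntU κ u (f i)) : IntU κ u (∑ i ∈ s, f i) := by
  let _ := algX κ u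
  exact IsIntegral.sum f h

theorem IntU.prod' {ι : Type*} {u : K} (s : Finset ι) (f : ι → K)
    (h : ∀ i ∈ s, IntU κ u (f i)) : IntU κ u (∏ i ∈ s, f i) := by
  let _ := algX κ u
  exact IsIntegral.prod f h

/-- `h δ B ⊆ B`. -/
theorem exists_den {u : K} (h : Coord κ u) (δ : Derivation k K K)
    (hδ : ∀ q : κ[X], ∃ r : κ[X], δ (aeval u q) = aeval u r) :
    ∃ d : K, d ≠ 0 ∧ IntU κ u d ∧ ∀ b, IntU κ u b → IntU κ u (d * δ b) := by
  classical
  have hden : ∀ f : K, ∃ d : K, d ≠ 0 ∧ IntU κ u d ∧ IntU κ u (d * f) := by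
    intro f
    by_cases hf : f = 0
    · refine ⟨1, one_ne_zero, ?_, ?_⟩
      · have := intU_aeval (κ := κ) u 1
        rwa [map_one] at this
      · rw [hf, mul_zero]
        have := intU_aeval (κ := κ) u 0
        rwa [map_zero] at this
    · obtain ⟨a, b, ha, hb, hia, hib, hab⟩ := exists_frac h hf
      refine ⟨b, hb, hib, ?_⟩
      rw [hab, mul_div_cancel₀ _ hb]
      exact hia
  obtain ⟨T, hT⟩ : ∃ T : Finset K, (∀ b ∈ T, IntU κ u b) ∧ ∀ b, IntU κ u b →
      ∃ c : K → κ[X], b = ∑ t ∈ T, aeval u (c t) * t := by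
    let _ := algX κ u
    have hn : Module.Finite κ[X] (integralClosure κ[X] K) := h.nag
    obtain ⟨S, hS⟩ := hn
    refine ⟨S.image Subtype.val, ?_, ?_⟩
    · intro b hb
      obtain ⟨b', -, rfl⟩ := Finset.mem_image.1 hb
      exact b'.2
    · intro b hb
      have h1 : (⟨b, hb⟩ : integralClosure κ[X] K) ∈ Submodule.span κ[X] (S : Set _) :=
        hS ▸ Submodule.mem_top
      obtain ⟨c, -, hc⟩ := Submodule.mem_span_finset.1 h1
      refine ⟨fun t => if ht : IntU κ u t then c ⟨t, ht⟩ else 0, ?_⟩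
      rw [Finset.sum_image (fun _ _ _ _ h => Subtype.ext h)]
      have h2 := congrArg (fun y : integralClosure κ[X] K => (y : K)) hc
      have h3 : (b : K) = ∑ t ∈ S, (((c t • t : integralClosure κ[X] K)) : K) := by
        rw [← AddSubmonoidClass.coe_finsetSum]
        exact h2.symm
      rw [h3]
      refine Finset.sum_congr rfl fun t _ => ?_
      have h4 : (if ht : IntU κ u (t : K) then c ⟨t, ht⟩ else 0) = c t :=
        dif_pos (show IntU κ u (t : K) from t.2)
      change ((c t • t : integralClosure κ[X] K) : K) =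
        aeval u (if ht : IntU κ u (t : K) then c ⟨t, ht⟩ else 0) * (t : K)
      rw [h4, Algebra.smul_def]
      rfl
  choose den hden0 hdeni hdenf using hden
  refine ⟨∏ t ∈ T, den (δ t), Finset.prod_ne_zero_iff.2 fun t _ => hden0 _, ?_, ?_⟩
  · exact IntU.prod' T _ fun t _ => hdeni (δ t)
  · intro b hb
    obtain ⟨c, hc⟩ := hT.2 b hb
    have hd : IntU κ u (∏ t ∈ T, den (δ t)) := IntU.prod' T _ fun t _ => hdeni (δ t)
    have h1 : ∀ t ∈ T, IntU κ u ((∏ t ∈ T, den (δ t)) * δ t) := by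
      intro t ht
      rw [← Finset.mul_prod_erase T _ ht, mul_comm (den (δ t)), mul_assoc]
      refine IntU.mul ?_ (hdenf (δ t))
      exact IntU.prod' _ _ fun t _ => hdeni (δ t)
    rw [hc, map_sum, Finset.mul_sum]
    refine IntU.sum' T _ fun t ht => ?_
    rw [δ.leibniz, smul_eq_mul, smul_eq_mul, mul_add]
    obtain ⟨r, hr⟩ := hδ (c t)
    refine IntU.add' ?_ ?_
    · rw [mul_left_comm]
      exact IntU.mul (intU_aeval u _) (h1 t ht)
    · rw [hr]
      exact IntU.mul hd (IntU.mul (hT.1 t ht) (intU_aeval u r))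

/-- `δ` is bounded on the valuation ring. -/
theorem bounded {u : K} (h : Coord κ u) (P : Pl κ K) (hu : P.Ge 0 u) (δ : Derivation k K K)
    (hδ : ∀ q : κ[X], ∃ r : κ[X], δ (aeval u q) = aeval u r) :
    ∃ N : ℤ, ∀ y, P.Ge 0 y → P.Ge N (δ y) := by
  obtain ⟨d, hd0, hdi, hd⟩ := exists_den h δ hδ
  let P' : Place κ K := ⟨P.vs, P.algebraMap_mem_vs, P.vs_ne_top⟩
  refine ⟨-P.v d, fun y hy => ?_⟩
  obtain ⟨b, s, hb, hs, hs1, hyb⟩ := exists_loc h P' hu (y := y) hy
  have hs1' : P.vs.valuation s = 1 := hs1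
  have hs0 : s ≠ 0 := by
    rintro rfl
    rw [map_zero] at hs1'
    exact zero_ne_one hs1'
  have hsv : P.v s = 0 := (Pl.val_eq_one_iff hs0).1 hs1'
  have hmem : ∀ f, IntU κ u f → P.Ge 0 f := fun f hf => hf.mem P' hu
  have h1 : δ b = y * δ s + s * δ y := by
    rw [← hyb, δ.leibniz, smul_eq_mul, smul_eq_mul]
  have h2 : P.Ge 0 (d * s * δ y) := by
    have h3 : d * s * δ y = d * δ b - y * (d * δ s) := by
      rw [h1]
      ring
    rw [h3]
    refine Pl.Ge.sub (hmem _ (hd b hb)) ?_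
    have := Pl.Ge.mul hy (hmem _ (hd s hs))
    rwa [zero_add] at this
  intro hne
  have h3 := h2 (mul_ne_zero (mul_ne_zero hd0 hs0) hne)
  rw [P.mul _ _ (mul_ne_zero hd0 hs0) hne, P.mul _ _ hd0 hs0, hsv] at h3
  omega

end Bound

end Pool.Agent.TG91
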