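import Pool.Agent.Lib.TG91.Defs
import Pool.Agent.Lib.TG91.TameB
import Pool.Agent.Lib.TG1.FFI

/-!
# TANK G, row C42-2: tame poles bound the Wronskians (helper4)
-/

set_option autoImplicit false

namespace Pool.Agent.TG91

open Polynomial Pool.Agent.PF
open Pool.Agent.TG1
open Pool.Agent.TGh33 (Wr DB jm dualD)

universe u

variable {k K : Type u} [Field k] [Field K] [Algebra k K]

section Mat

variable {n : ℕ}

/-- Change of derivations. -/
theorem Wr_dualD (D : Fin n → Derivation k K K) (w : Fin n → K) (h : (jm D w).det ≠ 0)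
    (y : Fin (n + 1) → K) : Wr D y = Wr (dualD D w) y * (jm D w).det := by
  obtain ⟨T, hT⟩ : ∃ T : Matrix (Fin (n + 1)) (Fin (n + 1)) K, T = Matrix.of
      (Fin.cons (Fin.cons 1 0) fun m => Fin.cons 0 fun i => jm D w m i) := ⟨_, rfl⟩
  have hdet : T.det = (jm D w).det := by
    rw [hT, Matrix.det_succ_row_zero, Fin.sum_univ_succ, Finset.sum_eq_zero]
    · simp only [Matrix.of_apply, Fin.cons_zero, Fin.val_zero, pow_zero, one_mul, add_zero]
      congr 1
    · intro i _
      simp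
  rw [← hdet, TGh33.Wr_def, TGh33.Wr_def, ← Matrix.det_mul]
  congr 1
  ext j l
  rw [Matrix.mul_apply, Fin.sum_univ_succ, hT]
  refine Fin.cases ?_ (fun l => ?_) l
  · simp
  · simp only [Matrix.of_apply, TGh33.row_zero, TGh33.row_succ, Fin.cons_zero, Fin.cons_succ,
      Pi.zero_apply, mul_zero, zero_add]
    rw [TGh33.D_eq_dualD D w h l (y j)]
    refine Finset.sum_congr rfl fun m _ => ?_
    rw [mul_comm]
    rfl

/-- Scaling of derivations. -/
theorem Wr_smul (D : Fin n → Derivation k K K) (a : K) (y : Fin (n + 1) → K) :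
    Wr (fun i => a • D i) y = a ^ n * Wr D y := by
  obtain ⟨v, hv⟩ : ∃ v : Fin (n + 1) → K, v = Fin.cons 1 fun _ => a := ⟨_, rfl⟩
  have h1 : (Matrix.of fun j => TGh33.row (fun i => a • D i) (y j)) =
      Matrix.of fun i j => v j * (Matrix.of fun j => TGh33.row D (y j)) i j := by
    ext j l
    rw [hv]
    refine Fin.cases ?_ (fun l => ?_) l
    · simp
    · simp
  rw [TGh33.Wr_def, h1, Matrix.det_mul_row, TGh33.Wr_def, hv, Fin.prod_univ_succ]
  simp

end Mat

variable {n : ℕ} {D : Fin (n + 1) → Derivation k K K} {z : Fin (n + 1) → K} {A : Subalgebra k K}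

theorem ratio_mem_kap (t : Fin (n + 1) → K) (j : Fin (n + 1)) : t j / t 0 ∈ kap k t :=
  IntermediateField.subset_adjoin _ _ ⟨j, rfl⟩

/-- A derivation which maps the generators to the field preserves the field. -/
theorem deriv_mem_adjoin (δ : Derivation k K K) (S : Set K)
    (h : ∀ s ∈ S, δ s ∈ IntermediateField.adjoin k S) {a : K}
    (ha : a ∈ IntermediateField.adjoin k S) : δ a ∈ IntermediateField.adjoin k S := by
  induction ha using IntermediateField.adjoin_induction with
  | mem s hs => exact h s hs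
  | algebraMap c =>
    rw [δ.map_algebraMap]
    exact zero_mem _
  | add x y _ _ hx hy =>
    rw [map_add]
    exact add_mem hx hy
  | inv x hx h1 =>
    by_cases h0 : x = 0
    · rw [h0, inv_zero, map_zero]
      exact zero_mem _
    · have h2 : δ x⁻¹ = -(x⁻¹ * x⁻¹) * δ x := by
        have h3 := ldv_inv δ h0
        rw [ldv, ldv, div_eq_iff (inv_ne_zero h0)] at h3
        rw [h3]
        field_simp
      rw [h2]
      exact mul_mem (neg_mem (mul_mem (inv_mem hx) (inv_mem hx))) h1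
  | mul x y hx hy h1 h2 =>
    rw [δ.leibniz, smul_eq_mul, smul_eq_mul]
    exact add_mem (mul_mem hx h2) (mul_mem hy h1)

/-- The logarithmic derivations `(t_0 / x) ∂ / ∂ (t_m / x)`. -/
noncomputable def ld (D : Fin (n + 1) → Derivation k K K) (x : K) (t : Fin (n + 1) → K)
    (m : Fin (n + 1)) : Derivation k K K :=
  (t 0 / x) • dualD D (fun j => t j / x) m

theorem ld_div {x : K} {t : Fin (n + 1) → K} (hJ : (jm D fun j => t j / x).det ≠ 0)
    (m j : Fin (n + 1)) :
    ld D x t m (t j / x) = if m = j then t 0 / x else 0 := by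
  rw [ld, Derivation.smul_apply, TGh33.dualD_u D (fun j => t j / x) hJ m j, smul_eq_mul]
  split_ifs
  · rw [mul_one]
  · rw [mul_zero]

theorem ld_zero {x : K} {t : Fin (n + 1) → K} (hJ : (jm D fun j => t j / x).det ≠ 0)
    (m : Fin (n + 1)) : ld D x t m (t 0 / x) = (if m = 0 then 1 else 0) * (t 0 / x) := by
  rw [ld_div hJ]
  split_ifs
  · rw [one_mul]
  · rw [zero_mul]

theorem ld_ratio {x : K} {t : Fin (n + 1) → K} (hx : x ≠ 0) (h0 : t 0 ≠ 0)
    (hJ : (jm D fun j => t j / x).det ≠ 0) (m j : Fin (n + 1)) :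
    ld D x t m (t j / t 0) =
      (if m = j then 1 else 0) - (if m = 0 then 1 else 0) * (t j / t 0) := by
  have hu : t 0 / x ≠ 0 := div_ne_zero h0 hx
  have h1 : t j / t 0 * (t 0 / x) = t j / x := by
    field_simp
  have h2 := congrArg (ld D x t m) h1
  rw [(ld D x t m).leibniz, smul_eq_mul, smul_eq_mul, ld_zero hJ, ld_div hJ] at h2
  have h3 : (t 0 / x) * ld D x t m (t j / t 0) = (t 0 / x) *
      ((if m = j then 1 else 0) - (if m = 0 then 1 else 0) * (t j / t 0)) := by
    have h4 : (if m = j then t 0 / x else 0) = (t 0 / x) * (if m = j then (1 : K) else 0) := by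
      split_ifs
      · rw [mul_one]
      · rw [mul_zero]
    rw [h4] at h2
    rw [mul_sub, ← h2]
    ring
  exact mul_left_cancel₀ hu h3

theorem ld_kap {x : K} {t : Fin (n + 1) → K} (hx : x ≠ 0) (h0 : t 0 ≠ 0)
    (hJ : (jm D fun j => t j / x).det ≠ 0) (m : Fin (n + 1)) {a : K} (ha : a ∈ kap k t) :
    ld D x t m a ∈ kap k t := by
  refine deriv_mem_adjoin _ _ ?_ ha
  rintro _ ⟨j, rfl⟩
  change ld D x t m (t j / t 0) ∈ kap k t
  rw [ld_ratio hx h0 hJ]
  have h1 : ∀ c : Prop, ∀ _ : Decidable c, (if c then (1 : K) else 0) ∈ kap k t := by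
    intro c _
    split_ifs
    · exact one_mem _
    · exact zero_mem _
  exact sub_mem (h1 _ _) (mul_mem (h1 _ _) (ratio_mem_kap t j))

theorem ld_aeval {x : K} {t : Fin (n + 1) → K} (hx : x ≠ 0) (h0 : t 0 ≠ 0)
    (hJ : (jm D fun j => t j / x).det ≠ 0) (m : Fin (n + 1)) (q : (kap k t)[X]) :
    ∃ r : (kap k t)[X], ld D x t m (aeval (t 0 / x) q) = aeval (t 0 / x) r := by
  induction q using Polynomial.induction_on' with
  | add p q hp hq =>
    obtain ⟨r, hr⟩ := hp
    obtain ⟨s, hs⟩ := hq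
    exact ⟨r + s, by rw [map_add, map_add, hr, hs, map_add]⟩
  | monomial i a =>
    obtain ⟨b, hb⟩ : ∃ b : kap k t, (b : K) = ld D x t m a := ⟨⟨_, ld_kap hx h0 hJ m a.2⟩, rfl⟩
    refine ⟨monomial i (b + (i : kap k t) * (if m = 0 then 1 else 0) * a), ?_⟩
    rw [aeval_monomial, aeval_monomial]
    change ld D x t m ((a : K) * (t 0 / x) ^ i) =
      ((b + (i : kap k t) * (if m = 0 then 1 else 0) * a : kap k t) : K) * (t 0 / x) ^ i
    rw [(ld D x t m).leibniz, (ld D x t m).leibniz_pow, ld_zero hJ, smul_eq_mul, smul_eq_mul,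
      smul_eq_mul, nsmul_eq_mul, ← hb]
    push_cast
    have h2 : (((if m = 0 then 1 else 0 : kap k t)) : K) = if m = 0 then 1 else 0 := by
      split_ifs <;> rfl
    rw [h2]
    rcases i with _ | i
    · simp
    · rw [Nat.add_sub_cancel, pow_succ]
      ring

theorem kap_ess (t : Fin (n + 1) → K) : Algebra.EssFiniteType k (kap k t) := by
  rw [IntermediateField.essFiniteType_iff]
  exact IntermediateField.fg_adjoin_of_finite (Set.finite_range _)

theorem tame_coord [IsAlgClosed k] (dat : Dat D z A) {x : K} {t : Fin (n + 1) → K}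
    (hW : Wr D (Fin.cons x t) ≠ 0) (P : PL k t) (hP : P.v x < P.v (t 0)) :
    TGh4.Coord (kap k t) (t 0 / x) := by
  have hu : P.v (t 0 / x) ≠ 0 := by
    rw [P.map_div (ffi_t hW 0) (ffi_x hW)]
    omega
  have htr := Pl.transcendental_of_ne hu
  have := kap_ess (k := k) t
  obtain ⟨p, hp⟩ := ExpChar.exists k
  have hp' : ExpChar (kap k t) p := expChar_of_injective_algebraMap (algebraMap k (kap k t)).injective p
  exact TGh4.Coord.of_ffinite p (fun e => TGh4.ffinite k (kap k t) p e) htr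
    ((ff dat hW).fin _ htr)

/-- The logarithmic derivations preserve the valuation ring of a tame pole. -/
theorem ld_mem [IsAlgClosed k] (dat : Dat D z A) {x : K} {t : Fin (n + 1) → K}
    (hW : Wr D (Fin.cons x t) ≠ 0) (P : PL k t) (hP : P.v x < P.v (t 0))
    (hp : ringChar k = 0 ∨ (P.v (t 0) - P.v x) * (P.deg : ℤ) < ringChar k)
    (m : Fin (n + 1)) (y : K) (hy : P.Ge 0 y) : P.Ge 0 (ld D x t m y) := by
  have hx := ffi_x hW
  have h0 := ffi_t hW 0
  have hu0 : t 0 / x ≠ 0 := div_ne_zero h0 hx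
  have hJ : (jm D fun j => t j / x).det ≠ 0 := by
    intro h
    apply hW
    rw [TGh33.Wr_eq_jm D (Fin.cons x t) hx]
    simp only [Fin.cons_succ, Fin.cons_zero]
    rw [h, mul_zero]
  have hvu : P.v (t 0 / x) = P.v (t 0) - P.v x := P.map_div h0 hx
  have hge : P.Ge 0 (t 0 / x) := fun _ => by omega
  have hF := ff dat hW
  have hrc : ringChar (kap k t) = ringChar k := (Algebra.ringChar_eq k (kap k t)).symm
  have hdeg : 0 < P.deg := Pl.deg_pos hF P
  obtain ⟨N, hN⟩ := bounded (tame_coord dat hW P hP) P hge (ld D x t m) (ld_aeval hx h0 hJ m)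
  refine tame_core P (ld D x t m) (fun a => ?_) hu0 ?_ ?_ ?_ hN y hy
  · have h1 := P.algebraMap_mem_vs ⟨_, ld_kap hx h0 hJ m a.2⟩
    exact h1
  · rw [ldv, ld_zero hJ, mul_div_cancel_right₀ _ hu0]
    split_ifs
    · exact fun _ => by rw [P.map_one]
    · exact Pl.Ge.zero
  · rw [hvu]
    intro h
    obtain ⟨e, he⟩ := Int.eq_ofNat_of_zero_le (show 0 ≤ P.v (t 0) - P.v x by omega)
    rw [he, Int.cast_natCast] at h
    have h2 := ringChar.dvd h
    rw [hrc] at h2
    rcases hp with hp | hp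
    · rw [hp, zero_dvd_iff] at h2
      omega
    · have h3 := Nat.le_of_dvd (by omega) h2
      have h4 : (e : ℤ) * 1 ≤ e * P.deg :=
        mul_le_mul_of_nonneg_left (by omega) (by omega)
      rw [he] at hp
      omega
  · intro y hy0 hy
    refine res_sep hF P ?_ y hy0 hy
    rw [hrc]
    rcases hp with hp | hp
    · exact Or.inl hp
    · right
      have h4 : 1 * (P.deg : ℤ) ≤ (P.v (t 0) - P.v x) * P.deg :=
        mul_le_mul_of_nonneg_right (by omega) (by omega)
      omega

theorem tame [IsAlgClosed k] (dat : Dat D z A) {x : K} {t : Fin (n + 1) → K}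
    (hW : Wr D (Fin.cons x t) ≠ 0) (P : PL k t) (hP : P.v x < P.v (t 0))
    (hp : ringChar k = 0 ∨ (P.v (t 0) - P.v x) * (P.deg : ℤ) < ringChar k)
    (g : Fin (n + 2) → K) (hg : ∀ j, P.Ge (P.v x) (g j)) (hWg : Wr D g ≠ 0) :
    P.v (Wr D (Fin.cons x t)) ≤ P.v (Wr D g) + (n + 1) * (P.v (t 0) - P.v x) := by
  have hx := ffi_x hW
  have h0 := ffi_t hW 0
  have hu0 : t 0 / x ≠ 0 := div_ne_zero h0 hx
  have hWx : Wr D (Fin.cons x t) = x ^ (n + 2) * (jm D fun j => t j / x).det := by
    rw [TGh33.Wr_eq_jm D (Fin.cons x t) hx]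
    simp only [Fin.cons_succ, Fin.cons_zero]
  have hJ : (jm D fun j => t j / x).det ≠ 0 := by
    intro h
    apply hW
    rw [hWx, h, mul_zero]
  have hgx : Wr D g = x ^ (n + 2) * (Wr (dualD D fun j => t j / x) (fun j => g j / x) *
      (jm D fun j => t j / x).det) := by
    rw [← Wr_dualD D _ hJ, ← TGh33.Wr_mul]
    congr 1
    funext j
    rw [mul_div_cancel₀ _ hx]
  obtain ⟨w, hw⟩ : ∃ w, w = Wr (dualD D fun j => t j / x) (fun j => g j / x) := ⟨_, rfl⟩
  rw [← hw] at hgx
  have hw0 : w ≠ 0 := by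
    rintro rfl
    apply hWg
    rw [hgx, zero_mul, mul_zero]
  have h1 : P.Ge 0 ((t 0 / x) ^ (n + 1) * w) := by
    rw [hw, ← Wr_smul]
    have h2 : ∀ j, P.Ge 0 (g j / x) := by
      intro j hne
      have hgj : g j ≠ 0 := by
        rintro h
        rw [h, zero_div] at hne
        exact hne rfl
      rw [P.map_div hgj hx]
      have := hg j hgj
      omega
    refine TGh33.det_mem P.vs.toSubring _ fun i j => ?_
    refine Fin.cases ?_ (fun j => ?_) j
    · exact h2 i
    · exact ld_mem dat hW P hP hp j _ (h2 i)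
  have h2 := h1 (mul_ne_zero (pow_ne_zero _ hu0) hw0)
  have hxn : x ^ (n + 2) ≠ 0 := pow_ne_zero _ hx
  rw [P.mul _ _ (pow_ne_zero _ hu0) hw0, P.map_pow, P.map_div h0 hx] at h2
  rw [hWx, hgx, P.mul _ _ hxn hJ, P.mul _ _ hxn (mul_ne_zero hw0 hJ), P.mul _ _ hw0 hJ]
  push_cast at h2
  linarith

end Pool.Agent.TG91
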