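import Pool.Agent.Lib.TG91.Core
import Pool.Agent.Lib.TG91.Tame
import Pool.Agent.Lib.TG91.Mu
import Pool.Agent.Lib.TG91.DFp
import Pool.Agent.Lib.TG91.InvK
import Pool.Agent.Lib.TG91.Gen
import Pool.Agent.Lib.TG91.Nice
import Pool.Agent.Lib.TG1.MaxBpf
import Pool.Agent.Lib.TG1.DF
import Pool.Agent.Lib.TG1.ExtFin

/-!
# TANK G, row C42-2: the theorem
-/

set_option autoImplicit false

namespace Pool.Agent.TG91

open MvPolynomial
open Pool.Agent.TG (Ov ZDim IsMin)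
open Pool.Agent.TGh33 (Wr DB)
open Pool.Agent.TGh71 (dsum pol wgt)
open Pool.Agent.TG1

universe u

section

variable {k K : Type u} [Field k] [Field K] [Algebra k K] {n : ℕ}
  {D : Fin (n + 1) → Derivation k K K} {z : Fin (n + 1) → K} {A : Subalgebra k K}

/-- The count. -/
theorem core [IsAlgClosed k] (dat : Dat D z A) {S S' : Submodule k K} (hS : S.FG)
    (hSA : ∀ a ∈ S, a ∈ A) (hS' : S' ≤ S) {x w x₁ : K} {t t₁ : Fin (n + 1) → K}
    (h : Adm D S x t) (hw : Adm D S' w t) (h₁ : Adm D S' x₁ t₁) (hb : Bpf S x t)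
    (hbw : Bpf S' w t) (hb₁ : Bpf S' x₁ t₁) (hcw : Nc D A S' w t)
    (hcx : ∀ V : ValuationSubring K, Ov k V → (∀ j, ¬ IsMin V S' (t j)) →
      V.valuation x = 1 ∧ V.valuation (Wr D (Fin.cons x t)) = 1)
    (hc₁ : Nc D A S' x₁ t₁)
    (hmin : ∀ P ∈ mk D A x t, ∀ (a : K) (b : Fin (n + 1) → K), Adm D S a b →
      P.v (Wr D (Fin.cons x t)) ≤ P.v (Wr D (Fin.cons a b)))
    (hp : ringChar k = 0 ∨ (dg k x t : ℤ) - dg k w t < ringChar k) :
    dg k w t ≤ dg k x t ∧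
      bet D A x₁ t₁ ≤ bet D A x t + (n + 2) * ((dg k x t : ℤ) - dg k w t) := by
  refine core0 dat hS hSA hS' h hw h₁ hb hbw hb₁ hcw hcx hc₁ hmin fun P hP hle g hg hWg => ?_
  refine tame dat h.ne P hP ?_ g hg hWg
  rcases hp with hp | hp
  · exact Or.inl hp
  · exact Or.inr (lt_of_le_of_lt hle hp)

theorem admTr {S : Submodule k K} {x : K} {t : Fin (n + 1) → K} (h : Adm D S x t)
    (c : Fin (n + 1) → k) : Adm D S x (tr x t c) :=
  ⟨h.x_mem, fun j => S.sub_mem (h.t_mem j) (S.smul_mem _ h.x_mem), by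
    rw [Wr_tr]
    exact h.ne⟩

theorem admTl {S : Submodule k K} {x : K} {t : Fin (n + 1) → K} (h : Adm D S x t)
    (a : Fin (n + 1) → k) : Adm D S (tl x t a) t :=
  ⟨S.add_mem h.x_mem (S.sum_mem fun i _ => S.smul_mem _ (h.t_mem i)), h.t_mem, by
    rw [Wr_tl]
    exact h.ne⟩

theorem lt_of_not_isMin {V : ValuationSubring K} {S : Submodule k K} {f g : K}
    (hf : IsMin V S f) (hg : g ∈ S) (h : ¬ IsMin V S g) : V.valuation (g / f) < 1 := by
  refine lt_of_le_of_ne ((V.valuation_le_one_iff _).2 (hf.div g hg)) fun h1 => h ?_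
  exact TG.IsMin.of_val hf hg h1

theorem isMin_add {V : ValuationSubring K} {S : Submodule k K} {f g : K}
    (hf : IsMin V S f) (hg : g ∈ S) (h : V.valuation (g / f) < 1) : IsMin V S (f + g) := by
  refine TG.IsMin.of_val hf (S.add_mem hf.mem hg) ?_
  rw [add_div, div_self hf.ne, Valuation.map_add_eq_of_lt_left _ (by rwa [map_one]), map_one]

theorem bpfTr {S : Submodule k K} {x : K} {t : Fin (n + 1) → K} (h : Adm D S x t)
    (hb : Bpf S x t) (c : Fin (n + 1) → k) : Bpf S x (tr x t c) := by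
  intro V hV
  rcases hb V hV with h1 | ⟨j, hj⟩
  · exact Or.inl h1
  by_cases hx : IsMin V S x
  · exact Or.inl hx
  refine Or.inr ⟨j, ?_⟩
  have h2 := lt_of_not_isMin hj h.x_mem hx
  have h3 : tr x t c j = t j + (-c j) • x := by
    rw [neg_smul]
    exact sub_eq_add_neg _ _
  rw [h3]
  refine isMin_add hj (S.smul_mem _ h.x_mem) ?_
  rw [smul_div_assoc, Algebra.smul_def, map_mul]
  calc V.valuation (algebraMap k K (-c j)) * V.valuation (x / t j) ≤
      1 * V.valuation (x / t j) := mul_le_mul_left ((V.valuation_le_one_iff _).2 (hV _)) _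
    _ < 1 := by rwa [one_mul]

theorem bpfTl {S : Submodule k K} {x : K} {t : Fin (n + 1) → K} (h : Adm D S x t)
    (hb : Bpf S x t) (a : Fin (n + 1) → k) : Bpf S (tl x t a) t := by
  intro V hV
  by_cases ht : ∃ j, IsMin V S (t j)
  · exact Or.inr ht
  push Not at ht
  left
  have hx : IsMin V S x := (hb V hV).resolve_right fun ⟨j, hj⟩ => ht j hj
  have key : ∀ s : Finset (Fin (n + 1)), V.valuation ((∑ i ∈ s, a i • t i) / x) < 1 := by
    intro s
    rw [Finset.sum_div]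
    refine Valuation.map_sum_lt _ one_ne_zero fun i _ => ?_
    rw [smul_div_assoc, Algebra.smul_def, map_mul]
    calc V.valuation (algebraMap k K (a i)) * V.valuation (t i / x) ≤
        1 * V.valuation (t i / x) := mul_le_mul_left ((V.valuation_le_one_iff _).2 (hV _)) _
      _ < 1 := by
        rw [one_mul]
        exact lt_of_not_isMin hx (h.t_mem i) (ht i)
  exact isMin_add hx (S.sum_mem fun i _ => S.smul_mem _ (h.t_mem i)) (key _)

/-- The coefficients of `(tl x t a, t)`. -/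
def ca {h : ℕ} (c : Fin (n + 2) × Fin h → k) (a : Fin (n + 1) → k) (q : Fin (n + 2) × Fin h) : k :=
  if q.1 = 0 then c (0, q.2) + ∑ i : Fin (n + 1), a i * c (i.succ, q.2) else c q

theorem cx_ca {h : ℕ} (e : Fin h → K) (c : Fin (n + 2) × Fin h → k) (a : Fin (n + 1) → k) :
    cx e (ca c a) = tl (cx e c) (ct e c) a := by
  simp only [cx, ct, tl, ca, if_true, add_smul, Finset.sum_add_distrib, Finset.sum_smul, mul_smul,
    Finset.smul_sum]
  rw [Finset.sum_comm]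

theorem ct_ca {h : ℕ} (e : Fin h → K) (c : Fin (n + 2) × Fin h → k) (a : Fin (n + 1) → k) :
    ct e (ca c a) = ct e c := by
  funext i
  simp only [ct, ca]
  refine Finset.sum_congr rfl fun j _ => ?_
  rw [if_neg (Fin.succ_ne_zero i)]

/-- The condition `Φ` on the changed tuple. -/
theorem exists_Psi {h : ℕ} (c : Fin (n + 2) × Fin h → k)
    (Φ : MvPolynomial (Fin (n + 2) × Fin h) k) :
    ∃ Ψ : MvPolynomial (Fin (n + 1)) k, ∀ a, eval a Ψ = eval (ca c a) Φ := by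
  refine ⟨aeval (fun q : Fin (n + 2) × Fin h => if q.1 = 0 then
    C (c (0, q.2)) + ∑ i : Fin (n + 1), X i * C (c (i.succ, q.2)) else C (c q)) Φ, fun a => ?_⟩
  have h1 : ∀ p : MvPolynomial (Fin (n + 2) × Fin h) k,
      eval a (aeval (fun q : Fin (n + 2) × Fin h => if q.1 = 0 then
        C (c (0, q.2)) + ∑ i : Fin (n + 1), X i * C (c (i.succ, q.2)) else C (c q)) p) =
      eval (ca c a) p := by
    intro p
    induction p using MvPolynomial.induction_on with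
    | C b => rw [MvPolynomial.algHom_C, MvPolynomial.algebraMap_eq, eval_C, eval_C]
    | add p q hp hq => rw [map_add, map_add, map_add, hp, hq]
    | mul_X p q hp =>
      rw [map_mul, map_mul, map_mul, hp, aeval_X, eval_X]
      congr 1
      unfold ca
      by_cases hq : q.1 = 0
      · rw [if_pos hq, if_pos hq]
        simp
      · rw [if_neg hq, if_neg hq, eval_C]
  exact h1 Φ

theorem ca_zero {h : ℕ} (c : Fin (n + 2) × Fin h → k) : ca c 0 = c := by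
  funext q
  unfold ca
  by_cases hq : q.1 = 0
  · rw [if_pos hq]
    simp only [Pi.zero_apply, zero_mul, Finset.sum_const_zero, add_zero]
    rw [← hq]
  · rw [if_neg hq]

/-- Row GEN. -/
theorem exists_gen' [IsAlgClosed k] (dat : Dat D z A) {S : Submodule k K}
    (hSA : ∀ a ∈ S, a ∈ A) {h : ℕ} (e : Fin h → K) (he : Submodule.span k (Set.range e) = S)
    {x₀ : K} {t₀ : Fin (n + 1) → K} (h₀ : Adm D S x₀ t₀) (hb₀ : Bpf S x₀ t₀) :
    ∃ Φ : MvPolynomial (Fin (n + 2) × Fin h) k, Φ ≠ 0 ∧ ∀ c, eval c Φ ≠ 0 →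
      Adm D S (cx e c) (ct e c) ∧ Bpf S (cx e c) (ct e c) ∧
      ∀ η : Fin (n + 1) → k, ∀ P ∈ mk D A (cx e c) (tr (cx e c) (ct e c) η),
        ∀ (a : K) (b : Fin (n + 1) → K), Adm D S a b →
          P.v (Wr D (Fin.cons (cx e c) (ct e c))) ≤ P.v (Wr D (Fin.cons a b)) := by
  have hS : S.FG := by
    rw [← he]
    exact Submodule.fg_span (Set.finite_range e)
  refine exists_gen_of dat hSA e he h₀ hb₀ fun h h' hb hb' hc' P hP => ?_
  obtain ⟨Q, h1, -, h3, -⟩ := transfer dat hS hSA h h' hb hb' hc' P hP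
  exact ⟨Q, h1, h3⟩

theorem exists_eval_ne3 [Infinite k] {F G H : MvPolynomial (Fin (n + 1)) k} (hF : F ≠ 0)
    (hG : G ≠ 0) (hH : H ≠ 0) : ∃ c, eval c F ≠ 0 ∧ eval c G ≠ 0 ∧ eval c H ≠ 0 := by
  by_contra hcon
  push Not at hcon
  have h1 : F * G * H = 0 := by
    refine MvPolynomial.funext fun c => ?_
    rw [map_mul, map_mul, map_zero]
    by_cases h1 : eval c F = 0
    · rw [h1, zero_mul, zero_mul]
    by_cases h2 : eval c G = 0
    · rw [h2, mul_zero, zero_mul]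
    rw [hcon c h1 h2, mul_zero]
  rcases mul_eq_zero.1 h1 with h2 | h2
  · rcases mul_eq_zero.1 h2 with h3 | h3
    · exact hF h3
    · exact hG h3
  · exact hH h2

theorem exists_eval_ne1 [Infinite k] {F : MvPolynomial (Fin (n + 1)) k} (hF : F ≠ 0) :
    ∃ c, eval c F ≠ 0 := by
  obtain ⟨c, hc, -⟩ := exists_eval_ne3 hF hF hF
  exact ⟨c, hc⟩

/-- A nice maximal tuple of `S'` with an element `y` of `S` for the step. -/
theorem exists_nice_mx [IsAlgClosed k] (dat : Dat D z A) {S S' : Submodule k K} (hS : S.FG)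
    (hSA : ∀ a ∈ S, a ∈ A) (hS' : S' ≤ S) {x : K} {t : Fin (n + 1) → K} (h : Adm D S x t)
    (ht : ∀ j, t j ∈ S') (hb : Bpf S x t) (hmx : ∃ x t, IsMx D A S' x t) :
    ∃ (x₁ : K) (t₁ : Fin (n + 1) → K), IsMx D A S' x₁ t₁ ∧ Bpf S' x₁ t₁ ∧ Nc D A S' x₁ t₁ ∧
      ∃ y, Adm D S y t₁ ∧ Bpf S y t₁ ∧
        Th D A x₁ t₁ + ((dg k y t₁ : ℤ) - dg k x₁ t₁) ≤ Th D A y t₁ := by
  have hS'A : ∀ a ∈ S', a ∈ A := fun a ha => hSA a (hS' ha)
  have hS'fg : S'.FG := by
    have i0 : FiniteDimensional k S := Module.Finite.iff_fg.2 hS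
    have i1 : FiniteDimensional k S' := Submodule.finiteDimensional_of_le hS'
    exact Module.Finite.iff_fg.1 i1
  obtain ⟨x₀, t₀, hm₀⟩ := hmx
  obtain ⟨G₀, hG₀, hF₀⟩ := exists_F dat hm₀.adm.ne (hS'A _ hm₀.adm.x_mem)
    fun j => hS'A _ (hm₀.adm.t_mem j)
  obtain ⟨a, ha⟩ := exists_eval_ne1 hG₀
  obtain ⟨F, hF, hF1, -⟩ := hF₀ a ha
  have hm₁ : IsMx D A S' (tl x₀ t₀ a) t₀ := ⟨admTl hm₀.adm a, fun y s hys => by
    rw [(Th_tl dat hm₀.adm.ne a).1]
    exact hm₀.max y s hys⟩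
  have hb₁ := bpf_of_mx dat hS'fg hS'A hm₁
  obtain ⟨G₁, hG₁, hN⟩ := exists_nice dat hS'fg hS'A hm₁.adm hb₁
  obtain ⟨G₂, hG₂, hM⟩ := exists_step dat hS hSA hS' h ht hb hm₁.adm hb₁
  obtain ⟨c, hc, hc1, hc2⟩ := exists_eval_ne3 hF hG₁ hG₂
  obtain ⟨y, -, hy, hyb, hyT⟩ := hM c hc2
  have hm₂ : IsMx D A S' (tl x₀ t₀ a) (tr (tl x₀ t₀ a) t₀ c) := ⟨admTr hm₁.adm c, fun y s hys => by
    have h1 := hm₁.max y s hys
    have h2 := hF1 c hc
    omega⟩
  exact ⟨_, _, hm₂, bpfTr hm₁.adm hb₁ c, hN c hc1, y, hy, hyb, hyT⟩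

/-- The drop of the degree is bounded. -/
theorem mu_le [IsAlgClosed k] (dat : Dat D z A) {S S' : Submodule k K} (hS : S.FG)
    (hSA : ∀ a ∈ S, a ∈ A) (hS' : S' ≤ S) {x w : K} {t : Fin (n + 1) → K} (h : Adm D S x t)
    (hb : Bpf S x t) (hw : Adm D S' w t) (hbw : Bpf S' w t) {C₀ : ℕ}
    (hext : ∀ x₁ t₁ x' t', Adm D S x₁ t₁ → IsMx D A S' x' t' →
      Th D A x₁ t₁ ≤ Th D A x' t' + C₀)
    {x₁ : K} {t₁ : Fin (n + 1) → K} (hm : IsMx D A S' x₁ t₁) (hb₁ : Bpf S' x₁ t₁)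
    {y : K} (hy : Adm D S y t₁) (hby : Bpf S y t₁)
    (hyT : Th D A x₁ t₁ + ((dg k y t₁ : ℤ) - dg k x₁ t₁) ≤ Th D A y t₁) :
    dg k x₁ t₁ = dg k w t ∧ (dg k x t : ℤ) - dg k w t ≤ C₀ := by
  have hS'fg : S'.FG := by
    have i0 : FiniteDimensional k S := Module.Finite.iff_fg.2 hS
    have i1 : FiniteDimensional k S' := Submodule.finiteDimensional_of_le hS'
    exact Module.Finite.iff_fg.1 i1
  have h1 : dg k y t₁ = dg k x t := dg_eq_of_bpf dat hS hy h hby hb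
  have h2 : dg k x₁ t₁ = dg k w t := dg_eq_of_bpf dat hS'fg hm.adm hw hb₁ hbw
  have h3 := hext y t₁ x₁ t₁ hy hm
  refine ⟨h2, ?_⟩
  rw [← h1, ← h2]
  omega

theorem reached_bound [IsAlgClosed k] (dat : Dat D z A) {S : Submodule k K} (hS : S.FG)
    (hSA : ∀ a ∈ S, a ∈ A) {C₀ s : ℕ}
    (hext : ∀ S' ≤ S, Module.finrank k S ≤ Module.finrank k S' + s →
      (∃ x t, IsMx D A S' x t) ∧ ∀ x t x' t', Adm D S x t → IsMx D A S' x' t' →
        Th D A x t ≤ Th D A x' t' + C₀)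
    (hp : ringChar k = 0 ∨ C₀ < ringChar k) {x : K} {t : Fin (n + 1) → K} (h : Adm D S x t)
    (hb : Bpf S x t)
    (hmin : ∀ η : Fin (n + 1) → k, ∀ P ∈ mk D A x (tr x t η), ∀ (a : K) (b : Fin (n + 1) → K),
      Adm D S a b → P.v (Wr D (Fin.cons x t)) ≤ P.v (Wr D (Fin.cons a b)))
    {η : Fin (n + 1) → k} (hη : Reached D A S s x t η) (c : Fin (n + 1) → k) :
    Th D A x (tr x t c) ≤ Th D A x (tr x t η) + (n + 1) * C₀ := by
  obtain ⟨S', hS', hcod, w, hw, hbw, hcw, hcx⟩ := hη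
  obtain ⟨hmx, hle⟩ := hext S' hS' hcod
  have hη1 := admTr h η
  have hη2 := bpfTr h hb η
  obtain ⟨x₁, t₁, hm, hb₁, hc₁, y, hy, hby, hyT⟩ :=
    exists_nice_mx dat hS hSA hS' hη1 hw.t_mem hη2 hmx
  obtain ⟨h1, h2⟩ := mu_le dat hS hSA hS' hη1 hη2 hw hbw hle hm hb₁ hy hby hyT
  have hC : ringChar k = 0 ∨
      (dg k x (tr x t η) : ℤ) - dg k w (tr x t η) < ringChar k := by
    rcases hp with hp | hp
    · exact Or.inl hp
    · refine Or.inr (lt_of_le_of_lt h2 ?_)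
      exact_mod_cast hp
  obtain ⟨h3, h4⟩ := core dat hS hSA hS' hη1 hw hm.adm hη2 hbw hb₁ hcw hcx hc₁
    (fun P hP a b hab => by
      have h5 := hmin η P hP a b hab
      rw [Wr_tr]
      exact h5) hC
  have h5 := hle x (tr x t c) x₁ t₁ (admTr h c) hm
  have h6 : (dg k x₁ t₁ : ℤ) = dg k w (tr x t η) := by rw [h1]
  have h7 : (0 : ℤ) ≤ (dg k x (tr x t η) : ℤ) - dg k w (tr x t η) := by
    have : (dg k w (tr x t η) : ℤ) ≤ dg k x (tr x t η) := by exact_mod_cast h3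
    linarith
  have h8 : (n : ℤ) * ((dg k x (tr x t η) : ℤ) - dg k w (tr x t η)) ≤ n * C₀ :=
    mul_le_mul_of_nonneg_left h2 (Int.natCast_nonneg _)
  unfold Th at h5 ⊢
  nlinarith

end

theorem c42_2 (n s : ℕ) (J : Finset ℕ) : ∃ C : ℕ, ∀ (k K : Type u) [Field k] [Field K]
    [Algebra k K] [IsAlgClosed k] (D : Fin (n + 1) → Derivation k K K) (z : Fin (n + 1) → K)
    (A : Subalgebra k K), Dat D z A → (ringChar k = 0 ∨ C < ringChar k) → ∀ B : ℕ,
    ∃ S : Submodule k K, S.FG ∧ (∀ a ∈ S, a ∈ A) ∧ B ≤ Module.finrank k S ∧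
      (∀ S' ≤ S, Module.finrank k S ≤ Module.finrank k S' + s →
        (∃ x t, Adm D S' x t ∧ Bpf S' x t) ∧
        ∀ j ∈ J, Module.finrank k (S ^ j : Submodule k K) ≤
          Module.finrank k (S' ^ j : Submodule k K) + C) ∧
      ∀ (h : ℕ) (e : Fin h → K), Submodule.span k (Set.range e) = S →
      ∃ Φ : MvPolynomial (Fin (n + 2) × Fin h) k, Φ ≠ 0 ∧ ∀ c, eval c Φ ≠ 0 →
        Adm D S (cx e c) (ct e c) ∧ Bpf S (cx e c) (ct e c) ∧
        ∃ G : MvPolynomial (Fin (n + 1)) k, G ≠ 0 ∧ ∀ a : Fin (n + 1) → k, eval a G ≠ 0 →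
        Adm D S (tl (cx e c) (ct e c) a) (ct e c) ∧ Bpf S (tl (cx e c) (ct e c) a) (ct e c) ∧
        ∃ F : MvPolynomial (Fin (n + 1)) k, F ≠ 0 ∧
          (∀ P : ValuationSubring K, Ov k P → ∀ h : MvPolynomial (Fin (n + 1)) k,
            OverP (crd (tl (cx e c) (ct e c) a) (ct e c)) P h →
            UnitAt P (aeval (crd (tl (cx e c) (ct e c) a) (ct e c)) F) → Good D A P ∧
              UnitAt P (tl (cx e c) (ct e c) a) ∧
              UnitAt P (Wr D (Fin.cons (cx e c) (ct e c)) /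
                tl (cx e c) (ct e c) a ^ (n + 2))) ∧
          (∀ P : PF.Pl k K, Good D A P.vs → P.v (tl (cx e c) (ct e c) a) = 0 →
            ∀ h : MvPolynomial (Fin (n + 1)) k,
            OverP (crd (tl (cx e c) (ct e c) a) (ct e c)) P.vs h →
            P.v (Wr D (Fin.cons (cx e c) (ct e c))) ≤
              P.v (aeval (crd (tl (cx e c) (ct e c) a) (ct e c)) F)) ∧
          (∀ η : Fin (n + 1) → k, Reached D A S s (tl (cx e c) (ct e c) a) (ct e c) η →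
            TG1.ordAt η F ≤ C) ∧
          ∀ η : Fin (n + 1) → k, ∀ S' ≤ S, Module.finrank k S ≤ Module.finrank k S' + s →
            ∀ w, Adm D S' w (tr (tl (cx e c) (ct e c) a) (ct e c) η) →
              Bpf S' w (tr (tl (cx e c) (ct e c) a) (ct e c) η) →
              (dg k (tl (cx e c) (ct e c) a) (ct e c) : ℤ) -
                dg k w (tr (tl (cx e c) (ct e c) a) (ct e c) η) ≤ C := by
  obtain ⟨C₀, hC₀⟩ := exists_ext.{u} n J s
  refine ⟨(n + 1) * C₀ + C₀, fun k K _ _ _ _ D z A dat hp B => ?_⟩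
  obtain ⟨S, hS, hSA, hB, hext⟩ := hC₀ k K D z A dat B
  have hCC : C₀ ≤ (n + 1) * C₀ + C₀ := Nat.le_add_left _ _
  have hp' : ringChar k = 0 ∨ C₀ < ringChar k := by
    rcases hp with hp | hp
    · exact Or.inl hp
    · exact Or.inr (lt_of_le_of_lt hCC hp)
  have hext' : ∀ S' ≤ S, Module.finrank k S ≤ Module.finrank k S' + s →
      (∃ x t, IsMx D A S' x t) ∧ ∀ x t x' t', Adm D S x t → IsMx D A S' x' t' →
        Th D A x t ≤ Th D A x' t' + C₀ := fun S' h1 h2 =>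
    ⟨(hext S' h1 h2).1, (hext S' h1 h2).2.1⟩
  refine ⟨S, hS, hSA, hB, fun S' hS' hcod => ?_, fun h e he => ?_⟩
  · obtain ⟨⟨x, t, hm⟩, -, hJ⟩ := hext S' hS' hcod
    have hS'fg : S'.FG := by
      have i0 : FiniteDimensional k S := Module.Finite.iff_fg.2 hS
      have i1 : FiniteDimensional k S' := Submodule.finiteDimensional_of_le hS'
      exact Module.Finite.iff_fg.1 i1
    exact ⟨⟨x, t, hm.adm, bpf_of_mx dat hS'fg (fun a ha => hSA a (hS' ha)) hm⟩,
      fun j hj => (hJ j hj).trans (Nat.add_le_add_left hCC _)⟩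
  · obtain ⟨⟨x₀, t₀, hm₀⟩, -⟩ := hext S le_rfl (Nat.le_add_right _ _)
    obtain ⟨Φ, hΦ, hgen⟩ := exists_gen' dat hSA e he hm₀.adm (bpf_of_mx dat hS hSA hm₀)
    refine ⟨Φ, hΦ, fun c hc => ?_⟩
    obtain ⟨hA, hb, -⟩ := hgen c hc
    refine ⟨hA, hb, ?_⟩
    obtain ⟨G₁, hG₁, hF'⟩ := exists_F' dat hA.ne (hSA _ hA.x_mem) fun j => hSA _ (hA.t_mem j)
    obtain ⟨Ψ, hΨ⟩ := exists_Psi c Φ
    have hΨ0 : Ψ ≠ 0 := by
      intro h0
      apply hc
      have h1 := hΨ 0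
      rw [h0, map_zero, ca_zero] at h1
      exact h1.symm
    refine ⟨G₁ * Ψ, mul_ne_zero hG₁ hΨ0, fun a ha => ?_⟩
    rw [map_mul] at ha
    have ha1 := left_ne_zero_of_mul ha
    have ha2 := right_ne_zero_of_mul ha
    rw [hΨ] at ha2
    obtain ⟨hA', hb', hmin⟩ := hgen _ ha2
    rw [cx_ca, ct_ca] at hA' hb' hmin
    obtain ⟨F, hF0, hF1, hF2, hF3⟩ := hF' a ha1
    refine ⟨hA', hb', F, hF0, hF2, hF3, fun η hη => ?_, fun η S' hS' hcod w hw hbw => ?_⟩
    · have hinf : Infinite k := IsAlgClosed.instInfinite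
      obtain ⟨c', hc'⟩ := exists_eval_ne1 hF0
      have h1 := hF1 η c' hc'
      have h2 := reached_bound dat hS hSA hext' hp' hA' hb' hmin hη c'
      have h3 : ((TG1.ordAt η F : ℕ) : ℤ) ≤ (n + 1) * C₀ := by linarith
      have h4 : TG1.ordAt η F ≤ (n + 1) * C₀ := by exact_mod_cast h3
      exact h4.trans (Nat.le_add_right _ _)
    · obtain ⟨hmx, hle⟩ := hext' S' hS' hcod
      have hη1 := admTr hA' η
      have hη2 := bpfTr hA' hb' η
      obtain ⟨x₁, t₁, hm, hb₁, hc₁, y, hy, hby, hyT⟩ :=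
        exists_nice_mx dat hS hSA hS' hη1 hw.t_mem hη2 hmx
      obtain ⟨h1, h2⟩ := mu_le dat hS hSA hS' hη1 hη2 hw hbw hle hm hb₁ hy hby hyT
      rw [dg_tr] at h2
      refine h2.trans ?_
      exact_mod_cast hCC

end Pool.Agent.TG91
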