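import Pool.Agent.Lib.TG1.Defs
import Pool.Agent.Lib.TG_h62.Grow

/-!
# TANK G, row C42-2 (C2): definitions
-/

set_option autoImplicit false

namespace Pool.Agent.TG91

open MvPolynomial
open Pool.Agent.TG (Ov ZDim IsMin)
open Pool.Agent.TGh33 (Wr DB jm dualD)
open Pool.Agent.TGh71 (dsum pol wgt)
open Pool.Agent.TG1
open Pool.Agent.TGh62 (rf)

universe u

variable {k K : Type u} [Field k] [Field K] [Algebra k K]

section

variable {n : ℕ} {D : Fin (n + 1) → Derivation k K K} {z : Fin (n + 1) → K} {A : Subalgebra k K}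

/-- `(S, x, t)`: the zeros of `(S, t)` are in the good locus, `x` and the Wronskian are units
there. -/
def Nc (D : Fin (n + 1) → Derivation k K K) (A : Subalgebra k K) (S : Submodule k K) (x : K)
    (t : Fin (n + 1) → K) : Prop :=
  ∀ V : ValuationSubring K, Ov k V → (∀ j, ¬ IsMin V S (t j)) →
    (∀ a ∈ A, a ∈ V) ∧ V.valuation x = 1 ∧ V.valuation (Wr D (Fin.cons x t)) = 1

/-- The marked places: not good, not over the point `(1, 0, .., 0)`. -/
def mk (D : Fin (n + 1) → Derivation k K K) (A : Subalgebra k K) (x : K)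
    (t : Fin (n + 1) → K) : Set (PL k t) := {P | P ∉ gd D A t ∧ P.v (t 0) ≤ P.v x}

/-- The tuple with coefficients `c` (`e` spans `S`). -/
def cx {h : ℕ} (e : Fin h → K) (c : Fin (n + 2) × Fin h → k) : K := ∑ j, c (0, j) • e j

/-- The tuple with coefficients `c` (`e` spans `S`). -/
def ct {h : ℕ} (e : Fin h → K) (c : Fin (n + 2) × Fin h → k) : Fin (n + 1) → K :=
  fun i => ∑ j, c (i.succ, j) • e j

/-- `η` is reached by the chain (C1): there are `S' ≤ S` of codimension at most `s` containing the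
translated tuple, and `w ∈ S'`, with all zeros of `(S', t - η x)` nice. -/
def Reached (D : Fin (n + 1) → Derivation k K K) (A : Subalgebra k K) (S : Submodule k K) (s : ℕ)
    (x : K) (t : Fin (n + 1) → K) (η : Fin (n + 1) → k) : Prop :=
  ∃ S' ≤ S, Module.finrank k S ≤ Module.finrank k S' + s ∧ ∃ w, Adm D S' w (tr x t η) ∧
    Bpf S' w (tr x t η) ∧ Nc D A S' w (tr x t η) ∧
    ∀ V : ValuationSubring K, Ov k V → (∀ j, ¬ IsMin V S' (tr x t η j)) →
      V.valuation x = 1 ∧ V.valuation (Wr D (Fin.cons x (tr x t η))) = 1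

end

end Pool.Agent.TG91
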