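import Pool.Agent.Lib.TG1.Deg
import Pool.Agent.Lib.TG1.TL
import Pool.Agent.Lib.TG1.FFI
import Pool.Agent.Lib.TG1.Good
import Pool.Agent.Lib.TG1.Hyp
import Pool.Agent.Lib.TG91.Defs

/-!
# TANK G, row C42-2: composites of valuation rings, the residue space of a place
-/

set_option autoImplicit false

namespace Pool.Agent.TG91

open IsLocalRing
open Pool.Agent.TG (Ov ZDim IsMin)
open Pool.Agent.TG1h47 (algRes kres fres residue_ne_zero_iff residue_inv)

universe u

section Comp

variable {K : Type u} [Field K]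

theorem residue_eq_zero_of_inv_notMem {P : ValuationSubring K} (x : P)
    (h : (x : K)⁻¹ ∉ P) : residue P x = 0 := by
  by_contra h1
  exact h ((residue_ne_zero_iff x).1 h1).2

/-- The composite of `P` with a valuation ring of its residue field. -/
def compV (P : ValuationSubring K) (W : ValuationSubring (ResidueField P)) :
    ValuationSubring K where
  carrier := {x | ∃ h : x ∈ P, residue P ⟨x, h⟩ ∈ W}
  mul_mem' := by
    rintro a b ⟨ha, ha'⟩ ⟨hb, hb'⟩
    refine ⟨mul_mem ha hb, ?_⟩
    have h1 : residue P ⟨a * b, mul_mem ha hb⟩ = residue P ⟨a, ha⟩ * residue P ⟨b, hb⟩ := by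
      rw [← map_mul]
      rfl
    rw [h1]
    exact mul_mem ha' hb'
  one_mem' := ⟨one_mem P, by
    have h1 : residue P ⟨1, one_mem P⟩ = 1 := map_one (residue P)
    rw [h1]
    exact one_mem W⟩
  add_mem' := by
    rintro a b ⟨ha, ha'⟩ ⟨hb, hb'⟩
    refine ⟨add_mem ha hb, ?_⟩
    have h1 : residue P ⟨a + b, add_mem ha hb⟩ = residue P ⟨a, ha⟩ + residue P ⟨b, hb⟩ := by
      rw [← map_add]
      rfl
    rw [h1]
    exact add_mem ha' hb'
  zero_mem' := ⟨zero_mem P, by
    have h1 : residue P ⟨0, zero_mem P⟩ = 0 := map_zero (residue P)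
    rw [h1]
    exact zero_mem W⟩
  neg_mem' := by
    rintro a ⟨ha, ha'⟩
    refine ⟨neg_mem ha, ?_⟩
    have h1 : residue P ⟨-a, neg_mem ha⟩ = -residue P ⟨a, ha⟩ := by
      rw [← map_neg]
      rfl
    rw [h1]
    exact neg_mem ha'
  mem_or_inv_mem' := by
    intro x
    by_cases h0 : x = 0
    · left
      rw [h0]
      refine ⟨zero_mem P, ?_⟩
      have h1 : residue P ⟨0, zero_mem P⟩ = 0 := map_zero (residue P)
      rw [h1]
      exact zero_mem W
    by_cases hx : x ∈ P
    · by_cases hx' : x⁻¹ ∈ P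
      · rcases W.mem_or_inv_mem (residue P ⟨x, hx⟩) with h | h
        · exact Or.inl ⟨hx, h⟩
        · right
          refine ⟨hx', ?_⟩
          rw [residue_inv ⟨x, hx⟩ hx' h0]
          exact h
      · left
        refine ⟨hx, ?_⟩
        rw [residue_eq_zero_of_inv_notMem ⟨x, hx⟩ hx']
        exact zero_mem W
    · right
      have hx' : x⁻¹ ∈ P := (P.mem_or_inv_mem x).resolve_left hx
      refine ⟨hx', ?_⟩
      rw [residue_eq_zero_of_inv_notMem ⟨x⁻¹, hx'⟩ (by
        change (x⁻¹)⁻¹ ∉ P
        rwa [inv_inv])]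
      exact zero_mem W

theorem mem_compV {P : ValuationSubring K} {W : ValuationSubring (ResidueField P)} {x : K} :
    x ∈ compV P W ↔ ∃ h : x ∈ P, residue P ⟨x, h⟩ ∈ W := Iff.rfl

theorem compV_le (P : ValuationSubring K) (W : ValuationSubring (ResidueField P)) :
    compV P W ≤ P := fun _ hx => hx.1

end Comp

section Space

variable {k K : Type u} [Field k] [Field K] [Algebra k K]

theorem ov_compV {P : ValuationSubring K} (hk : ∀ c : k, algebraMap k K c ∈ P)
    {W : ValuationSubring (ResidueField P)}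
    (hW : letI := algRes P hk; Ov k W) : Ov k (compV P W) := by
  let _ := algRes P hk
  intro c
  exact ⟨hk c, hW c⟩

/-- The residues of `s / s₀`, `s ∈ S`. -/
noncomputable def resS (P : ValuationSubring K) (hk : ∀ c : k, algebraMap k K c ∈ P)
    (S : Submodule k K) (s₀ : K) :
    letI := algRes P hk
    Submodule k (ResidueField P) :=
  letI := algRes P hk
  { carrier := {y | ∃ s ∈ S, ∃ h : s / s₀ ∈ P, residue P ⟨s / s₀, h⟩ = y}
    add_mem' := by
      rintro _ _ ⟨a, ha, ha', rfl⟩ ⟨b, hb, hb', rfl⟩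
      refine ⟨a + b, S.add_mem ha hb, ?_, ?_⟩
      · rw [add_div]
        exact add_mem ha' hb'
      · rw [← map_add]
        congr 1
        exact Subtype.ext (add_div _ _ _)
    zero_mem' := ⟨0, S.zero_mem, by rw [zero_div]; exact zero_mem P, by
      have h1 : (⟨0 / s₀, by rw [zero_div]; exact zero_mem P⟩ : P) = 0 :=
        Subtype.ext (zero_div _)
      rw [h1, map_zero]⟩
    smul_mem' := by
      rintro c _ ⟨a, ha, ha', rfl⟩
      refine ⟨c • a, S.smul_mem c ha, ?_, ?_⟩
      · rw [smul_div_assoc, Algebra.smul_def]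
        exact mul_mem (hk c) ha'
      · rw [Algebra.smul_def c (residue P ⟨a / s₀, ha'⟩)]
        change _ = kres P hk c * _
        rw [TG1h47.kres_apply, ← map_mul]
        congr 1
        exact Subtype.ext (by
          change c • a / s₀ = algebraMap k K c * (a / s₀)
          rw [smul_div_assoc, Algebra.smul_def]) }

theorem mem_resS {P : ValuationSubring K} {hk : ∀ c : k, algebraMap k K c ∈ P}
    {S : Submodule k K} {s₀ : K} {y : ResidueField P} :
    letI := algRes P hk
    y ∈ resS P hk S s₀ ↔ ∃ s ∈ S, ∃ h : s / s₀ ∈ P, residue P ⟨s / s₀, h⟩ = y := Iff.rfl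

/-- The residue map on `S`. -/
noncomputable def resL (P : ValuationSubring K) (hk : ∀ c : k, algebraMap k K c ∈ P)
    (S : Submodule k K) (s₀ : K) (h₀ : ∀ s ∈ S, s / s₀ ∈ P) :
    letI := algRes P hk
    S →ₗ[k] ResidueField P :=
  letI := algRes P hk
  { toFun := fun s => residue P ⟨(s : K) / s₀, h₀ s s.2⟩
    map_add' := fun a b => by
      rw [← map_add]
      congr 1
      exact Subtype.ext (add_div _ _ _)
    map_smul' := fun c a => by
      rw [RingHom.id_apply, Algebra.smul_def]
      change _ = kres P hk c * _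
      rw [TG1h47.kres_apply, ← map_mul]
      congr 1
      exact Subtype.ext (by
        change (c • a : S) / s₀ = algebraMap k K c * ((a : K) / s₀)
        rw [Submodule.coe_smul, smul_div_assoc, Algebra.smul_def]) }

theorem resS_fg {P : ValuationSubring K} {hk : ∀ c : k, algebraMap k K c ∈ P}
    {S : Submodule k K} {s₀ : K} (hS : S.FG) (h₀ : ∀ s ∈ S, s / s₀ ∈ P) :
    letI := algRes P hk
    (resS P hk S s₀).FG := by
  let _ := algRes P hk
  have h1 : resS P hk S s₀ = LinearMap.range (resL P hk S s₀ h₀) := by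
    ext y
    constructor
    · rintro ⟨s, hs, h, rfl⟩
      exact ⟨⟨s, hs⟩, rfl⟩
    · rintro ⟨s, rfl⟩
      exact ⟨s, s.2, h₀ s s.2, rfl⟩
  rw [h1, LinearMap.range_eq_map]
  have i1 : Module.Finite k S := Module.Finite.iff_fg.2 hS
  exact Submodule.FG.map _ Module.Finite.fg_top

/-- Minimal elements of the residue space. -/
theorem isMin_resS {P : ValuationSubring K} {hk : ∀ c : k, algebraMap k K c ∈ P}
    {S : Submodule k K} {s₀ f : K} (h₀ : IsMin P S s₀) (W : ValuationSubring (ResidueField P))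
    (hf : IsMin (compV P W) S f) :
    letI := algRes P hk
    IsMin W (resS P hk S s₀) (residue P ⟨f / s₀, h₀.div f hf.mem⟩) := by
  let _ := algRes P hk
  have hle := compV_le P W
  have hf0 : f / s₀ ≠ 0 := div_ne_zero hf.ne h₀.ne
  have hinv : (f / s₀)⁻¹ ∈ P := by
    rw [inv_div]
    exact hle (hf.div s₀ h₀.mem)
  refine ⟨⟨f, hf.mem, h₀.div f hf.mem, rfl⟩, ?_, ?_⟩
  · exact (residue_ne_zero_iff _).2 ⟨hf0, hinv⟩
  · rintro _ ⟨g, hg, hgP, rfl⟩
    obtain ⟨h1, h2⟩ := hf.div g hg
    have h3 : residue P ⟨g / s₀, hgP⟩ / residue P ⟨f / s₀, h₀.div f hf.mem⟩ =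
        residue P ⟨g / f, h1⟩ := by
      rw [div_eq_mul_inv, ← residue_inv ⟨f / s₀, h₀.div f hf.mem⟩ hinv hf0, ← map_mul]
      congr 1
      refine Subtype.ext ?_
      change g / s₀ * (f / s₀)⁻¹ = g / f
      rw [inv_div, div_mul_div_cancel₀ h₀.ne]
    rw [h3]
    exact h2

end Space

end Pool.Agent.TG91
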