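import Pool.Agent.Lib.TG91.Trf
import Pool.Agent.Lib.TG1.Step

/-!
# TANK G, row C42-2: the count
-/

set_option autoImplicit false

namespace Pool.Agent.TG91

open Function
open Pool.Agent.TG (Ov ZDim IsMin)
open Pool.Agent.TGh33 (Wr DB)
open Pool.Agent.TGh71 (dsum pol wgt dsum_sub dsum_mono dsum_nonneg pol_fin wgt_fin)
open Pool.Agent.TG1

universe u

variable {k K : Type u} [Field k] [Field K] [Algebra k K] {n : ℕ}
  {D : Fin (n + 1) → Derivation k K K} {z : Fin (n + 1) → K} {A : Subalgebra k K}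

theorem supp_fin {t : Fin (n + 1) → K} (hF : PF.FF (kap k t) K) (y : K) :
    (support fun P : PL k t => P.v y).Finite := PF.finite_support hF y

theorem dsum_v {t : Fin (n + 1) → K} (hF : PF.FF (kap k t) K) (y : K) :
    dsum (fun P : PL k t => P.deg) (fun P => P.v y) = 0 := PF.product_formula hF y

theorem dsum_eq_sum {ι : Type*} {dg : ι → ℕ} {u : ι → ℤ} (s : Finset ι)
    (h : ∀ P, u P ≠ 0 → P ∈ s) : dsum dg u = ∑ P ∈ s, u P * (dg P : ℤ) := by
  rw [dsum]
  refine finsum_eq_sum_of_support_subset _ fun P hP => ?_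
  rw [mem_support] at hP
  exact h P fun h0 => hP (by rw [h0, zero_mul])

/-- Elements of `A` are integral at good places. -/
theorem gd_nonneg {t : Fin (n + 1) → K} {P : PL k t} (hP : P ∈ gd D A t) {y : K} (hy : y ∈ A) :
    0 ≤ P.v y := PF.Pl.mem_vs'.1 (hP.1.le y hy)

/-- `β` in terms of the places which are not good. -/
theorem bet_eq (dat : Dat D z A) [IsAlgClosed k] {x : K} {t : Fin (n + 1) → K}
    (hW : Wr D (Fin.cons x t) ≠ 0) (ht : ∀ j, t j ∈ A) :
    bet D A x t = dsum (fun P : PL k t => P.deg) (fun P =>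
      wgt (gd D A t) (fun P => P.v (t 0)) (fun P => P.v x) (fun P => P.v (Wr D (Fin.cons x t))) P -
        P.v (Wr D (Fin.cons x t))) := by
  have hF := ff dat hW
  rw [dsum_sub (wgt_fin (finite_gd_compl dat hW ht) (supp_fin hF _)) (supp_fin hF _), dsum_v hF,
    sub_zero]
  rfl

theorem finite_mk (dat : Dat D z A) [IsAlgClosed k] {x : K} {t : Fin (n + 1) → K}
    (hW : Wr D (Fin.cons x t) ≠ 0) (ht : ∀ j, t j ∈ A) (y : K) : (mk D A y t).Finite :=
  (finite_gd_compl dat hW ht).subset fun _ hP => hP.1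

/-- At a place over the point `(1, 0, .., 0)` there is a zero. -/
theorem zero_of_pole {S : Submodule k K} {w : K} {t : Fin (n + 1) → K} (hw : Adm D S w t)
    {P : PL k t} (hP : P.v w < P.v (t 0)) (j : Fin (n + 1)) : ¬ IsMin P.vs S (t j) := by
  intro hj
  have h1 := PF.Pl.mem_vs'.1 (hj.div w hw.x_mem)
  rw [P.map_div (ffi_x hw.ne) (ffi_t hw.ne j), v_t_eq (ffi_t hw.ne) P j] at h1
  omega

/-- `β` of a nice base point free tuple is a sum over the marked places. -/
theorem bet_nice (dat : Dat D z A) [IsAlgClosed k] {S : Submodule k K}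
    (hSA : ∀ a ∈ S, a ∈ A) {x : K} {t : Fin (n + 1) → K} (h : Adm D S x t)
    (hc : Nc D A S x t) :
    bet D A x t = ∑ P ∈ (finite_mk dat h.ne (fun j => hSA _ (h.t_mem j)) x).toFinset,
      (1 - P.v (Wr D (Fin.cons x t))) * (P.deg : ℤ) := by
  have ht : ∀ j, t j ∈ A := fun j => hSA _ (h.t_mem j)
  rw [bet_eq dat h.ne ht]
  have key : ∀ P : PL k t, wgt (gd D A t) (fun P => P.v (t 0)) (fun P => P.v x)
      (fun P => P.v (Wr D (Fin.cons x t))) P - P.v (Wr D (Fin.cons x t)) ≠ 0 →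
      P ∈ (finite_mk dat h.ne ht x).toFinset := by
    intro P hP
    rw [Set.Finite.mem_toFinset]
    by_contra hcon
    apply hP
    by_cases hg : P ∈ gd D A t
    · rw [wgt, if_pos hg, sub_self]
    · have h1 : P.v x < P.v (t 0) := by
        by_contra h2
        exact hcon ⟨hg, not_lt.1 h2⟩
      obtain ⟨-, -, h3⟩ := hc P.vs (const_mem P) (zero_of_pole h h1)
      rw [PF.Pl.val_eq_one_iff h.ne] at h3
      rw [wgt, if_neg hg, if_neg (not_le.2 h1), h3, sub_zero]
  rw [dsum_eq_sum _ key]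
  refine Finset.sum_congr rfl fun P hP => ?_
  rw [Set.Finite.mem_toFinset] at hP
  rw [wgt, if_neg hP.1, if_pos hP.2]

/-- The sum over the marked places does not depend on the nice base point free tuple. -/
theorem sum_transfer [IsAlgClosed k] (dat : Dat D z A) {S : Submodule k K} (hS : S.FG)
    (hSA : ∀ a ∈ S, a ∈ A) {x y : K} {t s : Fin (n + 1) → K} (h : Adm D S x t)
    (h' : Adm D S y s) (hb : Bpf S x t) (hb' : Bpf S y s) (hc : Nc D A S x t)
    (hc' : Nc D A S y s) (W : K) :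
    ∑ P ∈ (finite_mk dat h.ne (fun j => hSA _ (h.t_mem j)) x).toFinset,
      (1 - P.v W) * (P.deg : ℤ) =
    ∑ Q ∈ (finite_mk dat h'.ne (fun j => hSA _ (h'.t_mem j)) y).toFinset,
      (1 - Q.v W) * (Q.deg : ℤ) := by
  have T : ∀ P ∈ (finite_mk dat h.ne (fun j => hSA _ (h.t_mem j)) x).toFinset,
      ∃ Q : PL k s, Q ∈ mk D A y s ∧ Q.vs = P.vs ∧ Q.v = P.v ∧ Q.deg = P.deg := by
    intro P hP
    obtain ⟨Q, h1, h2, h3, h4⟩ := transfer dat hS hSA h h' hb hb' hc' P
      ((Set.Finite.mem_toFinset _).1 hP)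
    exact ⟨Q, h1, h2, h3, h4 hc⟩
  refine Finset.sum_bij (fun P hP => (T P hP).choose) ?_ ?_ ?_ ?_
  · intro P hP
    rw [Set.Finite.mem_toFinset]
    exact (T P hP).choose_spec.1
  · intro P hP P' hP' heq
    apply PF.Pl.vs_injective
    rw [← (T P hP).choose_spec.2.1, ← (T P' hP').choose_spec.2.1]
    exact congrArg PF.Pl.vs heq
  · intro Q hQ
    obtain ⟨P, h1, h2, h3, h4⟩ := transfer dat hS hSA h' h hb' hb hc Q
      ((Set.Finite.mem_toFinset _).1 hQ)
    have hP : P ∈ (finite_mk dat h.ne (fun j => hSA _ (h.t_mem j)) x).toFinset :=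
      (Set.Finite.mem_toFinset _).2 h1
    refine ⟨P, hP, ?_⟩
    apply PF.Pl.vs_injective
    rw [(T P hP).choose_spec.2.1, h2]
  · intro P hP
    rw [(T P hP).choose_spec.2.2.1, (T P hP).choose_spec.2.2.2]

/-- `x, t` in `S`, `w, t` in `S' ≤ S`, all zeros of `(S', t)` nice; `(x₁, t₁)` any nice base point
free tuple of `S'`. -/
theorem core0 [IsAlgClosed k] (dat : Dat D z A) {S S' : Submodule k K} (hS : S.FG)
    (hSA : ∀ a ∈ S, a ∈ A) (hS' : S' ≤ S) {x w x₁ : K} {t t₁ : Fin (n + 1) → K}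
    (h : Adm D S x t) (hw : Adm D S' w t) (h₁ : Adm D S' x₁ t₁) (hb : Bpf S x t)
    (hbw : Bpf S' w t) (hb₁ : Bpf S' x₁ t₁) (hcw : Nc D A S' w t)
    (hcx : ∀ V : ValuationSubring K, Ov k V → (∀ j, ¬ IsMin V S' (t j)) →
      V.valuation x = 1 ∧ V.valuation (Wr D (Fin.cons x t)) = 1)
    (hc₁ : Nc D A S' x₁ t₁)
    (hmin : ∀ P ∈ mk D A x t, ∀ (a : K) (b : Fin (n + 1) → K), Adm D S a b →
      P.v (Wr D (Fin.cons x t)) ≤ P.v (Wr D (Fin.cons a b)))
    (htame : ∀ P : PL k t, P.v x < P.v (t 0) →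
      (P.v (t 0) - P.v x) * (P.deg : ℤ) ≤ (dg k x t : ℤ) - dg k w t →
      ∀ g : Fin (n + 2) → K, (∀ j, P.Ge (P.v x) (g j)) → Wr D g ≠ 0 →
      P.v (Wr D (Fin.cons x t)) ≤ P.v (Wr D g) + (n + 1) * (P.v (t 0) - P.v x)) :
    dg k w t ≤ dg k x t ∧
      bet D A x₁ t₁ ≤ bet D A x t + (n + 2) * ((dg k x t : ℤ) - dg k w t) := by
  have hS'A : ∀ a ∈ S', a ∈ A := fun a ha => hSA a (hS' ha)
  have hS'fg : S'.FG := by
    have i0 : FiniteDimensional k S := Module.Finite.iff_fg.2 hS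
    have i1 : FiniteDimensional k S' := Submodule.finiteDimensional_of_le hS'
    exact Module.Finite.iff_fg.1 i1
  have hF := ff dat h.ne
  have htA : ∀ j, t j ∈ A := fun j => hSA _ (h.t_mem j)
  have hx0 := ffi_x h.ne
  have hw0 := ffi_x hw.ne
  have ht0 := ffi_t h.ne
  -- the places over the zeros of `(S', t)`
  have F1 : ∀ P : PL k t, P.v w < P.v (t 0) →
      P.v w = 0 ∧ P.v x = 0 ∧ P.v (Wr D (Fin.cons x t)) = 0 := by
    intro P hP
    obtain ⟨-, h1, -⟩ := hcw P.vs (const_mem P) (zero_of_pole hw hP)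
    obtain ⟨h2, h3⟩ := hcx P.vs (const_mem P) (zero_of_pole hw hP)
    exact ⟨(PF.Pl.val_eq_one_iff hw0).1 h1, (PF.Pl.val_eq_one_iff hx0).1 h2,
      (PF.Pl.val_eq_one_iff h.ne).1 h3⟩
  have F2 : ∀ P ∈ gd D A t, P.v (t 0) = 0 ∧ 0 ≤ P.v x ∧ 0 ≤ P.v w := fun P hP =>
    ⟨hP.2, gd_nonneg hP (hSA _ h.x_mem), gd_nonneg hP (hS'A _ hw.x_mem)⟩
  set M := (finite_mk dat h.ne htA w).toFinset with hM
  have hMmem : ∀ P, P ∈ M ↔ P ∉ gd D A t ∧ P.v (t 0) ≤ P.v w := fun P =>
    Set.Finite.mem_toFinset _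
  -- the degrees
  have hdx : (dg k x t : ℤ) = dsum (fun P : PL k t => P.deg)
      (pol (fun P => P.v (t 0)) fun P => P.v x) := (pls_eq dat h.ne).symm
  have hdw : (dg k w t : ℤ) = dsum (fun P : PL k t => P.deg)
      (pol (fun P => P.v (t 0)) fun P => P.v w) := (pls_eq dat hw.ne).symm
  have hmu : (dg k x t : ℤ) - dg k w t =
      ∑ P ∈ M, max 0 (P.v (t 0) - P.v x) * (P.deg : ℤ) := by
    rw [hdx, hdw, ← dsum_sub (pol_fin (supp_fin hF _) (supp_fin hF _))
      (pol_fin (supp_fin hF _) (supp_fin hF _))]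
    rw [dsum_eq_sum M]
    · refine Finset.sum_congr rfl fun P hP => ?_
      rw [hMmem] at hP
      simp only [pol]
      have h1 : max 0 (P.v (t 0) - P.v w) = 0 := by omega
      rw [h1, sub_zero]
    · intro P hP
      rw [hMmem]
      by_contra hcon
      apply hP
      simp only [pol]
      by_cases hg : P ∈ gd D A t
      · have := F2 P hg
        omega
      · have h1 : P.v w < P.v (t 0) := by
          by_contra h2
          exact hcon ⟨hg, not_lt.1 h2⟩
        have := F1 P h1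
        omega
  have hterm : ∀ P ∈ M, 0 ≤ max 0 (P.v (t 0) - P.v x) * (P.deg : ℤ) := fun P _ =>
    mul_nonneg (le_max_left _ _) (Int.natCast_nonneg _)
  have hmu0 : 0 ≤ (dg k x t : ℤ) - dg k w t := by
    rw [hmu]
    exact Finset.sum_nonneg hterm
  refine ⟨by omega, ?_⟩
  -- `β(x, t)`
  have hbx : bet D A x t = ∑ P ∈ M, ((if P.v (t 0) ≤ P.v x then 1 else 0) -
      P.v (Wr D (Fin.cons x t))) * (P.deg : ℤ) := by
    rw [bet_eq dat h.ne htA, dsum_eq_sum M]
    · refine Finset.sum_congr rfl fun P hP => ?_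
      rw [hMmem] at hP
      rw [wgt, if_neg hP.1]
    · intro P hP
      rw [hMmem]
      by_contra hcon
      apply hP
      by_cases hg : P ∈ gd D A t
      · rw [wgt, if_pos hg, sub_self]
      · have h1 : P.v w < P.v (t 0) := by
          by_contra h2
          exact hcon ⟨hg, not_lt.1 h2⟩
        obtain ⟨h2, h3, h4⟩ := F1 P h1
        rw [wgt, if_neg hg, if_neg (by omega), h4, sub_zero]
  have hb1 : bet D A x₁ t₁ = ∑ P ∈ M, (1 - P.v (Wr D (Fin.cons x₁ t₁))) * (P.deg : ℤ) := by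
    rw [bet_nice dat hS'A h₁ hc₁]
    exact sum_transfer dat hS'fg hS'A h₁ hw hb₁ hbw hc₁ hcw _
  rw [hbx, hb1, hmu, Finset.mul_sum, ← Finset.sum_add_distrib]
  refine Finset.sum_le_sum fun P hP => ?_
  rw [← mul_assoc, ← add_mul]
  refine mul_le_mul_of_nonneg_right ?_ (Int.natCast_nonneg _)
  have hP' := (hMmem P).1 hP
  by_cases hab : P.v (t 0) ≤ P.v x
  · rw [if_pos hab]
    have h1 : max 0 (P.v (t 0) - P.v x) = 0 := by omega
    rw [h1, mul_zero, add_zero]
    have h2 := hmin P ⟨hP'.1, hab⟩ x₁ t₁ ⟨hS' h₁.x_mem, fun j => hS' (h₁.t_mem j), h₁.ne⟩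
    omega
  · rw [if_neg hab]
    have h1 : max 0 (P.v (t 0) - P.v x) = P.v (t 0) - P.v x := by omega
    rw [h1]
    have h2 : (P.v (t 0) - P.v x) * (P.deg : ℤ) ≤ (dg k x t : ℤ) - dg k w t := by
      rw [hmu, ← h1]
      exact Finset.single_le_sum hterm hP
    -- `x` is minimal
    have h3 : IsMin P.vs S x := by
      rcases hb P.vs (const_mem P) with h3 | ⟨j, hj⟩
      · exact h3
      · exact absurd hj (zero_of_pole h (not_le.1 hab) j)
    have h4 : ∀ g ∈ S, P.Ge (P.v x) g := by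
      intro g hg hg0
      have h5 := PF.Pl.mem_vs'.1 (h3.div g hg)
      rw [P.map_div hg0 hx0] at h5
      omega
    have h5 := htame P (not_le.1 hab) h2 (Fin.cons x₁ t₁) (fun j => h4 _ (by
      refine Fin.cases ?_ (fun i => ?_) j
      · exact hS' h₁.x_mem
      · rw [Fin.cons_succ]
        exact hS' (h₁.t_mem i))) h₁.ne
    have h6 : 1 ≤ P.v (t 0) - P.v x := by omega
    have h7 : ((n : ℤ) + 2) * (P.v (t 0) - P.v x) =
        (n + 1) * (P.v (t 0) - P.v x) + (P.v (t 0) - P.v x) := by ring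
    omega

end Pool.Agent.TG91
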