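import Pool.Agent.Lib.TG91.Red
import Pool.Agent.Lib.TG_h62.Grow
import Pool.Agent.Lib.TG_h62.Num
import Pool.Agent.Lib.TG_h62.DV

/-!
# TANK G, row C42-2 (C2), row INV: the degree of a base point free tuple depends only on the space
(helper45)
-/

set_option autoImplicit false

namespace Pool.Agent.TG91

open Pool.Agent.TG (Ov ZDim IsMin)
open Pool.Agent.TGh62 (rf)
open Module

universe u

variable {k K : Type u} [Field k] [Field K] [Algebra k K]

theorem inv_deg_le {S : Submodule k K} (hS : S.FG) {r : ℕ} {f g : Fin (r + 1) → K}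
    (hf : ∀ i, f i ∈ S)
    (hg : ∀ i, g i ∈ S) (hgb : ∀ V : ValuationSubring K, Ov k V → ∃ i, IsMin V S (g i))
    (hf0 : f 0 ≠ 0) (hg0 : g 0 ≠ 0)
    (hfi : AlgebraicIndependent k fun i : Fin r => f i.succ / f 0)
    [FiniteDimensional (rf k f) K] [FiniteDimensional (rf k g) K] :
    Module.finrank (rf k f) K ≤ Module.finrank (rf k g) K := by
  classical
  have hfS : FiniteDimensional k S := Module.Finite.iff_fg.2 hS
  obtain ⟨t, ht⟩ := red_of_bpf hS hg hgb
  let b := Module.finBasis (rf k f) K
  let b' := Module.finBasis (rf k g) K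
  let E : Submodule k K := Submodule.span k (Set.range b)
  have hfE : FiniteDimensional k E := FiniteDimensional.span_of_finite k (Set.finite_range _)
  obtain ⟨c, hc⟩ := TGh62.grow_upper (V := S) (E := E) hg0 hg ht (b := b') b'.span_eq
  have h1 : ∀ N, finrank (rf k f) K * (N + r).choose r ≤
      finrank (rf k g) K * (N + c + r).choose r := fun N =>
    (TGh62.grow_lower hf0 hfi (T := S) (E := E) hf b.linearIndependent
      (fun j => Submodule.subset_span ⟨j, rfl⟩) N).trans (hc N)
  have h2 := TGh62.limit_le r 1 1 (c + r) le_rfl (X := (finrank (rf k f) K : ℝ))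
    (B := (finrank (rf k g) K : ℝ)) (fun N _ => ?_)
  · rw [Nat.cast_one, one_pow, mul_one] at h2
    exact_mod_cast h2
  · rw [Nat.cast_one, one_pow, mul_one]
    have h3 := TGh62.pow_le_fact_choose r N
    have h4 : (r.factorial : ℝ) * ((N + c + r).choose r : ℕ) ≤ ((N + c + r : ℕ) : ℝ) ^ r := by
      exact_mod_cast TGh62.fact_choose_le r (N + c)
    have h5 : ((finrank (rf k f) K * (N + r).choose r : ℕ) : ℝ) ≤
        ((finrank (rf k g) K * (N + c + r).choose r : ℕ) : ℝ) := by exact_mod_cast h1 N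
    push_cast at h5
    have h6 : ((1 * 1 * N + (c + r) : ℕ) : ℝ) = ((N + c + r : ℕ) : ℝ) := by
      congr 1; ring
    rw [h6]
    calc (finrank (rf k f) K : ℝ) * (N : ℝ) ^ r
        ≤ (finrank (rf k f) K : ℝ) * ((r.factorial : ℝ) * ((N + r).choose r : ℕ)) :=
          mul_le_mul_of_nonneg_left h3 (by positivity)
      _ = (r.factorial : ℝ) * ((finrank (rf k f) K : ℝ) * ((N + r).choose r : ℕ)) := by ring
      _ ≤ (r.factorial : ℝ) * ((finrank (rf k g) K : ℝ) * ((N + c + r).choose r : ℕ)) :=
          mul_le_mul_of_nonneg_left h5 (by positivity)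
      _ = (finrank (rf k g) K : ℝ) * ((r.factorial : ℝ) * ((N + c + r).choose r : ℕ)) := by ring
      _ ≤ (finrank (rf k g) K : ℝ) * ((N + c + r : ℕ) : ℝ) ^ r :=
          mul_le_mul_of_nonneg_left h4 (by positivity)

/-- **Row INV**, part 1. -/
theorem inv_deg [Infinite k] {S : Submodule k K} (hS : S.FG) {r : ℕ} {f g : Fin (r + 1) → K}
    (hf : ∀ i, f i ∈ S) (hfb : ∀ V : ValuationSubring K, Ov k V → ∃ i, IsMin V S (f i))
    (hg : ∀ i, g i ∈ S) (hgb : ∀ V : ValuationSubring K, Ov k V → ∃ i, IsMin V S (g i))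
    (hf0 : f 0 ≠ 0) (hg0 : g 0 ≠ 0)
    (hfi : AlgebraicIndependent k fun i : Fin r => f i.succ / f 0)
    (hgi : AlgebraicIndependent k fun i : Fin r => g i.succ / g 0)
    [FiniteDimensional (rf k f) K] [FiniteDimensional (rf k g) K] :
    Module.finrank (rf k f) K = Module.finrank (rf k g) K :=
  le_antisymm (inv_deg_le hS hf hg hgb hf0 hg0 hfi) (inv_deg_le hS hg hf hfb hg0 hf0 hgi)

theorem finite_of_fg_alg (hK : (⊤ : IntermediateField k K).FG) (L : IntermediateField k K)
    (hL : Algebra.IsAlgebraic L K) : FiniteDimensional L K := by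
  obtain ⟨B, hB⟩ := hK
  have hfd : FiniteDimensional k (Submodule.span k (B : Set K)) :=
    FiniteDimensional.span_of_finite k B.finite_toSet
  refine TGh62.finite_of_algebraic (V := Submodule.span k (B : Set K)) ?_ L
  rw [eq_top_iff, ← hB]
  exact IntermediateField.adjoin.mono _ _ _ Submodule.subset_span

open scoped IntermediateField.algebraAdjoinAdjoin in
/-- **Row INV**, part 2. -/
theorem inv_indep {S : Submodule k K} (hS : S.FG) {r : ℕ} {f g : Fin (r + 1) → K}
    (hf : ∀ i, f i ∈ S) (hg : ∀ i, g i ∈ S)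
    (hgb : ∀ V : ValuationSubring K, Ov k V → ∃ i, IsMin V S (g i)) (hf0 : f 0 ≠ 0)
    (hfi : AlgebraicIndependent k fun i : Fin r => f i.succ / f 0)
    [FiniteDimensional (rf k f) K] :
    g 0 ≠ 0 ∧ AlgebraicIndependent k (fun i : Fin r => g i.succ / g 0) ∧
      FiniteDimensional (rf k g) K := by
  classical
  have halg : Algebra.IsAlgebraic (rf k f) K := Algebra.IsAlgebraic.of_finite _ _
  have halg' : Algebra.IsAlgebraic (Algebra.adjoin k (Set.range fun i : Fin r => f i.succ / f 0))
      K := by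
    refine ⟨fun x => ?_⟩
    have hx : IsAlgebraic (IntermediateField.adjoin k
      (Set.range fun i : Fin r => f i.succ / f 0)) x := halg.isAlgebraic x
    exact (IsFractionRing.isAlgebraic_iff _ _ _).2 hx
  have hb := (AlgebraicIndependent.isTranscendenceBasis_iff_isAlgebraic hfi).2 halg'
  have htr : Algebra.trdeg k K = r := by
    have h1 := hb.lift_cardinalMk_eq_trdeg
    rw [Cardinal.mk_fin, Cardinal.lift_natCast] at h1
    have h2 : Cardinal.lift.{0} (Algebra.trdeg k K) = Cardinal.lift.{0} (r : Cardinal.{u}) := by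
      rw [← h1]; simp
    exact Cardinal.lift_injective h2
  have hfin : TG.Fin' S := by
    have hs : rf k f ≤ IntermediateField.adjoin k {x : K | ∃ f ∈ S, ∃ g ∈ S, x = g / f} := by
      unfold rf
      rw [IntermediateField.adjoin_le_iff]
      rintro _ ⟨i, rfl⟩
      exact IntermediateField.subset_adjoin _ _ ⟨f 0, hf 0, f i.succ, hf _, rfl⟩
    refine ⟨fun x => ?_⟩
    obtain ⟨p, hp, hpx⟩ := halg.1 x
    refine ⟨p.map (IntermediateField.inclusion hs).toRingHom, ?_, ?_⟩
    · rw [Ne, Polynomial.map_eq_zero_iff]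
      · exact hp
      · exact (IntermediateField.inclusion hs).toRingHom.injective
    · rw [Polynomial.aeval_def, Polynomial.eval₂_map]
      exact hpx
  have hBT : TG.BpfT S g := ⟨hg, hgb⟩
  have hg0 : g 0 ≠ 0 := hBT.ne_zero hfin htr.ge 0
  have hK : (⊤ : IntermediateField k K).FG := by
    rw [IntermediateField.fg_top_iff]
    have h1 : Algebra.EssFiniteType k (rf k f) := by
      rw [← IntermediateField.fg_top_iff]
      have h2 : (rf k f).FG := IntermediateField.fg_adjoin_of_finite (Set.finite_range _)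
      exact IntermediateField.fg_top_iff.2 (IntermediateField.essFiniteType_iff.2 h2)
    exact Algebra.EssFiniteType.comp k (rf k f) K
  refine ⟨hg0, hBT.algInd hfin htr, ?_⟩
  exact finite_of_fg_alg hK (rf k g) (hBT.alg0 hfin hg0)

end Pool.Agent.TG91
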