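import Pool.Agent.Lib.TG_h38.PFg

/-!
# Tame places: log derivations preserve the valuation ring (helper4)
-/

set_option autoImplicit false

namespace Pool.Agent.TG91

open Polynomial Pool.Agent.PF

variable {k κ K : Type*} [Field k] [Field κ] [Field K] [Algebra k K] [Algebra κ K]

/-- The logarithmic derivative. -/
def ldv (δ : Derivation k K K) (y : K) : K := δ y / y

theorem ldv_mul (δ : Derivation k K K) {x y : K} (hx : x ≠ 0) (hy : y ≠ 0) :
    ldv δ (x * y) = ldv δ x + ldv δ y := by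
  rw [ldv, ldv, ldv, δ.leibniz, smul_eq_mul, smul_eq_mul]
  field_simp
  ring

theorem ldv_one (δ : Derivation k K K) : ldv δ (1 : K) = 0 := by
  rw [ldv, δ.map_one_eq_zero, zero_div]

theorem ldv_inv (δ : Derivation k K K) {x : K} (hx : x ≠ 0) : ldv δ x⁻¹ = - ldv δ x := by
  have h := ldv_mul δ hx (inv_ne_zero hx)
  rw [mul_inv_cancel₀ hx, ldv_one] at h
  exact (neg_eq_of_add_eq_zero_right h.symm).symm

theorem ldv_pow (δ : Derivation k K K) {x : K} (hx : x ≠ 0) (m : ℕ) :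
    ldv δ (x ^ m) = m * ldv δ x := by
  induction m with
  | zero => rw [pow_zero, ldv_one, Nat.cast_zero, zero_mul]
  | succ m ih =>
    rw [pow_succ, ldv_mul δ (pow_ne_zero m hx) hx, ih, Nat.cast_succ]
    ring

theorem ldv_zpow (δ : Derivation k K K) {x : K} (hx : x ≠ 0) (m : ℤ) :
    ldv δ (x ^ m) = m * ldv δ x := by
  cases m with
  | ofNat m =>
    rw [Int.ofNat_eq_natCast, zpow_natCast, ldv_pow δ hx, Int.cast_natCast]
  | negSucc m =>
    rw [zpow_negSucc, ldv_inv δ (pow_ne_zero _ hx), ldv_pow δ hx, Int.negSucc_eq]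
    push_cast
    ring

variable (P : Pl κ K)

theorem ge_int (m : ℤ) : P.Ge 0 (m : K) := by
  have : (m : K) = algebraMap κ K (m : κ) := by rw [map_intCast]
  rw [this]
  exact Pl.ge_algebraMap _

/-- `δ` of the value of a polynomial. -/
theorem deriv_aeval (δ : Derivation k K K) (h1 : ∀ a : κ, P.Ge 0 (δ (algebraMap κ K a))) {y : K}
    (hy : P.Ge 0 y) (q : κ[X]) :
    ∃ r, P.Ge 0 r ∧ δ (aeval y q) = r + aeval y (derivative q) * δ y := by
  induction q using Polynomial.induction_on' with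
  | add p q hp hq =>
    obtain ⟨r, hr, hr'⟩ := hp
    obtain ⟨s, hs, hs'⟩ := hq
    refine ⟨r + s, Pl.Ge.add hr hs, ?_⟩
    rw [map_add, map_add, hr', hs', derivative_add, map_add]
    ring
  | monomial n a =>
    refine ⟨y ^ n * δ (algebraMap κ K a), ?_, ?_⟩
    · have h2 : P.Ge 0 (y ^ n) := by
        have := Pl.ge_aeval hy (X ^ n : κ[X])
        rwa [map_pow, aeval_X] at this
      have := Pl.Ge.mul h2 (h1 a)
      simpa using this
    · rw [aeval_monomial, derivative_monomial, aeval_monomial, δ.leibniz, δ.leibniz_pow,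
        smul_eq_mul, smul_eq_mul, smul_eq_mul, nsmul_eq_mul, map_mul, map_natCast]
      ring

/-- One step: the bound of the logarithmic derivatives increases. -/
theorem tame_step (δ : Derivation k K K) (h1 : ∀ a : κ, P.Ge 0 (δ (algebraMap κ K a)))
    {u : K} (hu0 : u ≠ 0) (hu : P.Ge 0 (ldv δ u)) (he : ((P.v u : ℤ) : κ) ≠ 0)
    (h4 : ∀ y : K, y ≠ 0 → P.v y = 0 → ∃ q : κ[X], P.Ge 1 (aeval y q) ∧
      aeval y (derivative q) ≠ 0 ∧ P.v (aeval y (derivative q)) = 0)
    {c : ℤ} (hc : c < 0) (hb : ∀ y : K, y ≠ 0 → P.Ge c (ldv δ y)) :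
    ∀ y : K, y ≠ 0 → P.Ge (c + 1) (ldv δ y) := by
  have ha : ∀ y : K, y ≠ 0 → P.v y = 0 → P.Ge (c + 1) (ldv δ y) := by
    intro y hy0 hy
    obtain ⟨q, hq1, hq2, hq3⟩ := h4 y hy0 hy
    obtain ⟨r, hr, hr'⟩ := deriv_aeval P δ h1 (y := y) (fun _ => hy.ge) q
    have h5 : P.Ge (c + 1) (δ (aeval y q)) := by
      by_cases h0 : aeval y q = 0
      · rw [h0, map_zero]
        exact Pl.Ge.zero
      · have h6 : δ (aeval y q) = aeval y q * ldv δ (aeval y q) := by
          rw [ldv, mul_div_cancel₀ _ h0]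
        rw [h6]
        have := Pl.Ge.mul hq1 (hb _ h0)
        rwa [add_comm] at this
    have h6 : P.Ge (c + 1) (aeval y (derivative q) * δ y) := by
      have h7 : aeval y (derivative q) * δ y = δ (aeval y q) + (-r) := by
        rw [hr']
        ring
      rw [h7]
      exact Pl.Ge.add h5 (Pl.Ge.neg (Pl.Ge.mono (by omega) hr))
    intro hne
    have hδ : δ y ≠ 0 := by
      intro h0
      rw [ldv, h0, zero_div] at hne
      exact hne rfl
    have h8 := h6 (mul_ne_zero hq2 hδ)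
    rw [P.mul _ _ hq2 hδ, hq3, zero_add] at h8
    rw [ldv, P.map_div hδ hy0, hy]
    omega
  obtain ⟨π, hπ0, hπ⟩ := P.unif
  have hdec : ∀ y : K, y ≠ 0 → ∃ w : K, w ≠ 0 ∧ P.v w = 0 ∧ y = w * π ^ (P.v y) := by
    intro y hy
    refine ⟨y * π ^ (-P.v y), mul_ne_zero hy (zpow_ne_zero _ hπ0), ?_, ?_⟩
    · rw [P.mul _ _ hy (zpow_ne_zero _ hπ0), P.map_zpow, hπ]
      ring
    · rw [mul_assoc, ← zpow_add₀ hπ0, neg_add_cancel, zpow_zero, mul_one]
  have hbπ : P.Ge (c + 1) (ldv δ π) := by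
    obtain ⟨w, hw0, hw, huw⟩ := hdec u hu0
    have h5 : ((P.v u : ℤ) : K) * ldv δ π = ldv δ u + (- ldv δ w) := by
      have h6 := congrArg (ldv δ) huw
      rw [ldv_mul δ hw0 (zpow_ne_zero _ hπ0), ldv_zpow δ hπ0] at h6
      rw [h6]
      ring
    have h6 : P.Ge (c + 1) (((P.v u : ℤ) : K) * ldv δ π) := by
      rw [h5]
      exact Pl.Ge.add (Pl.Ge.mono (by omega) hu) (Pl.Ge.neg (ha w hw0 hw))
    intro hne
    have h7 : ((P.v u : ℤ) : K) = algebraMap κ K ((P.v u : ℤ) : κ) := by rw [map_intCast]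
    have h8 : ((P.v u : ℤ) : K) ≠ 0 := by
      rw [h7, ne_eq, map_eq_zero]
      exact he
    have h9 := h6 (mul_ne_zero h8 hne)
    rw [P.mul _ _ h8 hne, h7, P.triv _ he, zero_add] at h9
    exact h9
  intro y hy
  obtain ⟨w, hw0, hw, hyw⟩ := hdec y hy
  have h5 : ldv δ y = ldv δ w + ((P.v y : ℤ) : K) * ldv δ π := by
    have h6 := congrArg (ldv δ) hyw
    rw [ldv_mul δ hw0 (zpow_ne_zero _ hπ0), ldv_zpow δ hπ0] at h6
    exact h6
  rw [h5]
  refine Pl.Ge.add (ha w hw0 hw) ?_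
  have := Pl.Ge.mul (ge_int P (P.v y)) hbπ
  rwa [zero_add] at this

/-- **Tame places.** -/
theorem tame_core (δ : Derivation k K K) (h1 : ∀ a : κ, P.Ge 0 (δ (algebraMap κ K a)))
    {u : K} (hu0 : u ≠ 0) (hu : P.Ge 0 (ldv δ u)) (he : ((P.v u : ℤ) : κ) ≠ 0)
    (h4 : ∀ y : K, y ≠ 0 → P.v y = 0 → ∃ q : κ[X], P.Ge 1 (aeval y q) ∧
      aeval y (derivative q) ≠ 0 ∧ P.v (aeval y (derivative q)) = 0)
    {N : ℤ} (hN : ∀ y : K, P.Ge 0 y → P.Ge N (δ y)) :
    ∀ y : K, P.Ge 0 y → P.Ge 0 (δ y) := by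
  obtain ⟨π, hπ0, hπ⟩ := P.unif
  have hb0 : ∀ y : K, y ≠ 0 → P.Ge (N - 1) (ldv δ y) := by
    intro y hy
    have hw0 : y * π ^ (-P.v y) ≠ 0 := mul_ne_zero hy (zpow_ne_zero _ hπ0)
    have hw : P.v (y * π ^ (-P.v y)) = 0 := by
      rw [P.mul _ _ hy (zpow_ne_zero _ hπ0), P.map_zpow, hπ]
      ring
    have hyw : y = (y * π ^ (-P.v y)) * π ^ (P.v y) := by
      rw [mul_assoc, ← zpow_add₀ hπ0, neg_add_cancel, zpow_zero, mul_one]
    have h5 : ldv δ y = ldv δ (y * π ^ (-P.v y)) + ((P.v y : ℤ) : K) * ldv δ π := by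
      conv_lhs => rw [hyw]
      rw [ldv_mul δ hw0 (zpow_ne_zero _ hπ0), ldv_zpow δ hπ0]
    rw [h5]
    refine Pl.Ge.add ?_ ?_
    · intro hne
      have hδ : δ (y * π ^ (-P.v y)) ≠ 0 := by
        intro h0
        rw [ldv, h0, zero_div] at hne
        exact hne rfl
      have h6 := hN _ (fun _ => hw.ge) hδ
      rw [ldv, P.map_div hδ hw0, hw]
      omega
    · have h7 : P.Ge (N - 1) (ldv δ π) := by
        intro hne
        have hδ : δ π ≠ 0 := by
          intro h0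
          rw [ldv, h0, zero_div] at hne
          exact hne rfl
        have h6 := hN π (fun _ => by omega) hδ
        rw [ldv, P.map_div hδ hπ0, hπ]
        omega
      have := Pl.Ge.mul (ge_int P (P.v y)) h7
      rwa [zero_add] at this
  have key : ∀ m : ℕ, ∀ y : K, y ≠ 0 → P.Ge (min 0 (N - 1 + m)) (ldv δ y) := by
    intro m
    induction m with
    | zero =>
      intro y hy
      exact Pl.Ge.mono (by push_cast; omega) (hb0 y hy)
    | succ m ih =>
      by_cases hlt : min 0 (N - 1 + m) < 0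
      · intro y hy
        have := tame_step P δ h1 hu0 hu he h4 hlt ih y hy
        exact Pl.Ge.mono (by push_cast; omega) this
      · intro y hy
        exact Pl.Ge.mono (by push_cast; omega) (ih y hy)
  have hfin : ∀ y : K, y ≠ 0 → P.Ge 0 (ldv δ y) := by
    intro y hy
    have := key (N - 1).natAbs y hy
    exact Pl.Ge.mono (by omega) this
  intro y hy
  by_cases h0 : y = 0
  · rw [h0, map_zero]
    exact Pl.Ge.zero
  · have h6 : δ y = y * ldv δ y := by
      rw [ldv, mul_div_cancel₀ _ h0]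
    rw [h6]
    have := Pl.Ge.mul hy (hfin y h0)
    rwa [zero_add] at this

end Pool.Agent.TG91
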