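import Pool.Agent.Lib.TG91.Comp
import Pool.Agent.Lib.TG91.Inv

/-!
# TANK G, row C42-2: transfer of marked places
-/

set_option autoImplicit false

namespace Pool.Agent.TG91

open IsLocalRing
open Pool.Agent.TG (Ov ZDim IsMin)
open Pool.Agent.TGh33 (Wr DB)
open Pool.Agent.TG1
open Pool.Agent.TGh62 (rf)
open Pool.Agent.TG1h47 (algRes kres fres residue_ne_zero_iff residue_inv rat dgr)

universe u

variable {k K : Type u} [Field k] [Field K] [Algebra k K] {n : ℕ}
  {D : Fin (n + 1) → Derivation k K K} {z : Fin (n + 1) → K} {A : Subalgebra k K}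

theorem kap_eq_rat (t : Fin (n + 1) → K) :
    kap k t = IntermediateField.adjoin k (Set.range (rat t)) := by
  have h := kap_eq (k := k) t 0
  have h1 : (fun i => t i - algebraMap k K ((0 : Fin (n + 1) → k) i)) = t := by
    funext i
    rw [Pi.zero_apply, map_zero, sub_zero]
  rw [h1] at h
  rw [h, TG1h47.kap]
  congr 2
  funext i
  change (t i.succ - algebraMap k K _) / (t 0 - algebraMap k K _) = t i.succ / t 0
  rw [Pi.zero_apply, Pi.zero_apply, map_zero, sub_zero, sub_zero]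

theorem crd_indep (dat : Dat D z A) {x : K} {t : Fin (n + 1) → K}
    (hW : Wr D (Fin.cons x t) ≠ 0) : AlgebraicIndependent k (crd x t) := by
  have h1 : Algebra.IsAlgebraic (kq k x t) K := by
    have := kq_fin dat hW
    exact Algebra.IsAlgebraic.of_finite _ _
  have h2 : IsTranscendenceBasis k (crd x t) := by
    have h3 : Algebra.IsAlgebraic (Algebra.adjoin k (Set.range (crd x t))) K := by
      constructor
      intro a
      rw [← IntermediateField.isAlgebraic_adjoin_iff]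
      exact h1.isAlgebraic a
    refine Algebra.IsAlgebraic.isTranscendenceBasis_of_lift_le_trdeg_of_finite k (crd x t) ?_
    rw [dat.trd, Cardinal.mk_fin, Cardinal.lift_natCast]
    simp
  exact h2.1

theorem rat_indep (dat : Dat D z A) {x : K} {t : Fin (n + 1) → K}
    (hW : Wr D (Fin.cons x t) ≠ 0) : AlgebraicIndependent k (rat t) := by
  have h1 := (TG1h47.rat_indep (crd_indep dat hW) 0).1
  have h2 : rat (TG1h47.sh (crd x t) (0 : Fin (n + 1) → k)) = rat t := by
    funext i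
    change (t i.succ / x - algebraMap k K _) / (t 0 / x - algebraMap k K _) = t i.succ / t 0
    rw [Pi.zero_apply, Pi.zero_apply, map_zero, sub_zero, sub_zero,
      div_div_div_cancel_right₀ (ffi_x hW)]
  rw [h2] at h1
  exact h1

/-- constants -/
theorem const_mem {t : Fin (n + 1) → K} (P : PL k t) (c : k) : algebraMap k K c ∈ P.vs :=
  P.algebraMap_mem_vs (algebraMap k (kap k t) c)

theorem isMin_t0 {S : Submodule k K} {x : K} {t : Fin (n + 1) → K} (h : Adm D S x t)
    (hb : Bpf S x t) (P : PL k t) (hP : P.v (t 0) ≤ P.v x) : IsMin P.vs S (t 0) := by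
  have ht := ffi_t h.ne
  have hx := ffi_x h.ne
  refine ⟨h.t_mem 0, ht 0, fun g hg => ?_⟩
  have key : ∀ y : K, IsMin P.vs S y → P.v (t 0) ≤ P.v y → g / t 0 ∈ P.vs := by
    intro y hy hle
    have h1 : g / t 0 = g / y * (y / t 0) := by rw [div_mul_div_cancel₀ hy.ne]
    rw [h1]
    refine mul_mem (hy.div g hg) ?_
    rw [PF.Pl.mem_vs', P.map_div hy.ne (ht 0)]
    omega
  rcases hb P.vs (const_mem P) with h1 | ⟨j, h1⟩
  · exact key x h1 hP
  · exact key (t j) h1 (v_t_eq ht P j).ge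

/-- On a marked place a nice tuple has no zeros. -/
theorem zero_free [IsAlgClosed k] (dat : Dat D z A) {S : Submodule k K}
    (hSA : ∀ a ∈ S, a ∈ A) {x y : K} {t s : Fin (n + 1) → K} (h : Adm D S x t) (hy : y ∈ S)
    (hb : Bpf S x t) (hc' : Nc D A S y s) (P : PL k t) (hP : P ∈ mk D A x t)
    (V : ValuationSubring K) (hV : Ov k V) (hVP : V ≤ P.vs) : ∃ j, IsMin V S (s j) := by
  by_contra hcon
  push Not at hcon
  obtain ⟨hA, hyu, -⟩ := hc' V hV hcon
  have hm := isMin_t0 h hb P hP.2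
  have hy0 : y ≠ 0 := by
    rintro rfl
    rw [map_zero] at hyu
    exact zero_ne_one hyu
  have hyV : y ∈ V := (V.valuation_le_one_iff y).1 hyu.le
  have hyV' : y⁻¹ ∈ V := by
    rw [← V.valuation_le_one_iff, map_inv₀, hyu, inv_one]
  have h1 : P.v y = 0 := by
    have h2 := PF.Pl.mem_vs'.1 (hVP hyV)
    have h3 := PF.Pl.mem_vs'.1 (hVP hyV')
    rw [P.map_inv] at h3
    omega
  have h2 : P.v (t 0) = 0 := by
    have h3 := PF.Pl.mem_vs'.1 (hVP (hA _ (hSA _ (h.t_mem 0))))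
    have h4 := PF.Pl.mem_vs'.1 (hm.div y hy)
    rw [P.map_div hy0 (ffi_t h.ne 0), h1] at h4
    omega
  exact hP.1 ⟨good_of dat h.ne (fun j => hSA _ (h.t_mem j)) P (fun a ha => hVP (hA a ha)) h2, h2⟩

/-- The place of `K / κ₂` with the valuation of `P`. -/
def movePl {κ₁ κ₂ : IntermediateField k K} (P : PF.Pl κ₁ K)
    (h : ∀ a ∈ κ₂, a ∈ P.vs) : PF.Pl κ₂ K where
  v := P.v
  zero := P.zero
  mul := P.mul
  add := P.add
  triv := fun c hc => by
    have h1 := PF.Pl.mem_vs'.1 (h (c : K) c.2)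
    have h2 := PF.Pl.mem_vs'.1 (h ((c : K)⁻¹) (inv_mem c.2))
    rw [P.map_inv] at h2
    change P.v (c : K) = 0
    omega
  unif := P.unif

theorem movePl_v {κ₁ κ₂ : IntermediateField k K} (P : PF.Pl κ₁ K)
    (h : ∀ a ∈ κ₂, a ∈ P.vs) : (movePl P h).v = P.v := rfl

theorem movePl_vs {κ₁ κ₂ : IntermediateField k K} (P : PF.Pl κ₁ K)
    (h : ∀ a ∈ κ₂, a ∈ P.vs) : (movePl P h).vs = P.vs := rfl

/-- The degree of a place through a minimal element `s₀` of a space. -/
theorem deg_eq_fres {t : Fin (n + 1) → K} (P : PL k t) (hr : ∀ i, rat t i ∈ P.vs) :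
    letI := algRes P.vs (const_mem P)
    P.deg = Module.finrank (IntermediateField.adjoin k
      (Set.range (fres P.vs (rat t) hr))) (ResidueField P.vs) := by
  let _ := algRes P.vs (const_mem P)
  rw [deg_eq]
  refine (congrArg (fun κ : IntermediateField k K => dgr κ.toSubfield P.vs)
    (kap_eq_rat t)).trans ?_
  refine TG1h47.dgr_adjoin (const_mem P) hr fun x hx => ?_
  rw [← kap_eq_rat] at hx
  exact P.algebraMap_mem_vs ⟨x, hx⟩

theorem rat_mem {t : Fin (n + 1) → K} (P : PL k t) (i : Fin n) : rat t i ∈ P.vs :=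
  P.algebraMap_mem_vs ⟨_, IntermediateField.subset_adjoin k _ ⟨i.succ, rfl⟩⟩

/-- A marked place for `(x, t)` is a marked place for `(y, s)`. -/
theorem transfer [IsAlgClosed k] (dat : Dat D z A) {S : Submodule k K} (hS : S.FG)
    (hSA : ∀ a ∈ S, a ∈ A) {x y : K} {t s : Fin (n + 1) → K} (h : Adm D S x t)
    (h' : Adm D S y s) (hb : Bpf S x t) (hb' : Bpf S y s) (hc' : Nc D A S y s)
    (P : PL k t) (hP : P ∈ mk D A x t) :
    ∃ Q : PL k s, Q ∈ mk D A y s ∧ Q.vs = P.vs ∧ Q.v = P.v ∧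
      ∀ (_ : Nc D A S x t), Q.deg = P.deg := by
  have ht := ffi_t h.ne
  have hm := isMin_t0 h hb P hP.2
  have hk := const_mem P
  let _ := algRes P.vs hk
  have hzs := zero_free dat hSA h h'.x_mem hb hc' P hP
  set T := resS P.vs hk S (t 0) with hT
  have hTfg : T.FG := resS_fg hS hm.div
  let f : Fin (n + 1) → ResidueField P.vs := fun j => residue P.vs ⟨t j / t 0, hm.div _ (h.t_mem j)⟩
  let g : Fin (n + 1) → ResidueField P.vs := fun j => residue P.vs ⟨s j / t 0, hm.div _ (h'.t_mem j)⟩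
  have hf : ∀ i, f i ∈ T := fun i => ⟨t i, h.t_mem i, hm.div _ (h.t_mem i), rfl⟩
  have hg : ∀ i, g i ∈ T := fun i => ⟨s i, h'.t_mem i, hm.div _ (h'.t_mem i), rfl⟩
  have hgb : ∀ W : ValuationSubring (ResidueField P.vs), Ov k W → ∃ i, IsMin W T (g i) := by
    intro W hW
    obtain ⟨j, hj⟩ := hzs (compV P.vs W) (ov_compV hk hW) (compV_le _ _)
    exact ⟨j, isMin_resS hm W hj⟩
  have hf0 : f 0 = 1 := by
    have h1 : (⟨t 0 / t 0, hm.div _ (h.t_mem 0)⟩ : P.vs) = 1 := Subtype.ext (div_self (ht 0))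
    change residue P.vs ⟨t 0 / t 0, hm.div _ (h.t_mem 0)⟩ = 1
    rw [h1, map_one]
  have hfr : (fun i : Fin n => f i.succ / f 0) = fres P.vs (rat t) (rat_mem P) := by
    funext i
    rw [hf0, div_one]
    rfl
  have hfi : AlgebraicIndependent k fun i : Fin n => f i.succ / f 0 := by
    rw [hfr]
    refine TG1h47.fres_indep hk (rat_mem P) (rat_indep dat h.ne) fun x hx => ?_
    rw [← kap_eq_rat] at hx
    exact P.algebraMap_mem_vs ⟨x, hx⟩
  have hdegP : P.deg = Module.finrank (rf k f) (ResidueField P.vs) := by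
    rw [deg_eq_fres P (rat_mem P), rf, hfr]
  have hfd : FiniteDimensional (rf k f) (ResidueField P.vs) := by
    apply Module.finite_of_finrank_pos
    rw [← hdegP]
    exact PF.Pl.deg_pos (ff dat h.ne) P
  obtain ⟨hg0, hgi, hgd⟩ := inv_indep hTfg hf hg hgb (by rw [hf0]; exact one_ne_zero) hfi
  have hs0 := (residue_ne_zero_iff (⟨s 0 / t 0, hm.div _ (h'.t_mem 0)⟩ : P.vs)).1 hg0
  have hs0' : (s 0 / t 0)⁻¹ ∈ P.vs := hs0.2
  have hrs : ∀ i, rat s i ∈ P.vs := fun i => by
    have h1 : rat s i = s i.succ / t 0 * (s 0 / t 0)⁻¹ := by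
      rw [inv_div, div_mul_div_cancel₀ (ht 0)]
      rfl
    rw [h1]
    exact mul_mem (hm.div _ (h'.t_mem _)) hs0'
  have hgr : (fun i : Fin n => g i.succ / g 0) = fres P.vs (rat s) hrs := by
    funext i
    have h1 : (⟨rat s i, hrs i⟩ : P.vs) =
        ⟨s i.succ / t 0, hm.div _ (h'.t_mem _)⟩ * ⟨(s 0 / t 0)⁻¹, hs0'⟩ := Subtype.ext (by
      change rat s i = s i.succ / t 0 * (s 0 / t 0)⁻¹
      rw [inv_div, div_mul_div_cancel₀ (ht 0)]
      rfl)
    change g i.succ / g 0 = residue P.vs ⟨rat s i, hrs i⟩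
    rw [h1, map_mul, residue_inv ⟨s 0 / t 0, _⟩ hs0' hs0.1]
    rfl
  have hks : ∀ a ∈ kap k s, a ∈ P.vs := by
    intro a ha
    rw [kap_eq_rat] at ha
    exact TG1h47.adjoin_le hk hrs (by rw [← hgr]; exact hgi) a ha
  have hs0v : P.v (s 0) = P.v (t 0) := by
    have hs00 := ffi_t h'.ne 0
    have h1 := PF.Pl.mem_vs'.1 (hm.div _ (h'.t_mem 0))
    have h2 := PF.Pl.mem_vs'.1 hs0'
    rw [P.map_div hs00 (ht 0)] at h1
    rw [P.map_inv, P.map_div hs00 (ht 0)] at h2
    omega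
  refine ⟨movePl P hks, ⟨?_, ?_⟩, movePl_vs P hks, movePl_v P hks, fun hc => ?_⟩
  · rintro ⟨h1, h2⟩
    apply hP.1
    refine ⟨h1, ?_⟩
    rw [← hs0v]
    exact h2
  · change P.v (s 0) ≤ P.v y
    rw [hs0v]
    have h1 := PF.Pl.mem_vs'.1 (hm.div _ h'.x_mem)
    rw [P.map_div (ffi_x h'.ne) (ht 0)] at h1
    omega
  · have hzt := zero_free dat hSA h h.x_mem hb hc P hP
    have hfb : ∀ W : ValuationSubring (ResidueField P.vs), Ov k W → ∃ i, IsMin W T (f i) := by
      intro W hW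
      obtain ⟨j, hj⟩ := hzt (compV P.vs W) (ov_compV hk hW) (compV_le _ _)
      exact ⟨j, isMin_resS hm W hj⟩
    have h1 := inv_deg hTfg hf hfb hg hgb (by rw [hf0]; exact one_ne_zero) hg0 hfi hgi
    have h2 : (movePl P hks).deg = Module.finrank (rf k g) (ResidueField P.vs) := by
      rw [deg_eq_fres (movePl P hks) hrs, rf, hgr]
      rfl
    rw [h2, hdegP, h1]

end Pool.Agent.TG91
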